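import Mathlib

set_option autoImplicit false

open Set Filter Topology
open scoped NNReal ENNReal

noncomputable section

namespace Pool.Agent.R192

open Real Classical

/-- iterated sums of a finite set -/
def sums (t₀ : ℝ) (Δ : Finset ℝ) : ℕ → Finset ℝ
  | 0 => {t₀}
  | n + 1 => (sums t₀ Δ n ×ˢ Δ).image fun x => x.1 + x.2

theorem sums_repr (t₀ : ℝ) (Δ : Finset ℝ) (n : ℕ) : ∀ t ∈ sums t₀ Δ n,
    ∃ f : Δ → ℕ, (∀ s, f s ≤ n) ∧ t = t₀ + ∑ s : Δ, (f s : ℝ) * s.1 := by
  induction n with
  | zero =>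
    intro t ht
    rw [sums, Finset.mem_singleton] at ht
    exact ⟨fun _ => 0, fun _ => le_rfl, by simp [ht]⟩
  | succ n ih =>
    intro t ht
    rw [sums, Finset.mem_image] at ht
    obtain ⟨⟨t', s⟩, h1, rfl⟩ := ht
    rw [Finset.mem_product] at h1
    obtain ⟨f, hf, h2⟩ := ih t' h1.1
    refine ⟨fun s' => f s' + if s' = ⟨s, h1.2⟩ then 1 else 0, fun s' => ?_, ?_⟩
    · have := hf s'
      show f s' + (if s' = ⟨s, h1.2⟩ then 1 else 0) ≤ n + 1
      split_ifs <;> omega
    · simp only [h2]
      push_cast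
      simp only [add_mul, Finset.sum_add_distrib, ite_mul, one_mul, zero_mul]
      rw [Finset.sum_ite_eq' Finset.univ (⟨s, h1.2⟩ : Δ)]
      simp only [Finset.mem_univ, if_true]
      ring

theorem card_sums (t₀ : ℝ) (Δ : Finset ℝ) (n : ℕ) : (sums t₀ Δ n).card ≤ (n + 1) ^ Δ.card := by
  have : sums t₀ Δ n ⊆ (Fintype.piFinset (fun _ : Δ => Finset.range (n + 1))).image
      fun f => t₀ + ∑ s : Δ, (f s : ℝ) * s.1 := by
    intro t ht
    obtain ⟨f, hf, rfl⟩ := sums_repr t₀ Δ n t ht
    rw [Finset.mem_image]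
    refine ⟨f, ?_, rfl⟩
    rw [Fintype.mem_piFinset]
    intro s
    rw [Finset.mem_range]
    have := hf s
    omega
  refine (Finset.card_le_card this).trans (Finset.card_image_le.trans ?_)
  rw [Fintype.card_piFinset]
  simp

theorem sums_ge {t₀ ρ : ℝ} {Δ : Finset ℝ} (h0 : 0 ≤ t₀) (h : ∀ s ∈ Δ, ρ ≤ s) (n : ℕ) :
    ∀ t ∈ sums t₀ Δ n, (n : ℝ) * ρ ≤ t := by
  induction n with
  | zero =>
    intro t ht
    rw [sums, Finset.mem_singleton] at ht
    rw [ht]; simpa using h0
  | succ n ih =>
    intro t ht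
    rw [sums, Finset.mem_image] at ht
    obtain ⟨⟨t', s⟩, h1, rfl⟩ := ht
    rw [Finset.mem_product] at h1
    have := ih t' h1.1
    have := h s h1.2
    push_cast
    linarith

theorem sums_mass {t₀ : ℝ} {Δ : Finset ℝ} {a b : ℝ → ℝ≥0∞} {q : ℝ≥0∞} (hq : q ≤ ∑ s ∈ Δ, b s)
    (h : ∀ t, ∑ s ∈ Δ, b s * a (t - s) ≤ a t) (n : ℕ) :
    q ^ n * a t₀ ≤ ∑ t ∈ sums t₀ Δ n, a t := by
  induction n with
  | zero => simp [sums]
  | succ n ih =>
    calc q ^ (n + 1) * a t₀ = q * (q ^ n * a t₀) := by ring
      _ ≤ (∑ s ∈ Δ, b s) * ∑ t ∈ sums t₀ Δ n, a t := by gcongr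
      _ = ∑ s ∈ Δ, ∑ t ∈ sums t₀ Δ n, b s * a t := by rw [Finset.sum_mul_sum]
      _ ≤ ∑ s ∈ Δ, ∑ t ∈ sums t₀ Δ (n + 1), b s * a (t - s) := by
          apply Finset.sum_le_sum
          intro s hs
          have : ∑ t ∈ sums t₀ Δ n, b s * a t =
              ∑ t ∈ (sums t₀ Δ n).image (fun t => t + s), b s * a (t - s) := by
            rw [Finset.sum_image (fun x _ y _ hxy => by simpa using hxy)]
            simp
          rw [this]
          apply Finset.sum_le_sum_of_subset
          intro t ht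
          rw [Finset.mem_image] at ht
          obtain ⟨t', ht', rfl⟩ := ht
          rw [sums, Finset.mem_image]
          exact ⟨(t', s), Finset.mem_product.2 ⟨ht', hs⟩, rfl⟩
      _ = ∑ t ∈ sums t₀ Δ (n + 1), ∑ s ∈ Δ, b s * a (t - s) := Finset.sum_comm
      _ ≤ ∑ t ∈ sums t₀ Δ (n + 1), a t := Finset.sum_le_sum fun t _ => h t

/-- abstract renewal argument -/
theorem renewal_abs {V : Type*} (d : V → V → ℝ) (W K : V → V → ℝ≥0∞) (v : V) {ρ κ t₁ : ℝ}
    {C : ℝ≥0∞} (hC : C ≠ ⊤) (hρ : 0 < ρ) (hκ : 0 < κ)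
    (ha : ∀ x y, W x y = K x y + ∑' u, W x u * K u y)
    (hadd : ∀ x u y, W x u * K u y ≠ 0 → d x y = d x u + d u y)
    (hhom : ∀ x, ∃ e : V ≃ V, (∀ y, d x (e y) = d v y) ∧ ∀ y, K x (e y) = K v y)
    (hρd : ∀ x y, K x y ≠ 0 → ρ ≤ d x y)
    (hd0 : ∀ x y, 0 ≤ d x y)
    (hfin : ∀ R, ∑' y, (if d v y ≤ R then W v y else 0) ≠ ⊤)
    (hdec : ∀ t ≥ t₁, ∑' y, (if d v y = t then W v y else 0) ≤
      C * ENNReal.ofReal (exp (-κ * t)))
    (hinf : ∑' y, W v y = ⊤) : False := by
  -- the total mass of `K v` is at least one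
  have hom1 : ∀ x, ∑' y, K x y = ∑' y, K v y := by
    intro x
    obtain ⟨e, h1, h2⟩ := hhom x
    rw [← e.tsum_eq]
    exact tsum_congr h2
  have mass : 1 ≤ ∑' y, K v y := by
    by_contra hcon
    push Not at hcon
    set θ := ∑' y, K v y with hθ
    have hθt : θ ≠ ⊤ := hcon.ne_top
    have step : ∀ R, ∑' y, (if d v y ≤ R then W v y else 0) ≤
        θ + (∑' y, (if d v y ≤ R then W v y else 0)) * θ := by
      intro R
      calc ∑' y, (if d v y ≤ R then W v y else 0)
          ≤ ∑' y, (K v y + ∑' u, (if d v u ≤ R then W v u else 0) * K u y) := by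
            apply ENNReal.tsum_le_tsum
            intro y
            split_ifs with hy
            · rw [ha v y]
              refine add_le_add le_rfl (ENNReal.tsum_le_tsum fun u => ?_)
              split_ifs with hu
              · exact le_rfl
              · rw [zero_mul, nonpos_iff_eq_zero]
                by_contra hne
                have := hadd v u y hne
                have := hd0 u y
                linarith
            · exact zero_le
        _ = θ + ∑' y, ∑' u, (if d v u ≤ R then W v u else 0) * K u y := ENNReal.tsum_add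
        _ = θ + ∑' u, ∑' y, (if d v u ≤ R then W v u else 0) * K u y := by
            rw [ENNReal.tsum_comm]
        _ = θ + (∑' y, (if d v y ≤ R then W v y else 0)) * θ := by
            congr 1
            rw [← ENNReal.tsum_mul_right]
            apply tsum_congr
            intro u
            rw [ENNReal.tsum_mul_left, hom1 u]
    have bound : ∀ R, ∑' y, (if d v y ≤ R then W v y else 0) ≤
        ENNReal.ofReal (θ.toReal / (1 - θ.toReal)) := by
      intro R
      have hS := hfin R
      have st := step R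
      set S := ∑' y, (if d v y ≤ R then W v y else 0)
      have h1 : θ.toReal < 1 := by
        rw [← ENNReal.toReal_one]
        exact (ENNReal.toReal_lt_toReal hθt ENNReal.one_ne_top).2 hcon
      have h2 : S.toReal ≤ θ.toReal + S.toReal * θ.toReal := by
        have := ENNReal.toReal_mono (ENNReal.add_ne_top.2 ⟨hθt, ENNReal.mul_ne_top hS hθt⟩) st
        rwa [ENNReal.toReal_add hθt (ENNReal.mul_ne_top hS hθt), ENNReal.toReal_mul] at this
      rw [← ENNReal.ofReal_toReal hS]
      apply ENNReal.ofReal_le_ofReal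
      rw [le_div_iff₀ (by linarith)]
      linarith
    have : ∑' y, W v y ≤ ENNReal.ofReal (θ.toReal / (1 - θ.toReal)) := by
      rw [ENNReal.tsum_eq_iSup_sum]
      apply iSup_le
      intro s
      obtain ⟨R, hR⟩ : ∃ R, ∀ y ∈ s, d v y ≤ R := by
        rcases s.eq_empty_or_nonempty with rfl | hs
        · exact ⟨0, by simp⟩
        · exact ⟨s.sup' hs (d v), fun y hy => Finset.le_sup' (d v) hy⟩
      refine le_trans ?_ (bound R)
      calc ∑ y ∈ s, W v y = ∑ y ∈ s, (if d v y ≤ R then W v y else 0) :=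
            Finset.sum_congr rfl fun y hy => by rw [if_pos (hR y hy)]
        _ ≤ _ := ENNReal.sum_le_tsum s
    rw [hinf] at this
    exact absurd this (by simp)
  -- choice of a finite set
  set q₀ := exp (-κ * ρ) with hq₀
  have hq₀1 : q₀ < 1 := by
    rw [hq₀, exp_lt_one_iff]; nlinarith
  have hq₀0 : 0 < q₀ := exp_pos _
  obtain ⟨q, hqq, hq1⟩ := exists_between hq₀1
  have hq0 : 0 < q := hq₀0.trans hqq
  have : ENNReal.ofReal q < ∑' y, K v y := by
    refine lt_of_lt_of_le ?_ mass
    rw [← ENNReal.ofReal_one]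
    exact (ENNReal.ofReal_lt_ofReal_iff one_pos).2 hq1
  rw [ENNReal.tsum_eq_iSup_sum, lt_iSup_iff] at this
  obtain ⟨S, hS⟩ := this
  -- a point of positive weight
  obtain ⟨y₀, hy₀S, hy₀⟩ : ∃ y ∈ S, K v y ≠ 0 := by
    by_contra hcon
    push Not at hcon
    rw [Finset.sum_eq_zero hcon] at hS
    exact absurd hS (by simp)
  set S' := S.filter fun y => K v y ≠ 0 with hS'
  set Δ := S'.image (d v) with hΔ
  set a : ℝ → ℝ≥0∞ := fun t => ∑' y, (if d v y = t then W v y else 0) with hadef
  set b : ℝ → ℝ≥0∞ := fun t => ∑' y, (if d v y = t then K v y else 0) with hbdef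
  have hb1 : ENNReal.ofReal q ≤ ∑ s ∈ Δ, b s := by
    refine hS.le.trans ?_
    calc ∑ y ∈ S, K v y = ∑ y ∈ S', K v y := by
          rw [hS', Finset.sum_filter_ne_zero]
      _ = ∑ y ∈ S', ∑ s ∈ Δ, (if d v y = s then K v y else 0) := by
          apply Finset.sum_congr rfl
          intro y hy
          rw [Finset.sum_ite_eq, if_pos (Finset.mem_image_of_mem _ hy)]
      _ = ∑ s ∈ Δ, ∑ y ∈ S', (if d v y = s then K v y else 0) := Finset.sum_comm
      _ ≤ _ := Finset.sum_le_sum fun s _ => ENNReal.sum_le_tsum _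
  have hab : ∀ t, ∑ s ∈ Δ, b s * a (t - s) ≤ a t := by
    intro t
    have hu : ∀ u, ∀ s, ∑' y, (if d u y = s then K u y else 0) = b s := by
      intro u s
      obtain ⟨e, h1, h2⟩ := hhom u
      rw [← e.tsum_eq]
      exact tsum_congr fun y => by rw [h1, h2]
    calc ∑ s ∈ Δ, b s * a (t - s)
        = ∑ s ∈ Δ, ∑' u, (if d v u = t - s then W v u else 0) * b s := by
          apply Finset.sum_congr rfl
          intro s _
          rw [mul_comm, hadef, ENNReal.tsum_mul_right]
      _ = ∑' u, ∑ s ∈ Δ, (if d v u = t - s then W v u else 0) * b s := by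
          rw [Summable.tsum_finsetSum fun _ _ => ENNReal.summable]
      _ ≤ ∑' u, W v u * b (t - d v u) := by
          apply ENNReal.tsum_le_tsum
          intro u
          by_cases hmem : t - d v u ∈ Δ
          · rw [Finset.sum_eq_single (t - d v u)]
            · rw [if_pos (by ring)]
            · intro s _ hs
              rw [if_neg (fun h => hs (by rw [h]; ring)), zero_mul]
            · intro h; exact absurd hmem h
          · rw [Finset.sum_eq_zero]
            · exact zero_le
            · intro s hs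
              rw [if_neg (fun h => hmem (by rw [h]; simpa using hs)), zero_mul]
      _ = ∑' u, ∑' y, W v u * (if d u y = t - d v u then K u y else 0) := by
          apply tsum_congr
          intro u
          rw [ENNReal.tsum_mul_left, hu]
      _ = ∑' y, ∑' u, W v u * (if d u y = t - d v u then K u y else 0) := ENNReal.tsum_comm
      _ ≤ ∑' y, (if d v y = t then W v y else 0) := by
          apply ENNReal.tsum_le_tsum
          intro y
          split_ifs with hy
          · rw [ha v y]
            refine le_trans ?_ le_add_self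
            apply ENNReal.tsum_le_tsum
            intro u
            gcongr
            split_ifs
            · exact le_rfl
            · exact zero_le
          · rw [nonpos_iff_eq_zero, ENNReal.tsum_eq_zero]
            intro u
            by_contra hne
            split_ifs at hne with h1
            · have := hadd v u y hne
              apply hy
              rw [this, h1]; ring
            · simp at hne
  -- a value of `a` which is positive
  have ha0 : a (d v y₀) ≠ 0 := by
    intro h0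
    rw [hadef] at h0
    simp only [ENNReal.tsum_eq_zero] at h0
    have := h0 y₀
    rw [if_pos rfl, ha v y₀] at this
    exact hy₀ (add_eq_zero.1 this).1
  have ha1 : a (d v y₀) ≠ ⊤ := by
    refine ne_top_of_le_ne_top (hfin (d v y₀)) ?_
    apply ENNReal.tsum_le_tsum
    intro y
    split_ifs with h1 h2
    · exact le_rfl
    · exact absurd h1.le h2
    · exact zero_le
    · exact le_rfl
  have hΔρ : ∀ s ∈ Δ, ρ ≤ s := by
    intro s hs
    rw [hΔ, Finset.mem_image] at hs
    obtain ⟨y, hy, rfl⟩ := hs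
    rw [hS', Finset.mem_filter] at hy
    exact hρd v y hy.2
  -- the contradiction
  have main : ∀ᶠ n : ℕ in atTop, q ^ n * (a (d v y₀)).toReal ≤
      ((n:ℝ) + 1) ^ Δ.card * (C.toReal * q₀ ^ n) := by
    filter_upwards [eventually_ge_atTop ⌈t₁ / ρ⌉₊] with n hn
    have hn1 : t₁ ≤ n * ρ := by
      rw [← div_le_iff₀ hρ]
      exact (Nat.le_ceil _).trans (by exact_mod_cast hn)
    have h1 := sums_mass (t₀ := d v y₀) hb1 hab n
    have h2 : ∑ t ∈ sums (d v y₀) Δ n, a t ≤
        ∑ t ∈ sums (d v y₀) Δ n, C * ENNReal.ofReal (q₀ ^ n) := by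
      apply Finset.sum_le_sum
      intro t ht
      have ht' := sums_ge (hd0 _ _) hΔρ n t ht
      refine (hdec t (hn1.trans ht')).trans ?_
      gcongr
      rw [hq₀, ← exp_nat_mul]
      apply exp_le_exp.2
      nlinarith
    have h3 := h1.trans h2
    rw [Finset.sum_const, nsmul_eq_mul] at h3
    have h4 : ENNReal.ofReal q ^ n * a (d v y₀) ≤
        (((n:ℝ≥0∞) + 1) ^ Δ.card) * (C * ENNReal.ofReal (q₀ ^ n)) := by
      refine h3.trans ?_
      gcongr
      exact_mod_cast card_sums (d v y₀) Δ n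
    have h5 := ENNReal.toReal_mono (by
      apply ENNReal.mul_ne_top
      · exact ENNReal.pow_ne_top (by simp)
      · exact ENNReal.mul_ne_top hC ENNReal.ofReal_ne_top) h4
    rw [ENNReal.toReal_mul, ENNReal.toReal_mul, ENNReal.toReal_mul, ENNReal.toReal_pow,
      ENNReal.toReal_pow, ENNReal.toReal_ofReal hq0.le, ENNReal.toReal_ofReal (by positivity)] at h5
    have h6 : ((n:ℝ≥0∞) + 1).toReal = (n:ℝ) + 1 := by
      rw [ENNReal.toReal_add (by simp) (by simp)]; simp
    rwa [h6] at h5
  have hA : 0 < (a (d v y₀)).toReal := ENNReal.toReal_pos ha0 ha1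
  set r := q₀ / q with hr
  have hr0 : 0 < r := by positivity
  have hr1 : r < 1 := (div_lt_one hq0).2 hqq
  have main2 : ∀ᶠ n : ℕ in atTop, (a (d v y₀)).toReal ≤
      C.toReal * (2 ^ Δ.card * ((n:ℝ) ^ Δ.card * r ^ n)) := by
    filter_upwards [main, eventually_ge_atTop 1] with n hn hn1
    have h1 : (1:ℝ) ≤ n := by exact_mod_cast hn1
    have h2 : ((n:ℝ) + 1) ^ Δ.card ≤ 2 ^ Δ.card * (n:ℝ) ^ Δ.card := by
      rw [← mul_pow]
      apply pow_le_pow_left₀ (by positivity)
      linarith
    have h3 : q ^ n * (a (d v y₀)).toReal ≤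
        q ^ n * (C.toReal * (2 ^ Δ.card * ((n:ℝ) ^ Δ.card * r ^ n))) := by
      refine hn.trans ?_
      have e : q₀ ^ n = q ^ n * r ^ n := by
        rw [← mul_pow, hr, mul_div_cancel₀ _ hq0.ne']
      rw [e]
      have hc : 0 ≤ C.toReal := ENNReal.toReal_nonneg
      calc ((n:ℝ) + 1) ^ Δ.card * (C.toReal * (q ^ n * r ^ n))
          ≤ (2 ^ Δ.card * (n:ℝ) ^ Δ.card) * (C.toReal * (q ^ n * r ^ n)) := by gcongr
        _ = _ := by ring
    exact le_of_mul_le_mul_left h3 (by positivity)
  have lim : Tendsto (fun n : ℕ => C.toReal * (2 ^ Δ.card * ((n:ℝ) ^ Δ.card * r ^ n))) atTop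
      (𝓝 (C.toReal * (2 ^ Δ.card * 0))) :=
    ((tendsto_pow_const_mul_const_pow_of_abs_lt_one Δ.card
      (by rw [abs_of_pos hr0]; exact hr1)).const_mul _).const_mul _
  rw [mul_zero, mul_zero] at lim
  have := ge_of_tendsto lim main2
  linarith

end Pool.Agent.R192
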