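import Pool.Agent.R192.Defs

set_option autoImplicit false

open Set Filter Topology
open scoped NNReal

noncomputable section

namespace Pool.Agent.R192

open Real

variable {Y : Type*} [MetricSpace Y]

/-- `m` lies between `x` and `y` -/
def Btw (x m y : Y) : Prop := dist x m + dist m y = dist x y

theorem Btw.symm {x m y : Y} (h : Btw x m y) : Btw y m x := by
  unfold Btw at *
  rw [dist_comm y m, dist_comm m x, dist_comm y x, ← h]; ring

theorem btw_left (x y : Y) : Btw x x y := by simp [Btw]
theorem btw_right (x y : Y) : Btw x y y := by simp [Btw]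

theorem cosh_le_one {d : ℝ} (h : cosh d ≤ 1) : d = 0 := by
  by_contra hd
  exact absurd h (not_le.2 (one_lt_cosh.2 hd))

/-- uniqueness of the point at given distance on a geodesic -/
theorem IsCatNegOne.uniq (H : IsCatNegOne Y) {x m m' y : Y} (h : Btw x m y) (h' : Btw x m' y)
    (he : dist x m = dist x m') : m = m' := by
  unfold Btw at *
  rcases eq_or_ne x y with rfl | hxy
  · rw [dist_self] at h h'
    have h1 : dist x m = 0 := by linarith [dist_nonneg (x := x) (y := m), dist_nonneg (x := m) (y := x)]
    have h2 : dist x m' = 0 := by linarith [dist_nonneg (x := x) (y := m'), dist_nonneg (x := m') (y := x)]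
    rw [← dist_eq_zero.1 h1, ← dist_eq_zero.1 h2]
  · have hpos : 0 < sinh (dist x y) := sinh_pos_iff.2 (dist_pos.2 hxy)
    have hc := H.compare m' x y m h
    have e1 : dist m' y = dist m y := by linarith
    rw [dist_comm m' x, ← he, e1] at hc
    have e2 : sinh (dist x y) = sinh (dist x m) * cosh (dist m y) + cosh (dist x m) * sinh (dist m y) := by
      rw [← sinh_add, h]
    have : cosh (dist m' m) ≤ 1 := by
      by_contra hcon
      push Not at hcon
      nlinarith
    have := cosh_le_one this
    exact (dist_eq_zero.1 this).symm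

/-- betweenness is transitive -/
theorem IsCatNegOne.trans (H : IsCatNegOne Y) {x q m y : Y} (h : Btw x q m) (h' : Btw q m y)
    (hne : q ≠ m) : dist x y = dist x q + dist q m + dist m y := by
  unfold Btw at *
  set a := dist x q
  set b := dist q m
  set e := dist m y
  have hb : 0 < b := dist_pos.2 hne
  have hc := H.compare y x m q h
  rw [dist_comm y q, ← h', dist_comm y x, dist_comm y m, ← h] at hc
  have hsb : 0 < sinh b := sinh_pos_iff.2 hb
  have key : cosh (b + e) * sinh (a + b) - cosh e * sinh a = cosh (a + b + e) * sinh b := by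
    have e0 : cosh (a + b + e) = cosh (a + (b + e)) := by ring_nf
    rw [e0, cosh_add a (b + e), sinh_add a b, cosh_add b e, sinh_add b e]
    have := cosh_sq b
    linear_combination (cosh e * sinh a) * this
  have : cosh (a + b + e) ≤ cosh (dist x y) := by
    by_contra hcon
    push Not at hcon
    nlinarith
  rw [cosh_le_cosh, abs_of_nonneg dist_nonneg, abs_of_nonneg (by positivity)] at this
  apply le_antisymm _ this
  calc dist x y ≤ dist x q + dist q y := dist_triangle _ _ _
    _ = a + b + e := by rw [← h']; ring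

theorem IsCatNegOne.trans' (H : IsCatNegOne Y) {x q m y : Y} (h : Btw x q m) (h' : Btw q m y)
    (hne : q ≠ m) : Btw x m y ∧ Btw x q y := by
  have := H.trans h h' hne
  unfold Btw at *
  constructor <;> rw [this] <;> linarith

/-- the geodesic segment from `x` to `y` -/
def seg (H : IsCatNegOne Y) (x y : Y) : ℝ → Y := (H.geodesic x y).choose

section seg

variable (H : IsCatNegOne Y) (x y : Y)

theorem seg_zero : seg H x y 0 = x := (H.geodesic x y).choose_spec.1

theorem seg_end : seg H x y (dist x y) = y := (H.geodesic x y).choose_spec.2.1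

variable {x y}

theorem seg_dist {s t : ℝ} (hs : s ∈ Icc 0 (dist x y)) (ht : t ∈ Icc 0 (dist x y)) :
    dist (seg H x y s) (seg H x y t) = |s - t| := (H.geodesic x y).choose_spec.2.2 s hs t ht

theorem dist_left_seg {s : ℝ} (h0 : 0 ≤ s) (h1 : s ≤ dist x y) : dist x (seg H x y s) = s := by
  have := seg_dist H (x := x) (y := y) (s := 0) (t := s) ⟨le_rfl, dist_nonneg⟩ ⟨h0, h1⟩
  rw [seg_zero] at this
  rw [this, zero_sub, abs_neg, abs_of_nonneg h0]

theorem dist_seg_right {s : ℝ} (h0 : 0 ≤ s) (h1 : s ≤ dist x y) :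
    dist (seg H x y s) y = dist x y - s := by
  have := seg_dist H (x := x) (y := y) (s := s) (t := dist x y) ⟨h0, h1⟩ ⟨dist_nonneg, le_rfl⟩
  rw [seg_end] at this
  rw [this, abs_sub_comm, abs_of_nonneg (by linarith)]

theorem btw_seg {s : ℝ} (h0 : 0 ≤ s) (h1 : s ≤ dist x y) : Btw x (seg H x y s) y := by
  unfold Btw
  rw [dist_left_seg H h0 h1, dist_seg_right H h0 h1]; ring

theorem eq_seg {m : Y} (h : Btw x m y) : m = seg H x y (dist x m) := by
  have h0 : (0:ℝ) ≤ dist x m := dist_nonneg
  have h1 : dist x m ≤ dist x y := by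
    unfold Btw at h; linarith [dist_nonneg (x := m) (y := y)]
  exact H.uniq h (btw_seg H h0 h1) (dist_left_seg H h0 h1).symm

end seg

/-- comparison of two geodesics from the same point -/
theorem IsCatNegOne.cmp (H : IsCatNegOne Y) {v x y g g' : Y} {u : ℝ} (hg : Btw v g x)
    (hg' : Btw v g' y) (h1 : dist v g = u) (h2 : dist v g' = u) :
    cosh (dist g g') * sinh (dist v x) * sinh (dist v y) ≤
      cosh u * sinh (dist v x - u) * sinh (dist v y) +
        sinh u * (cosh (dist v x) * sinh (dist v y - u) + cosh (dist x y) * sinh u) := by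
  unfold Btw at *
  have c1 := H.compare g' v x g hg
  have c2 := H.compare x v y g' hg'
  have e1 : dist g x = dist v x - u := by linarith
  have e2 : dist g' y = dist v y - u := by linarith
  rw [dist_comm g' g, dist_comm g' v, h2, e1, h1] at c1
  rw [dist_comm x v, e2, h2, dist_comm x g'] at c2
  have s1 : 0 ≤ sinh (dist v y) := sinh_nonneg_iff.2 dist_nonneg
  have s2 : 0 ≤ sinh u := sinh_nonneg_iff.2 (h1 ▸ dist_nonneg)
  have := mul_le_mul_of_nonneg_right c1 s1
  have := mul_le_mul_of_nonneg_left c2 s2
  nlinarith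

theorem sinh_sub_le {a u : ℝ} (_ha : 0 < a) : sinh (a - u) ≤ exp (-u) * sinh a ∨ u < 0 := by
  rcases lt_or_ge u 0 with h | h
  · exact Or.inr h
  · left
    rw [sinh_sub, ← cosh_sub_sinh]
    have h1 : sinh a ≤ cosh a := (sinh_lt_cosh a).le
    have h2 : 0 ≤ sinh u := sinh_nonneg_iff.2 h
    nlinarith

/-- comparison, quantitative form -/
theorem IsCatNegOne.cmp2 (H : IsCatNegOne Y) {v x y g g' : Y} {u : ℝ} (hg : Btw v g x)
    (hg' : Btw v g' y) (h1 : dist v g = u) (h2 : dist v g' = u) (hx : 0 < dist v x)
    (hy : 0 < dist v y) :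
    cosh (dist g g') ≤ 1 + exp (-dist v x) / sinh (dist v x) +
      sinh u ^ 2 * cosh (dist x y) / (sinh (dist v x) * sinh (dist v y)) := by
  have hc := H.cmp hg hg' h1 h2
  set a := dist v x
  set b := dist v y
  set c := dist x y
  have hu : 0 ≤ u := h1 ▸ dist_nonneg
  have sa : 0 < sinh a := sinh_pos_iff.2 hx
  have sb : 0 < sinh b := sinh_pos_iff.2 hy
  have su : 0 ≤ sinh u := sinh_nonneg_iff.2 hu
  have k1 : sinh (a - u) ≤ exp (-u) * sinh a := (sinh_sub_le hx).resolve_right (not_lt.2 hu)
  have k2 : sinh (b - u) ≤ exp (-u) * sinh b := (sinh_sub_le hy).resolve_right (not_lt.2 hu)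
  have ca : 0 < cosh a := cosh_pos a
  have cu : 0 < cosh u := cosh_pos u
  have e1 : exp (-a) = cosh a - sinh a := (cosh_sub_sinh a).symm
  have e2 : exp (-u) * cosh u + exp (-u) * sinh u = 1 := by
    rw [← mul_add, cosh_add_sinh, ← exp_add]; simp
  have e3 : exp (-u) * sinh u ≤ 1 := by
    have : 0 ≤ exp (-u) * cosh u := by positivity
    linarith
  have key : cosh (dist g g') * (sinh a * sinh b) ≤
      (1 + exp (-a) / sinh a + sinh u ^ 2 * cosh c / (sinh a * sinh b)) * (sinh a * sinh b) := by
    have : (1 + exp (-a) / sinh a + sinh u ^ 2 * cosh c / (sinh a * sinh b)) * (sinh a * sinh b) =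
        sinh a * sinh b + exp (-a) * sinh b + sinh u ^ 2 * cosh c := by
      field_simp
    rw [this]
    have t1 : cosh u * sinh (a - u) * sinh b ≤ cosh u * (exp (-u) * sinh a) * sinh b := by gcongr
    have t2 : sinh u * (cosh a * sinh (b - u)) ≤ sinh u * (cosh a * (exp (-u) * sinh b)) := by gcongr
    have t3 : cosh u * (exp (-u) * sinh a) * sinh b + sinh u * (cosh a * (exp (-u) * sinh b)) ≤
        sinh a * sinh b + exp (-a) * sinh b := by
      have : cosh u * (exp (-u) * sinh a) * sinh b + sinh u * (cosh a * (exp (-u) * sinh b)) =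
        sinh a * sinh b * (exp (-u) * cosh u + exp (-u) * sinh u) +
          (cosh a - sinh a) * sinh b * (exp (-u) * sinh u) := by ring
      rw [this, e2, e1]
      have h5 : 0 ≤ (cosh a - sinh a) * sinh b := by
        have := sinh_lt_cosh a
        exact mul_nonneg (by linarith) sb.le
      nlinarith
    nlinarith
  exact le_of_mul_le_mul_right key (by positivity)

theorem dist_sq_le_cosh (d : ℝ) : d ^ 2 ≤ 2 * (cosh d - 1) := by
  have := cosh_sq d
  have h1 : cosh d = 2 * sinh (d / 2) ^ 2 + 1 := by
    have := cosh_two_mul (d / 2)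
    have h2 := cosh_sq (d / 2)
    rw [show 2 * (d / 2) = d by ring] at this
    linarith
  have h3 : |d / 2| ≤ |sinh (d / 2)| := by
    rw [abs_sinh]
    exact self_le_sinh_iff.2 (abs_nonneg _)
  have h4 := sq_le_sq.2 h3
  nlinarith

end Pool.Agent.R192
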