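import Pool.Agent.R192.Cat

set_option autoImplicit false

open Set Filter Topology
open scoped NNReal

noncomputable section

namespace Pool.Agent.R192

open Real

variable {Y : Type*} [MetricSpace Y]

theorem sinh_ge {a : ℝ} (ha : 1 ≤ a) : exp a / 4 ≤ sinh a := by
  rw [sinh_eq]
  have h1 : exp (-a) ≤ 1 := exp_le_one_iff.2 (by linarith)
  have h2 : a + 1 ≤ exp a := add_one_le_exp a
  linarith

theorem cosh_le_exp {c : ℝ} (hc : 0 ≤ c) : cosh c ≤ exp c := by
  rw [cosh_eq]
  have : exp (-c) ≤ exp c := exp_le_exp.2 (by linarith)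
  linarith

theorem sinh_le_exp {u : ℝ} : sinh u ≤ exp u / 2 := by
  rw [sinh_eq]
  have := exp_pos (-u)
  linarith

/-- comparison, exponential form -/
theorem IsCatNegOne.cmp3 (H : IsCatNegOne Y) {v x y g g' : Y} {u a b c : ℝ} (hg : Btw v g x)
    (hg' : Btw v g' y) (h1 : dist v g = u) (h2 : dist v g' = u) (hx : a ≤ dist v x)
    (hy : b ≤ dist v y) (ha : 1 ≤ a) (hb : 1 ≤ b) (hc : dist x y ≤ c) :
    dist g g' ^ 2 ≤ 8 * exp (-(2 * a)) + 8 * exp (2 * u + c - a - b) := by
  have hu : 0 ≤ u := h1 ▸ dist_nonneg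
  have h := H.cmp2 hg hg' h1 h2 (by linarith) (by linarith)
  have k1 := sinh_ge (ha.trans hx)
  have k2 := sinh_ge (hb.trans hy)
  have k3 := cosh_le_exp (dist_nonneg (x := x) (y := y))
  have k4 : sinh u ≤ exp u / 2 := sinh_le_exp
  have k5 : 0 ≤ sinh u := sinh_nonneg_iff.2 hu
  set A := dist v x
  set B := dist v y
  set D := dist x y
  have t1 : exp (-A) / sinh A ≤ 4 * exp (-(2 * a)) := by
    rw [div_le_iff₀ (by have := exp_pos A; linarith)]
    calc exp (-A) = 4 * exp (-(2 * A)) * (exp A / 4) := by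
          rw [show 4 * exp (-(2 * A)) * (exp A / 4) = exp (-(2 * A)) * exp A by ring, ← exp_add]
          ring_nf
      _ ≤ 4 * exp (-(2 * a)) * sinh A := by gcongr
  have t2 : sinh u ^ 2 * cosh D / (sinh A * sinh B) ≤ 4 * exp (2 * u + c - a - b) := by
    rw [div_le_iff₀ (by have := exp_pos A; have := exp_pos B; apply mul_pos <;> linarith)]
    calc sinh u ^ 2 * cosh D ≤ (exp u / 2) ^ 2 * exp c := by
          gcongr
          exact k3.trans (exp_le_exp.2 hc)
      _ = 4 * exp (2 * u + c - a - b) * ((exp a / 4) * (exp b / 4)) := by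
          rw [show 4 * exp (2 * u + c - a - b) * ((exp a / 4) * (exp b / 4)) =
            (exp (2 * u + c - a - b) * exp a * exp b) / 4 by ring, ← exp_add, ← exp_add,
            div_pow, ← exp_nat_mul, show (exp (((2:ℕ):ℝ) * u) / 2 ^ 2 * exp c) =
              (exp (((2:ℕ):ℝ) * u) * exp c) / 4 by ring, ← exp_add]
          congr 2
          push_cast; ring
      _ ≤ 4 * exp (2 * u + c - a - b) * (sinh A * sinh B) := by
          gcongr
          · exact le_trans (by gcongr) k1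
          · exact le_trans (by gcongr) k2
  have := dist_sq_le_cosh (dist g g')
  linarith

/-! ### rays -/

theorem ray_dist (r : Ray Y) (s t : ℝ≥0) : dist (r.1 s) (r.1 t) = |(s : ℝ) - t| := by
  rw [r.2.dist_eq, NNReal.dist_eq]

theorem ray_dist_le (r : Ray Y) {s t : ℝ≥0} (h : s ≤ t) : dist (r.1 s) (r.1 t) = (t : ℝ) - s := by
  have h' : (s:ℝ) ≤ t := by exact_mod_cast h
  rw [ray_dist, abs_sub_comm, abs_of_nonneg (by linarith)]

theorem Asymp.refl (r : Ray Y) : Asymp r r := ⟨0, fun t => by simp⟩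

theorem Asymp.symm {r r' : Ray Y} (h : Asymp r r') : Asymp r' r := by
  obtain ⟨C, hC⟩ := h
  exact ⟨C, fun t => by rw [dist_comm]; exact hC t⟩

theorem Asymp.trans {r r' r'' : Ray Y} (h : Asymp r r') (h' : Asymp r' r'') : Asymp r r'' := by
  obtain ⟨C, hC⟩ := h
  obtain ⟨D, hD⟩ := h'
  exact ⟨C + D, fun t => (dist_triangle _ _ _).trans (add_le_add (hC t) (hD t))⟩

theorem tendsto_exp_lin (A B : ℝ) : Tendsto (fun n : ℕ => A * exp (B - 2 * n)) atTop (𝓝 0) := by
  have h1 : Tendsto (fun n : ℕ => B - 2 * (n : ℝ)) atTop atBot := by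
    apply tendsto_atBot_add_const_left
    exact tendsto_neg_atTop_atBot.comp
      (tendsto_natCast_atTop_atTop.const_mul_atTop (by norm_num : (0:ℝ) < 2))
  have := (tendsto_exp_atBot.comp h1).const_mul A
  simpa using this

/-- rays from the same point which are asymptotic coincide -/
theorem IsCatNegOne.ray_uniq (H : IsCatNegOne Y) {r r' : Ray Y} (h0 : r.1 0 = r'.1 0)
    (h : Asymp r r') : r = r' := by
  obtain ⟨C, hC⟩ := h
  apply Subtype.ext
  funext t
  have key : ∀ᶠ n : ℕ in atTop, dist (r.1 t) (r'.1 t) ^ 2 ≤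
      8 * exp (0 - 2 * n) + 8 * exp ((2 * t + C) - 2 * n) := by
    filter_upwards [eventually_ge_atTop (⌈(t:ℝ)⌉₊ + 1)] with n hn
    have hn1 : (1:ℝ) ≤ n := by exact_mod_cast (by omega : 1 ≤ n)
    have hn2 : (t:ℝ) ≤ n := (Nat.le_ceil _).trans (by exact_mod_cast (by omega : ⌈(t:ℝ)⌉₊ ≤ n))
    have hn3 : t ≤ (n : ℝ≥0) := by exact_mod_cast hn2
    have d1 : ∀ q : Ray Y, dist (q.1 0) (q.1 t) = t := fun q => by
      rw [ray_dist_le q zero_le]; simp
    have d2 : ∀ q : Ray Y, dist (q.1 0) (q.1 (n:ℝ≥0)) = n := fun q => by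
      rw [ray_dist_le q zero_le]; simp
    have d3 : ∀ q : Ray Y, dist (q.1 t) (q.1 (n:ℝ≥0)) = n - t := fun q => by
      rw [ray_dist_le q hn3]; simp
    have := H.cmp3 (v := r.1 0) (x := r.1 (n:ℝ≥0)) (y := r'.1 (n:ℝ≥0)) (g := r.1 t)
      (g' := r'.1 t) (u := t) (a := n) (b := n) (c := C)
      (by unfold Btw; rw [d1, d2, d3]; ring) (by unfold Btw; rw [h0, d1, d2, d3]; ring) (d1 r)
      (by rw [h0]; exact d1 r') (d2 r).ge (by rw [h0]; exact (d2 r').ge) hn1 hn1 (hC _)
    refine this.trans (le_of_eq ?_)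
    congr 3 <;> ring
  have lim := (tendsto_exp_lin 8 0).add (tendsto_exp_lin 8 (2 * t + C))
  rw [add_zero] at lim
  have := ge_of_tendsto lim key
  have h2 : dist (r.1 t) (r'.1 t) ^ 2 = 0 := le_antisymm this (sq_nonneg _)
  exact dist_eq_zero.1 (pow_eq_zero_iff (two_ne_zero) |>.1 h2)

/-- existence of asymptotic rays -/
theorem IsCatNegOne.exists_ray [CompleteSpace Y] (H : IsCatNegOne Y) (v : Y) (r : Ray Y) :
    ∃ r' : Ray Y, r'.1 0 = v ∧ Asymp r r' ∧
      ∀ u : ℝ≥0, Tendsto (fun n : ℕ => seg H v (r.1 n) u) atTop (𝓝 (r'.1 u)) := by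
  set K := dist v (r.1 0) with hK
  have hK0 : 0 ≤ K := dist_nonneg
  have lo : ∀ t : ℝ≥0, (t:ℝ) - K ≤ dist v (r.1 t) := fun t => by
    have := dist_triangle (r.1 0) v (r.1 t)
    rw [ray_dist_le r zero_le, dist_comm (r.1 0) v] at this
    simp only [NNReal.coe_zero, sub_zero] at this
    linarith
  have hi : ∀ t : ℝ≥0, dist v (r.1 t) ≤ t + K := fun t => by
    have := dist_triangle v (r.1 0) (r.1 t)
    rw [ray_dist_le r zero_le] at this
    simp only [NNReal.coe_zero, sub_zero] at this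
    linarith
  have cau : ∀ u : ℝ≥0, CauchySeq (fun n : ℕ => seg H v (r.1 (n : ℝ≥0)) u) := by
    intro u
    set N0 := ⌈K + 1 + u⌉₊ with hN0
    have hN0' : K + 1 + u ≤ N0 := Nat.le_ceil _
    have : CauchySeq (fun k : ℕ => seg H v (r.1 ((k + N0 : ℕ) : ℝ≥0)) u) := by
      apply cauchySeq_of_le_tendsto_0' (fun k : ℕ => Real.sqrt (16 * exp ((2 * u + 2 * K) - 2 * k)))
      · intro n m hnm
        have hu : (0:ℝ) ≤ u := u.coe_nonneg
        have kk : ∀ k : ℕ, K + 1 + u ≤ ((k + N0 : ℕ) : ℝ) := fun k => by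
          push_cast
          have : (0:ℝ) ≤ k := Nat.cast_nonneg k
          linarith
        have l1 := lo ((n + N0 : ℕ) : ℝ≥0)
        have l2 := lo ((m + N0 : ℕ) : ℝ≥0)
        rw [NNReal.coe_natCast] at l1 l2
        have b1 := kk n
        have b2 := kk m
        have hd : dist (r.1 ((n + N0 : ℕ) : ℝ≥0)) (r.1 ((m + N0 : ℕ) : ℝ≥0)) = (m:ℝ) - n := by
          rw [ray_dist_le r (by exact_mod_cast (by omega : n + N0 ≤ m + N0))]
          push_cast; ring
        have := H.cmp3 (v := v) (x := r.1 ((n + N0 : ℕ) : ℝ≥0)) (y := r.1 ((m + N0 : ℕ) : ℝ≥0))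
          (g := seg H v (r.1 ((n + N0 : ℕ) : ℝ≥0)) u) (g' := seg H v (r.1 ((m + N0 : ℕ) : ℝ≥0)) u)
          (u := u) (a := ((n + N0 : ℕ) : ℝ) - K) (b := ((m + N0 : ℕ) : ℝ) - K) (c := (m:ℝ) - n)
          (btw_seg H hu (by linarith)) (btw_seg H hu (by linarith))
          (dist_left_seg H hu (by linarith)) (dist_left_seg H hu (by linarith)) l1 l2
          (by linarith) (by linarith) hd.le
        apply Real.le_sqrt_of_sq_le
        refine this.trans ?_
        have e1 : exp (-(2 * (((n + N0 : ℕ) : ℝ) - K))) ≤ exp ((2 * u + 2 * K) - 2 * n) := by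
          apply exp_le_exp.2
          push_cast
          have : (0:ℝ) ≤ N0 := Nat.cast_nonneg _
          linarith
        have e2 : exp (2 * u + ((m:ℝ) - n) - (((n + N0 : ℕ) : ℝ) - K) - (((m + N0 : ℕ) : ℝ) - K)) ≤
            exp ((2 * u + 2 * K) - 2 * n) := by
          apply exp_le_exp.2
          push_cast
          have : (0:ℝ) ≤ N0 := Nat.cast_nonneg _
          linarith
        linarith
      · have := (tendsto_exp_lin 16 (2 * u + 2 * K)).sqrt
        simpa using this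
    have h3 := (cauchySeq_shift (u := fun n : ℕ => seg H v (r.1 (n : ℝ≥0)) u) N0).1 this
    exact h3
  choose g hg using fun u => cauchySeq_tendsto_of_complete (cau u)
  have ev : ∀ u : ℝ≥0, ∀ᶠ n : ℕ in atTop, (u:ℝ) ≤ dist v (r.1 (n:ℝ≥0)) := fun u => by
    filter_upwards [eventually_ge_atTop ⌈K + u⌉₊] with n hn
    have h1 : K + u ≤ n := (Nat.le_ceil _).trans (by exact_mod_cast hn)
    have := lo (n : ℝ≥0)
    rw [NNReal.coe_natCast] at this
    linarith
  have iso : Isometry g := by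
    apply Isometry.of_dist_eq
    intro s t
    have h1 := (hg s).dist (hg t)
    refine tendsto_nhds_unique h1 ?_
    refine tendsto_const_nhds.congr' ?_
    filter_upwards [ev s, ev t] with n h2 h3
    rw [seg_dist H ⟨s.coe_nonneg, h2⟩ ⟨t.coe_nonneg, h3⟩, NNReal.dist_eq]
  have g0 : g 0 = v := by
    refine tendsto_nhds_unique (hg 0) ?_
    refine tendsto_const_nhds.congr fun n => ?_
    rw [NNReal.coe_zero, seg_zero]
  refine ⟨⟨g, iso⟩, g0, ?_, hg⟩
  refine ⟨max (3 * K) (Real.sqrt (8 + 8 * exp K) + K), fun u => ?_⟩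
  rcases lt_or_ge (u:ℝ) K with hu | hu
  · refine le_trans ?_ (le_max_left _ _)
    have t1 : dist (r.1 u) (g u) ≤ dist (r.1 u) (r.1 0) + dist (r.1 0) v + dist v (g u) := by
      have := dist_triangle (r.1 u) (r.1 0) (g u)
      have := dist_triangle (r.1 0) v (g u)
      linarith
    have t2 : dist (r.1 u) (r.1 0) = u := by
      rw [dist_comm, ray_dist_le r zero_le]; simp
    have t3 : dist v (g u) = u := by
      rw [← g0, iso.dist_eq, NNReal.dist_eq]; simp
    rw [t2, t3, dist_comm (r.1 0) v] at t1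
    linarith
  · refine le_trans ?_ (le_max_right _ _)
    have lim : Tendsto (fun n : ℕ => dist (r.1 u) (seg H v (r.1 (n:ℝ≥0)) u)) atTop
        (𝓝 (dist (r.1 u) (g u))) := tendsto_const_nhds.dist (hg u)
    refine le_of_tendsto lim ?_
    filter_upwards [eventually_ge_atTop (⌈K + u + 1⌉₊)] with n hn
    have h1 : K + u + 1 ≤ n := (Nat.le_ceil _).trans (by exact_mod_cast hn)
    have l1 := lo (n : ℝ≥0)
    have l2 := hi (n : ℝ≥0)
    rw [NNReal.coe_natCast] at l1 l2
    set a := dist v (r.1 (n : ℝ≥0)) with ha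
    -- the corresponding point on r
    have hp : 0 ≤ (u:ℝ) + n - a := by linarith
    set q : ℝ≥0 := ⟨(u:ℝ) + n - a, hp⟩ with hq
    have hqv : (q:ℝ) = u + n - a := rfl
    have hqn : q ≤ (n : ℝ≥0) := by
      rw [← NNReal.coe_le_coe, hqv, NNReal.coe_natCast]; linarith
    have d1 : dist (r.1 u) (r.1 q) ≤ K := by
      rw [ray_dist, hqv, abs_le]
      constructor <;> linarith
    have hw : dist (r.1 q) (r.1 (n:ℝ≥0)) = a - u := by
      rw [ray_dist_le r hqn, hqv, NNReal.coe_natCast]; ring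
    have hw0 : dist (r.1 0) (r.1 q) = q := by rw [ray_dist_le r zero_le]; simp
    have hwn : dist (r.1 0) (r.1 (n:ℝ≥0)) = n := by rw [ray_dist_le r zero_le]; simp
    have := H.cmp3 (v := r.1 (n:ℝ≥0)) (x := r.1 0) (y := v) (g := r.1 q)
      (g' := seg H v (r.1 (n:ℝ≥0)) u) (u := a - u) (a := n) (b := a) (c := K)
      (by unfold Btw; rw [dist_comm _ (r.1 q), dist_comm _ (r.1 0), dist_comm _ (r.1 0), hw, hw0,
            hwn, hqv]; ring)
      (btw_seg H u.coe_nonneg (by linarith)).symm (by rw [dist_comm, hw])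
      (by rw [dist_comm, dist_seg_right H u.coe_nonneg (by linarith)])
      (by rw [dist_comm, hwn]) (by rw [dist_comm]) (by linarith) (by linarith)
      (by rw [dist_comm])
    have d2 : dist (r.1 q) (seg H v (r.1 (n:ℝ≥0)) u) ≤ Real.sqrt (8 + 8 * exp K) := by
      apply Real.le_sqrt_of_sq_le
      refine this.trans ?_
      have e1 : exp (-(2 * (n:ℝ))) ≤ 1 := exp_le_one_iff.2 (by
        have : (0:ℝ) ≤ n := Nat.cast_nonneg _
        linarith)
      have e2 : exp (2 * (a - u) + K - n - a) ≤ exp K := exp_le_exp.2 (by linarith)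
      linarith
    have := dist_triangle (r.1 u) (r.1 q) (seg H v (r.1 (n:ℝ≥0)) u)
    linarith

theorem rayFrom_spec [CompleteSpace Y] (H : IsCatNegOne Y) (o : Y) (r : Ray Y) :
    (rayFrom o r).1 0 = o ∧ Asymp r (rayFrom o r) := by
  obtain ⟨r', h1, h2, -⟩ := H.exists_ray o r
  have h : ∃ r' : Ray Y, r'.1 0 = o ∧ Asymp r r' := ⟨r', h1, h2⟩
  unfold rayFrom
  rw [dif_pos h]
  exact h.choose_spec

theorem rayFrom_eq [CompleteSpace Y] (H : IsCatNegOne Y) {o : Y} {r r' : Ray Y} (h0 : r'.1 0 = o)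
    (h : Asymp r r') : rayFrom o r = r' := by
  obtain ⟨h1, h2⟩ := rayFrom_spec H o r
  exact H.ray_uniq (h1.trans h0.symm) (h2.symm.trans h)

theorem rayFrom_tendsto [CompleteSpace Y] (H : IsCatNegOne Y) (v : Y) (r : Ray Y) (u : ℝ≥0) :
    Tendsto (fun n : ℕ => seg H v (r.1 n) u) atTop (𝓝 ((rayFrom v r).1 u)) := by
  obtain ⟨r', h1, h2, h3⟩ := H.exists_ray v r
  rw [rayFrom_eq H h1 h2]
  exact h3 u

end Pool.Agent.R192
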