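import Pool.Agent.R192.Cat2

set_option autoImplicit false

open Set Filter Topology
open scoped NNReal

noncomputable section

namespace Pool.Agent.R192

open Real

variable {Y : Type*} [MetricSpace Y]


theorem LocGeod.continuous {c : ℝ → Y} (h : LocGeod c) : Continuous c := by
  rw [continuous_iff_continuousAt]
  intro t
  obtain ⟨ε, hε, he⟩ := h t
  rw [Metric.continuousAt_iff]
  intro δ hδ
  refine ⟨min ε δ, lt_min hε hδ, fun {s} hs => ?_⟩
  rw [Real.dist_eq] at hs
  rw [he s t (hs.trans_le (min_le_left _ _)) (by simpa using hε)]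
  exact hs.trans_le (min_le_right _ _)

theorem LocGeod.lip {c : ℝ → Y} (h : LocGeod c) {a b : ℝ} (hab : a ≤ b) :
    dist (c a) (c b) ≤ b - a := by
  have hc := h.continuous
  have hcl : IsClosed {t | dist (c a) (c t) ≤ t - a} :=
    isClosed_le (continuous_const.dist hc) (continuous_id.sub continuous_const)
  have := (hcl.inter isClosed_Icc).Icc_subset_of_forall_exists_gt (a := a) (b := b)
    (by simp) (fun x hx y hy => ?_)
  · exact this ⟨hab, le_rfl⟩
  · obtain ⟨hx1, hx2⟩ := hx
    obtain ⟨ε, hε, he⟩ := h x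
    have hy' : x < y := hy
    set e := min (ε / 2) (y - x) with hedef
    have he0 : 0 < e := lt_min (by linarith) (by linarith)
    refine ⟨x + e, ?_, by constructor <;> [linarith; linarith [min_le_right (ε / 2) (y - x)]]⟩
    have h1 : dist (c x) (c (x + e)) = e := by
      rw [he x (x + e) (by simpa using hε) (by
        rw [add_sub_cancel_left, abs_of_pos he0]
        linarith [min_le_left (ε / 2) (y - x)])]
      rw [abs_sub_comm, add_sub_cancel_left, abs_of_pos he0]
    have hx1' : dist (c a) (c x) ≤ x - a := hx1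
    have := dist_triangle (c a) (c x) (c (x + e))
    show dist (c a) (c (x + e)) ≤ x + e - a
    linarith

/-- in a CAT(-1) space local geodesics are geodesics -/
theorem IsCatNegOne.isometry_of_local (H : IsCatNegOne Y) {c : ℝ → Y} (h : LocGeod c) :
    Isometry c := by
  have key : ∀ a b : ℝ, a ≤ b → dist (c a) (c b) = b - a := by
    intro a b hab
    have hc := h.continuous
    have hcl : IsClosed {t | dist (c a) (c t) = t - a} :=
      isClosed_eq (continuous_const.dist hc) (continuous_id.sub continuous_const)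
    have := (hcl.inter isClosed_Icc).Icc_subset_of_forall_exists_gt (a := a) (b := b)
      (by simp) (fun x hx y hy => ?_)
    · exact this ⟨hab, le_rfl⟩
    · obtain ⟨hx1, hx2⟩ := hx
      have hx1' : dist (c a) (c x) = x - a := hx1
      obtain ⟨ε, hε, he⟩ := h x
      have hy' : x < y := hy
      set e := min (ε / 2) (y - x) with hedef
      have he0 : 0 < e := lt_min (by linarith) (by linarith)
      have he1 : e ≤ ε / 2 := min_le_left _ _
      have hxx : |x - x| < ε := by simpa using hε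
      have hxe : |x + e - x| < ε := by
        rw [add_sub_cancel_left, abs_of_pos he0]; linarith
      have h1 : dist (c x) (c (x + e)) = e := by
        rw [he x (x + e) hxx hxe, abs_sub_comm, add_sub_cancel_left, abs_of_pos he0]
      refine ⟨x + e, ?_, by constructor <;> [linarith; linarith [min_le_right (ε / 2) (y - x)]]⟩
      show dist (c a) (c (x + e)) = x + e - a
      rcases eq_or_lt_of_le hx2.1 with hax | hax
      · rw [hax, h1]; ring
      · set e' := min (ε / 2) (x - a) with hedef'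
        have he0' : 0 < e' := lt_min (by linarith) (by linarith)
        have he1' : e' ≤ ε / 2 := min_le_left _ _
        have he2' : e' ≤ x - a := min_le_right _ _
        have hxe' : |x - e' - x| < ε := by
          rw [show x - e' - x = -e' by ring, abs_neg, abs_of_pos he0']; linarith
        have h2 : dist (c (x - e')) (c x) = e' := by
          rw [he _ _ hxe' hxx, show x - e' - x = -e' by ring, abs_neg, abs_of_pos he0']
        have h3 : dist (c (x - e')) (c (x + e)) = e' + e := by
          rw [he _ _ hxe' hxe, show x - e' - (x + e) = -(e' + e) by ring, abs_neg,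
            abs_of_pos (by linarith)]
        have h4 : dist (c a) (c (x - e')) = x - e' - a := by
          apply le_antisymm (h.lip (by linarith))
          have := dist_triangle (c a) (c (x - e')) (c x)
          rw [h2, hx1'] at this
          linarith
        have := H.trans (x := c a) (q := c (x - e')) (m := c x) (y := c (x + e))
          (by unfold Btw; rw [h4, h2, hx1']; ring) (by unfold Btw; rw [h2, h1, h3])
          (by intro h0; rw [h0, dist_self] at h2; linarith)
        rw [this, h4, h2, h1]; ring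
  apply Isometry.of_dist_eq
  intro a b
  rcases le_total a b with hab | hab
  · rw [key a b hab, Real.dist_eq, abs_sub_comm, abs_of_nonneg (by linarith)]
  · rw [dist_comm, key b a hab, Real.dist_eq, abs_of_nonneg (by linarith)]

theorem line_dist (c : Line Y) (s t : ℝ) : dist (c.1 s) (c.1 t) = |s - t| := by
  rw [c.2.dist_eq, Real.dist_eq]

/-- shift of a line -/
def shiftL (s : ℝ) (c : Line Y) : Line Y :=
  ⟨fun t => c.1 (t + s), c.2.comp (Isometry.of_dist_eq fun a b => by
    rw [Real.dist_eq, Real.dist_eq]; congr 1; ring)⟩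

theorem IsCatNegOne.mem_line (H : IsCatNegOne Y) {c c' : Line Y} {C : ℝ}
    (hC : ∀ t, dist (c.1 t) (c'.1 t) ≤ C) : ∃ τ, c'.1 τ = c.1 0 := by
  have hC0 : 0 ≤ C := dist_nonneg.trans (hC 0)
  have hcl : IsClosed (c'.1 '' Icc (-C) C) := (isCompact_Icc.image c'.2.continuous).isClosed
  set b : ℕ → ℝ := fun n => dist (c.1 (-n)) (c'.1 n) with hb
  have hb1 : ∀ n : ℕ, 2 * (n:ℝ) - C ≤ b n := fun n => by
    have := dist_triangle (c.1 (-n)) (c'.1 n) (c.1 n)
    rw [line_dist, dist_comm (c'.1 n)] at this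
    have h2 := hC n
    have h3 : |(-(n:ℝ)) - n| = 2 * n := by
      rw [show (-(n:ℝ)) - n = -(2 * n) by ring, abs_neg, abs_of_nonneg (by positivity)]
    linarith
  have hb2 : ∀ n : ℕ, b n ≤ 2 * n + C := fun n => by
    have := dist_triangle (c.1 (-n)) (c.1 n) (c'.1 n)
    rw [line_dist] at this
    have h2 := hC n
    have h3 : |(-(n:ℝ)) - n| = 2 * n := by
      rw [show (-(n:ℝ)) - n = -(2 * n) by ring, abs_neg, abs_of_nonneg (by positivity)]
    linarith
  have lim : Tendsto (fun n : ℕ => c'.1 (2 * n - b n)) atTop (𝓝 (c.1 0)) := by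
    rw [tendsto_iff_dist_tendsto_zero]
    have t1 := ((tendsto_exp_lin 8 0).add (tendsto_exp_lin 8 (2 * C))).sqrt
    have t2 := ((tendsto_exp_lin 8 (2 * C)).add (tendsto_exp_lin 8 (4 * C))).sqrt
    have t3 := t1.add t2
    rw [add_zero, Real.sqrt_zero, add_zero] at t3
    refine squeeze_zero' (Eventually.of_forall fun n => dist_nonneg) ?_ t3
    filter_upwards [eventually_ge_atTop (⌈C⌉₊ + 1)] with n hn
    have hn0 : C + 1 ≤ n := by
      have := Nat.le_ceil C
      have h2 : ((⌈C⌉₊ + 1 : ℕ) : ℝ) ≤ n := by exact_mod_cast hn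
      push_cast at h2
      linarith
    have c1 := hb1 n
    have c2 := hb2 n
    set P := seg H (c.1 (-n)) (c'.1 n) n with hP
    have bb : b n = dist (c.1 (-n)) (c'.1 n) := rfl
    have e1 : dist (c.1 (-(n:ℝ))) (c.1 0) = n := by
      rw [line_dist, sub_zero, abs_neg, abs_of_nonneg (by positivity)]
    have e2 : dist (c.1 (-(n:ℝ))) (c.1 n) = 2 * n := by
      rw [line_dist, show (-(n:ℝ)) - n = -(2 * n) by ring, abs_neg, abs_of_nonneg (by positivity)]
    have e3 : dist (c.1 0) (c.1 n) = n := by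
      rw [line_dist, zero_sub, abs_neg, abs_of_nonneg (by positivity)]
    have k1 := H.cmp3 (v := c.1 (-n)) (x := c.1 n) (y := c'.1 n) (g := c.1 0) (g' := P) (u := n)
      (a := 2 * n) (b := 2 * n - C) (c := C) (by unfold Btw; rw [e1, e2, e3]; ring)
      (btw_seg H (by positivity) (by rw [← bb]; linarith)) e1
      (dist_left_seg H (by positivity) (by rw [← bb]; linarith)) e2.ge c1 (by linarith)
      (by linarith) (hC n)
    have f1 : dist (c'.1 (n:ℝ)) P = b n - n := by
      rw [dist_comm, dist_seg_right H (by positivity) (by rw [← bb]; linarith)]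
    have f2 : dist (c'.1 (n:ℝ)) (c'.1 (2 * n - b n)) = b n - n := by
      rw [line_dist, show (n:ℝ) - (2 * n - b n) = b n - n by ring, abs_of_nonneg (by linarith)]
    have f3 : dist (c'.1 (n:ℝ)) (c'.1 (-n)) = 2 * n := by
      rw [line_dist, show (n:ℝ) - -n = 2 * n by ring, abs_of_nonneg (by positivity)]
    have f4 : dist (c'.1 (2 * n - b n)) (c'.1 (-n)) = 3 * n - b n := by
      rw [line_dist, show 2 * (n:ℝ) - b n - -n = 3 * n - b n by ring, abs_of_nonneg (by linarith)]
    have k2 := H.cmp3 (v := c'.1 n) (x := c.1 (-n)) (y := c'.1 (-n)) (g := P)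
      (g' := c'.1 (2 * n - b n)) (u := b n - n) (a := 2 * n - C) (b := 2 * n) (c := C)
      (btw_seg H (by positivity) (by rw [← bb]; linarith)).symm
      (by unfold Btw; rw [f2, f3, f4]; ring) f1 f2 (by rw [dist_comm]; exact c1) f3.ge
      (by linarith) (by linarith) (hC _)
    have g1 : dist (c.1 0) P ≤ Real.sqrt (8 * exp (0 - 2 * n) + 8 * exp (2 * C - 2 * n)) := by
      apply Real.le_sqrt_of_sq_le
      refine k1.trans ?_
      have : exp (-(2 * (2 * (n:ℝ)))) ≤ exp (0 - 2 * n) := exp_le_exp.2 (by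
        have : (0:ℝ) ≤ n := Nat.cast_nonneg _
        linarith)
      have : exp (2 * (n:ℝ) + C - 2 * n - (2 * n - C)) ≤ exp (2 * C - 2 * n) :=
        exp_le_exp.2 (by linarith)
      linarith
    have g2 : dist P (c'.1 (2 * n - b n)) ≤
        Real.sqrt (8 * exp (2 * C - 2 * n) + 8 * exp (4 * C - 2 * n)) := by
      apply Real.le_sqrt_of_sq_le
      refine k2.trans ?_
      have : exp (-(2 * (2 * (n:ℝ) - C))) ≤ exp (2 * C - 2 * n) := exp_le_exp.2 (by
        have : (0:ℝ) ≤ n := Nat.cast_nonneg _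
        linarith)
      have : exp (2 * (b n - n) + C - (2 * n - C) - 2 * n) ≤ exp (4 * C - 2 * n) :=
        exp_le_exp.2 (by linarith)
      linarith
    have := dist_triangle (c.1 0) P (c'.1 (2 * n - b n))
    rw [dist_comm]
    linarith
  have hmem : c.1 0 ∈ c'.1 '' Icc (-C) C := by
    refine hcl.mem_of_tendsto lim (Eventually.of_forall fun n => ⟨_, ⟨?_, ?_⟩, rfl⟩)
    · have := hb2 n; linarith
    · have := hb1 n; linarith
  obtain ⟨τ, -, hτ⟩ := hmem
  exact ⟨τ, hτ⟩

theorem bdd_of_asymp {c c' : Line Y} (hf : Asymp (fwd c) (fwd c')) (hb : Asymp (bwd c) (bwd c')) :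
    ∃ C, ∀ t, dist (c.1 t) (c'.1 t) ≤ C := by
  obtain ⟨C, hC⟩ := hf
  obtain ⟨D, hD⟩ := hb
  refine ⟨max C D, fun t => ?_⟩
  rcases le_total 0 t with ht | ht
  · exact (hC ⟨t, ht⟩).trans (le_max_left _ _)
  · have h := hD ⟨-t, by linarith⟩
    have e : ∀ q : Line Y, (bwd q).1 (⟨-t, by linarith⟩ : ℝ≥0) = q.1 t := fun q => by
      show q.1 (-(-t)) = q.1 t
      rw [neg_neg]
    rw [e, e] at h
    exact h.trans (le_max_right _ _)

/-- uniqueness of lines with given end points -/
theorem IsCatNegOne.line_uniq (H : IsCatNegOne Y) {c c' : Line Y} (hf : Asymp (fwd c) (fwd c'))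
    (hb : Asymp (bwd c) (bwd c')) : ∃ s, ∀ t, c.1 t = c'.1 (t + s) := by
  obtain ⟨C, hC⟩ := bdd_of_asymp hf hb
  have ex : ∀ t, ∃ τ, c'.1 τ = c.1 t := by
    intro t
    have := H.mem_line (c := shiftL t c) (c' := shiftL t c') (C := C) (fun s => hC _)
    obtain ⟨τ, hτ⟩ := this
    refine ⟨τ + t, ?_⟩
    simpa [shiftL] using hτ
  choose f hf' using ex
  have hd : ∀ s t, |f s - f t| = |s - t| := fun s t => by
    rw [← line_dist c', hf', hf', line_dist]
  have hbd : ∀ t, |f t - t| ≤ C := fun t => by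
    rw [← line_dist c', hf']; exact hC t
  have hC0 : 0 ≤ C := dist_nonneg.trans (hC 0)
  refine ⟨f 0, fun t => ?_⟩
  suffices hft : f t = t + f 0 by rw [← hf' t, hft]
  -- compare with a large time
  set T := |t| + C + |f 0| + 1 with hT
  have h1 : f T = f 0 + T := by
    have h2 := hd T 0
    rw [sub_zero, abs_of_nonneg (a := T) (by positivity)] at h2
    rcases abs_cases (f T - f 0) with ⟨h3, -⟩ | ⟨h3, -⟩
    · linarith
    · have h4 : f T = f 0 - T := by linarith
      have h5 := hbd T
      rw [h4, abs_le] at h5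
      have := le_abs_self (f 0)
      have := abs_nonneg t
      have := abs_nonneg (f 0)
      linarith [h5.1]
  have h2 := hd t T
  have h3 := hd t 0
  rw [h1] at h2
  have hTt : t ≤ T := by
    have := le_abs_self t
    have := abs_nonneg (f 0)
    linarith
  rw [abs_sub_comm t T, abs_of_nonneg (a := T - t) (by linarith)] at h2
  rw [sub_zero] at h3
  rcases abs_cases (f t - (f 0 + T)) with ⟨h4, h5⟩ | ⟨h4, h5⟩
  · have h6 : f t - f 0 = 2 * T - t := by linarith
    rw [h6] at h3
    have := le_abs_self t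
    have := neg_abs_le t
    have := abs_nonneg (f 0)
    rw [abs_of_nonneg (by linarith)] at h3
    linarith
  · rw [h4] at h2
    linarith only [h2]

/-- projection to a line -/
theorem IsCatNegOne.proj (H : IsCatNegOne Y) {x : Y} {c : Line Y} {t₀ : ℝ}
    (hmin : ∀ t, dist x (c.1 t₀) ≤ dist x (c.1 t)) {s : ℝ} (hs : 0 < s) :
    cosh (dist x (c.1 t₀)) * cosh s ≤ cosh (dist x (c.1 (t₀ - s))) := by
  have key : ∀ᶠ ε in 𝓝[>] (0:ℝ), cosh (dist x (c.1 t₀)) * (cosh (s - ε / 2) / cosh (ε / 2)) ≤
      cosh (dist x (c.1 (t₀ - s))) := by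
    filter_upwards [Ioo_mem_nhdsGT hs] with ε hε
    have e1 : dist (c.1 t₀) (c.1 (t₀ - ε)) = ε := by
      rw [line_dist, sub_sub_cancel, abs_of_pos hε.1]
    have e2 : dist (c.1 (t₀ - ε)) (c.1 (t₀ - s)) = s - ε := by
      rw [line_dist, show t₀ - ε - (t₀ - s) = s - ε by ring, abs_of_pos (by linarith [hε.2])]
    have e3 : dist (c.1 t₀) (c.1 (t₀ - s)) = s := by
      rw [line_dist, sub_sub_cancel, abs_of_pos hs]
    have := H.compare x (c.1 t₀) (c.1 (t₀ - s)) (c.1 (t₀ - ε)) (by rw [e1, e2, e3]; ring)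
    rw [e1, e2, e3] at this
    have h1 : cosh (dist x (c.1 t₀)) ≤ cosh (dist x (c.1 (t₀ - ε))) := by
      rw [cosh_le_cosh, abs_of_nonneg dist_nonneg, abs_of_nonneg dist_nonneg]; exact hmin _
    have hss : 0 < sinh s := sinh_pos_iff.2 hs
    have h2 : cosh (dist x (c.1 t₀)) * (sinh s - sinh (s - ε)) ≤
        cosh (dist x (c.1 (t₀ - s))) * sinh ε := by nlinarith
    have hce : 0 < cosh (ε / 2) := cosh_pos _
    have hse : 0 < sinh (ε / 2) := sinh_pos_iff.2 (by linarith [hε.1])
    have h3 : sinh s - sinh (s - ε) = 2 * cosh (s - ε / 2) * sinh (ε / 2) := by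
      have a1 := sinh_add (s - ε / 2) (ε / 2)
      have a2 := sinh_sub (s - ε / 2) (ε / 2)
      rw [show s - ε / 2 + ε / 2 = s by ring] at a1
      rw [show s - ε / 2 - ε / 2 = s - ε by ring] at a2
      rw [a1, a2]; ring
    have h4 : sinh ε = 2 * sinh (ε / 2) * cosh (ε / 2) := by
      have := sinh_two_mul (ε / 2)
      rw [show 2 * (ε / 2) = ε by ring] at this
      exact this
    rw [h3, h4] at h2
    rw [← mul_div_assoc, div_le_iff₀ hce]
    nlinarith
  have lim : Tendsto (fun ε : ℝ => cosh (dist x (c.1 t₀)) * (cosh (s - ε / 2) / cosh (ε / 2)))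
      (𝓝[>] 0) (𝓝 (cosh (dist x (c.1 t₀)) * (cosh (s - 0 / 2) / cosh (0 / 2)))) := by
    apply Tendsto.mono_left _ nhdsWithin_le_nhds
    apply Continuous.tendsto
    have : ∀ ε : ℝ, cosh (ε / 2) ≠ 0 := fun ε => (cosh_pos _).ne'
    fun_prop (disch := assumption)
  have := le_of_tendsto lim key
  simpa using this

theorem exists_min (x : Y) (c : Line Y) : ∃ t₀, ∀ t, dist x (c.1 t₀) ≤ dist x (c.1 t) := by
  have hc : Continuous fun t => dist x (c.1 t) := continuous_const.dist c.2.continuous
  apply hc.exists_forall_le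
  have h1 : ∀ t, |t| - dist x (c.1 0) ≤ dist x (c.1 t) := fun t => by
    have := dist_triangle (c.1 t) x (c.1 0)
    rw [line_dist, sub_zero, dist_comm _ x] at this
    linarith
  refine tendsto_atTop_mono h1 ?_
  exact tendsto_atTop_add_const_right _ _ (tendsto_norm_cocompact_atTop (E := ℝ))

theorem exp_three : (16:ℝ) < exp 3 := by
  have h := exp_one_gt_d9
  have : exp 3 = exp 1 ^ 3 := by rw [← exp_nat_mul]; norm_num
  rw [this]
  nlinarith [h, sq_nonneg (exp 1)]

/-- the ray from `x` to `c (-∞)` passes close to `c 0` if the projection of `x` to the line is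
`c t₀`, `t₀ ≥ 0` -/
theorem IsCatNegOne.near_line [CompleteSpace Y] (H : IsCatNegOne Y) {x : Y} {c : Line Y} {t₀ : ℝ}
    (hmin : ∀ t, dist x (c.1 t₀) ≤ dist x (c.1 t)) (ht : 0 ≤ t₀) :
    ∃ u, dist (c.1 0) ((rayFrom x (bwd c)).1 u) ≤ 3 := by
  set α : ℝ≥0 := ⟨dist x (c.1 0), dist_nonneg⟩ with hα
  have hαv : (α:ℝ) = dist x (c.1 0) := rfl
  refine ⟨α, ?_⟩
  have lim := rayFrom_tendsto H x (bwd c) α
  have lim2 : Tendsto (fun n : ℕ => dist (c.1 0) (seg H x ((bwd c).1 (n:ℝ≥0)) α)) atTop
      (𝓝 (dist (c.1 0) ((rayFrom x (bwd c)).1 α))) := tendsto_const_nhds.dist lim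
  refine le_of_tendsto lim2 ?_
  filter_upwards [eventually_ge_atTop (⌈2 * dist x (c.1 0)⌉₊ + 1)] with n hn
  have hn0 : 2 * dist x (c.1 0) + 1 ≤ n := by
    have := Nat.le_ceil (2 * dist x (c.1 0))
    have h2 : ((⌈2 * dist x (c.1 0)⌉₊ + 1 : ℕ) : ℝ) ≤ n := by exact_mod_cast hn
    push_cast at h2
    linarith
  have hd0 : 0 ≤ dist x (c.1 0) := dist_nonneg
  have hy : (bwd c).1 (n:ℝ≥0) = c.1 (-n) := by simp [bwd]
  rw [hy, hαv]
  set D := dist x (c.1 (-n)) with hD
  set a := dist x (c.1 t₀) with ha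
  have dz : dist (c.1 0) (c.1 (-(n:ℝ))) = n := by
    rw [line_dist, zero_sub, neg_neg, abs_of_nonneg (by positivity)]
  have hDn : n - dist x (c.1 0) ≤ D := by
    have := dist_triangle (c.1 0) x (c.1 (-n))
    rw [dz, dist_comm _ x] at this
    linarith
  have p := H.proj hmin (s := t₀ + n) (by
    have : (0:ℝ) < n := by linarith
    linarith)
  rw [show t₀ - (t₀ + n) = -(n:ℝ) by ring] at p
  have hαle : dist x (c.1 0) ≤ a + t₀ := by
    have := dist_triangle x (c.1 t₀) (c.1 0)
    rw [line_dist, sub_zero, abs_of_nonneg ht] at this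
    exact this
  have q1 : exp (a + (t₀ + n)) / 4 ≤ exp D := by
    have h1 : exp a / 2 ≤ cosh a := by rw [cosh_eq]; have := exp_pos (-a); linarith
    have h2 : exp (t₀ + n) / 2 ≤ cosh (t₀ + n) := by
      rw [cosh_eq]; have := exp_pos (-(t₀ + n)); linarith
    have h3 := cosh_le_exp (dist_nonneg (x := x) (y := c.1 (-n)))
    have h4 : exp a / 2 * (exp (t₀ + n) / 2) ≤ cosh a * cosh (t₀ + n) := by
      gcongr
    rw [exp_add]
    linarith
  have hs0 : (0:ℝ) ≤ dist x (c.1 0) := dist_nonneg
  have hs1 : dist x (c.1 0) ≤ D := by linarith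
  have hq := btw_seg H hs0 hs1
  have dq := dist_left_seg H hs0 hs1
  have dq2 := dist_seg_right H hs0 hs1
  set q := seg H x (c.1 (-n)) (dist x (c.1 0)) with hqdef
  have cmp := H.compare (c.1 0) x (c.1 (-n)) q hq
  rw [dq, dq2, dz, dist_comm (c.1 0) x, ← hD] at cmp
  set A := dist x (c.1 0) with hA
  have hn' : (0:ℝ) ≤ n := by positivity
  have m1 : sinh (D - A) ≤ sinh n := sinh_le_sinh.2 (by
    have := dist_triangle x (c.1 0) (c.1 (-n))
    rw [dz] at this
    linarith)
  have m2 : cosh A * sinh (D - A) + cosh n * sinh A ≤ sinh (A + n) := by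
    rw [sinh_add]
    have := cosh_pos A
    nlinarith
  have m3 : sinh (A + n) ≤ exp (A + n) / 2 := sinh_le_exp
  have m4 : exp (A + n) ≤ exp (a + (t₀ + n)) := exp_le_exp.2 (by linarith)
  have m5 : exp D / 4 ≤ sinh D := sinh_ge (by linarith)
  have m6 : cosh (dist (c.1 0) q) ≤ 8 := by
    by_contra hcon
    push Not at hcon
    have : 8 * (exp D / 4) < cosh (dist (c.1 0) q) * sinh D := by
      have h0 := exp_pos D
      calc 8 * (exp D / 4) < cosh (dist (c.1 0) q) * (exp D / 4) := by
            apply mul_lt_mul_of_pos_right hcon; positivity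
        _ ≤ _ := by gcongr
    linarith
  by_contra hcon
  push Not at hcon
  have h7 : cosh 3 < cosh (dist (c.1 0) q) := by
    rw [cosh_lt_cosh, abs_of_pos (by norm_num), abs_of_nonneg dist_nonneg]; exact hcon
  have h8 : 8 < cosh 3 := by
    rw [cosh_eq]
    have := exp_three
    have := exp_pos (-3)
    linarith
  linarith

end Pool.Agent.R192
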