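import Pool.Agent.R192.Cat3

set_option autoImplicit false

open Set Filter Topology MeasureTheory
open scoped NNReal ENNReal

noncomputable section

namespace Pool.Agent.R192

open Real

/-- the local picture: `pr : Y → X` is the universal covering, `p` a point of `X`, `Fm`, `Fp` are bump
functions near points at distance `4 w` of `p`, and every path from the support of `Fm` to the support
of `Fp` passes through `p`. -/
structure Core (Γ : Type*) {Y X : Type*} [Group Γ] [MetricSpace Y] [MetricSpace X]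
    [MulAction Γ Y] [IsIsometricSMul Γ Y] (pr : Y → X) (p : X) (w ℓ : ℝ) (Fm Fp : X → ℝ) :
    Prop where
  cat : IsCatNegOne Y
  w_pos : 0 < w
  w_le : 6 * w ≤ 1
  loc : ∀ z x y : Y, dist z x < 40 * w → dist z y < 40 * w → dist (pr x) (pr y) = dist x y
  surj : Function.Surjective pr
  dist_eq : ∀ x y : Y, IsLeast (range fun γ : Γ => dist x (γ • y)) (dist (pr x) (pr y))
  lift : ∀ c : ℝ → X, LocGeod c → ∀ x, pr x = c 0 →
    ∃ l : Line Y, l.1 0 = x ∧ ∀ t, pr (l.1 t) = c t
  ell_nonneg : 0 ≤ ℓ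
  Fm_nonneg : ∀ x, 0 ≤ Fm x
  Fp_nonneg : ∀ x, 0 ≤ Fp x
  Fm_le : ∀ x, Fm x ≤ 1
  Fp_le : ∀ x, Fp x ≤ 1
  Fm_lip : ∀ x y, |Fm x - Fm y| ≤ ℓ * dist x y
  Fp_lip : ∀ x y, |Fp x - Fp y| ≤ ℓ * dist x y
  Fm_supp : ∀ x, Fm x ≠ 0 → 3 * w < dist x p ∧ dist x p < 5 * w
  Fp_supp : ∀ x, Fp x ≠ 0 → 3 * w < dist x p ∧ dist x p < 5 * w
  add : ∀ x y, Fm x ≠ 0 → Fp y ≠ 0 → dist x y = dist x p + dist p y
  extm : ∃ c : ℝ → X, LocGeod c ∧ c 0 = p ∧ 0 < Fm (c (4 * w))
  extp : ∃ c : ℝ → X, LocGeod c ∧ c 0 = p ∧ 0 < Fp (c (4 * w))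

/-- integral of `F` along the initial piece of `g` -/
def wt {X : Type*} (w : ℝ) (F : X → ℝ) (g : ℝ → X) : ℝ := ∫ u in (0:ℝ)..(6 * w), F (g u)

/-- passage time through `p` -/
def tm {X : Type*} [MetricSpace X] (w : ℝ) (p : X) (g : ℝ → X) : ℝ :=
  (∫ s in (3 * w)..(4 * w), (s - dist (g s) p)) / w

/-- the tent function -/
def tent (ε T : ℝ) : ℝ := max 0 (1 - |T| / ε)

/-- the observable -/
def obs {X : Type*} [MetricSpace X] (w : ℝ) (p : X) (Fm Fp : X → ℝ) (ε : ℝ) (g : ℝ → X) : ℝ :=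
  tent ε (tm w p g) * wt w Fm (fun u => g (-u)) * wt w Fp g

section

variable {Y : Type*} [MetricSpace Y]

theorem Btw.left {x m u y : Y} (h : Btw x m u) (h' : Btw x u y) : Btw x m y := by
  unfold Btw at *
  have := dist_triangle m u y
  have := dist_triangle x m y
  linarith

theorem Btw.mid {x m u y : Y} (h : Btw x m u) (h' : Btw x u y) : Btw m u y := by
  unfold Btw at *
  have := dist_triangle m u y
  have := dist_triangle x m y
  linarith

theorem tent_nonneg (ε T : ℝ) : 0 ≤ tent ε T := le_max_left _ _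

theorem tent_le {ε : ℝ} (hε : 0 < ε) (T : ℝ) : tent ε T ≤ 1 :=
  max_le zero_le_one (by
    have : 0 ≤ |T| / ε := by positivity
    linarith)

theorem tent_ne {ε T : ℝ} (hε : 0 < ε) (h : tent ε T ≠ 0) : |T| < ε := by
  by_contra hcon
  push Not at hcon
  apply h
  have : 1 ≤ |T| / ε := (one_le_div hε).2 hcon
  exact max_eq_left (by linarith)

theorem tent_neg (ε T : ℝ) : tent ε (-T) = tent ε T := by unfold tent; rw [abs_neg]

theorem wt_nonneg {X : Type*} {w : ℝ} (hw : 0 ≤ w) {F : X → ℝ} (hF : ∀ x, 0 ≤ F x) (g : ℝ → X) :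
    0 ≤ wt w F g :=
  intervalIntegral.integral_nonneg (by positivity) fun _ _ => hF _

theorem wt_ne {X : Type*} {w : ℝ} (hw : 0 ≤ w) {F : X → ℝ} {g : ℝ → X} (h : wt w F g ≠ 0) :
    ∃ u, 0 ≤ u ∧ u ≤ 6 * w ∧ F (g u) ≠ 0 := by
  by_contra hcon
  push Not at hcon
  apply h
  unfold wt
  rw [intervalIntegral.integral_congr (g := fun _ => (0:ℝ)), intervalIntegral.integral_zero]
  intro u hu
  rw [uIcc_of_le (by positivity)] at hu
  exact hcon u hu.1 hu.2

theorem wt_congr {X : Type*} {w : ℝ} (hw : 0 ≤ w) {F : X → ℝ} {g g' : ℝ → X}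
    (h : ∀ u, 0 ≤ u → u ≤ 6 * w → F (g u) = F (g' u)) : wt w F g = wt w F g' := by
  apply intervalIntegral.integral_congr
  intro u hu
  rw [uIcc_of_le (by positivity)] at hu
  exact h u hu.1 hu.2

theorem wt_le_one {X : Type*} {w : ℝ} (hw : 0 ≤ w) (hw' : 6 * w ≤ 1) {F : X → ℝ}
    (hF0 : ∀ x, 0 ≤ F x) (hF : ∀ x, F x ≤ 1) (g : ℝ → X) : wt w F g ≤ 1 := by
  have h := intervalIntegral.norm_integral_le_of_norm_le_const (a := 0) (b := 6 * w) (C := 1)
    (f := fun u => F (g u)) (fun u _ => by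
      rw [Real.norm_eq_abs, abs_of_nonneg (hF0 _)]; exact hF _)
  rw [Real.norm_eq_abs, one_mul, sub_zero, abs_of_nonneg (by positivity : 0 ≤ 6 * w)] at h
  exact (le_abs_self _).trans (h.trans hw')

/-- shifting the window -/
theorem integral_window {w T : ℝ} (hT : |T| ≤ w) {g : ℝ → ℝ} (hc : Continuous g)
    (h : ∀ s, g s ≠ 0 → |s| ≤ 7 * w → 3 * w < |s - T| ∧ |s - T| < 5 * w) :
    ∫ u in (0:ℝ)..(6 * w), g (T + u) = ∫ s in (0:ℝ)..(6 * w), g s := by
  have hw : 0 ≤ w := (abs_nonneg T).trans hT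
  obtain ⟨hT1, hT2⟩ := abs_le.1 hT
  rw [intervalIntegral.integral_comp_add_left (fun s => g s) T]
  have hi : ∀ a b, IntervalIntegrable g volume a b := fun a b => hc.intervalIntegrable a b
  have e1 : ∫ s in (T + 0)..(T + 6 * w), g s = (∫ s in T..0, g s) + (∫ s in (0:ℝ)..(6 * w), g s) +
      ∫ s in (6 * w)..(T + 6 * w), g s := by
    rw [intervalIntegral.integral_add_adjacent_intervals (hi _ _) (hi _ _),
      intervalIntegral.integral_add_adjacent_intervals (hi _ _) (hi _ _), add_zero]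
  have z1 : ∫ s in T..0, g s = 0 := by
    rw [intervalIntegral.integral_congr (g := fun _ => (0:ℝ)), intervalIntegral.integral_zero]
    intro s hs
    by_contra hcon
    have hs' : |s| ≤ w ∧ |s - T| ≤ w := by
      rcases le_total T 0 with h0 | h0
      · rw [uIcc_of_le h0] at hs
        constructor <;> rw [abs_le] <;> constructor <;> linarith [hs.1, hs.2]
      · rw [uIcc_of_ge h0] at hs
        constructor <;> rw [abs_le] <;> constructor <;> linarith [hs.1, hs.2]
    have := (h s hcon (by linarith [hs'.1])).1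
    linarith [hs'.2]
  have z2 : ∫ s in (6 * w)..(T + 6 * w), g s = 0 := by
    rw [intervalIntegral.integral_congr (g := fun _ => (0:ℝ)), intervalIntegral.integral_zero]
    intro s hs
    by_contra hcon
    have hs' : 5 * w ≤ s - T ∧ s ≤ 7 * w ∧ 0 ≤ s := by
      rcases le_total (6 * w) (T + 6 * w) with h0 | h0
      · rw [uIcc_of_le h0] at hs
        refine ⟨?_, ?_, ?_⟩ <;> linarith [hs.1, hs.2]
      · rw [uIcc_of_ge h0] at hs
        refine ⟨?_, ?_, ?_⟩ <;> linarith [hs.1, hs.2]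
    have := (h s hcon (by rw [abs_of_nonneg hs'.2.2]; linarith [hs'.2.1])).2
    have h3 := le_abs_self (s - T)
    linarith [hs'.1]
  rw [e1, z1, z2]; ring

end

namespace Core

variable {Γ Y X : Type*} [Group Γ] [MetricSpace Y] [MetricSpace X] [MulAction Γ Y]
  [IsIsometricSMul Γ Y] {pr : Y → X} {p : X} {w ℓ : ℝ} {Fm Fp : X → ℝ}

theorem symm (C : Core Γ pr p w ℓ Fm Fp) : Core Γ pr p w ℓ Fp Fm where
  cat := C.cat
  w_pos := C.w_pos
  w_le := C.w_le
  loc := C.loc
  surj := C.surj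
  dist_eq := C.dist_eq
  lift := C.lift
  ell_nonneg := C.ell_nonneg
  Fm_nonneg := C.Fp_nonneg
  Fp_nonneg := C.Fm_nonneg
  Fm_le := C.Fp_le
  Fp_le := C.Fm_le
  Fm_lip := C.Fp_lip
  Fp_lip := C.Fm_lip
  Fm_supp := C.Fp_supp
  Fp_supp := C.Fm_supp
  add := fun x y hx hy => by
    rw [dist_comm, C.add y x hy hx, dist_comm y p, dist_comm p x, add_comm]
  extm := C.extp
  extp := C.extm

variable (C : Core Γ pr p w ℓ Fm Fp)

include C

theorem pi_smul (γ : Γ) (x : Y) : pr (γ • x) = pr x := by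
  have h := (C.dist_eq (γ • x) x).2 ⟨γ, rfl⟩
  simp only [dist_self] at h
  exact dist_eq_zero.1 (le_antisymm h dist_nonneg)

theorem orbit {x y : Y} (h : pr x = pr y) : ∃ γ : Γ, γ • x = y := by
  obtain ⟨γ, hγ⟩ := (C.dist_eq y x).1
  refine ⟨γ, ?_⟩
  simp only [h, dist_self] at hγ
  exact (dist_eq_zero.1 hγ).symm

theorem pi_lip (x y : Y) : dist (pr x) (pr y) ≤ dist x y := by
  have := (C.dist_eq x y).2 ⟨1, rfl⟩
  simpa using this

theorem pi_cont : Continuous pr :=
  (LipschitzWith.of_dist_le_mul (K := 1) fun x y => by simpa using C.pi_lip x y).continuous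

theorem Fm_cont : Continuous Fm :=
  (LipschitzWith.of_dist_le_mul (K := ⟨ℓ, C.ell_nonneg⟩) fun x y => by
    rw [Real.dist_eq]; exact C.Fm_lip x y).continuous

theorem Fp_cont : Continuous Fp := C.symm.Fm_cont

theorem fiber_eq {x y : Y} (h : pr x = pr y) (hd : dist x y < 40 * w) : x = y := by
  have h1 : (0:ℝ) < 40 * w := by have := C.w_pos; positivity
  have := C.loc x x y (by simpa using h1) hd
  rw [h, dist_self] at this
  exact dist_eq_zero.1 this.symm

theorem fiber_sep {x y : Y} (h : pr x = pr y) (hne : x ≠ y) : 40 * w ≤ dist x y := by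
  by_contra hcon
  exact hne (C.fiber_eq h (not_le.1 hcon))

theorem exists_near (x : Y) (q : X) : ∃ v, pr v = q ∧ dist x v = dist (pr x) q := by
  obtain ⟨q', rfl⟩ := C.surj q
  obtain ⟨γ, hγ⟩ := (C.dist_eq x q').1
  exact ⟨γ • q', C.pi_smul γ q', hγ⟩

theorem locGeod_down (l : Line Y) : LocGeod (fun t => pr (l.1 t)) := by
  intro t
  have := C.w_pos
  refine ⟨40 * w, by positivity, fun s s' hs hs' => ?_⟩
  have e : ∀ s, dist (l.1 t) (l.1 s) = |s - t| := fun s => by rw [line_dist, abs_sub_comm]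
  show dist (pr (l.1 s)) (pr (l.1 s')) = _
  rw [C.loc (l.1 t) (l.1 s) (l.1 s') (by rwa [e]) (by rwa [e]), line_dist]

/-- the image of a line in `GX` -/
def down (l : Line Y) : GX X := ⟨fun t => pr (l.1 t), C.locGeod_down l⟩

/-- the concatenation of two geodesics through `v ∈ pr⁻¹ p`, of the right type, is a geodesic -/
theorem glue {x a v b y : Y} (hv : pr v = p) (h1 : Btw x a v) (h2 : Btw v b y) (ha : Fm (pr a) ≠ 0)
    (hb : Fp (pr b) ≠ 0) (hda : dist v a < 40 * w) (hdb : dist v b < 40 * w) : Btw x v y := by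
  have hw := C.w_pos
  have hvv : dist v v < 40 * w := by rw [dist_self]; positivity
  have e1 : dist (pr a) (pr b) = dist a b := C.loc v a b hda hdb
  have e2 : dist (pr a) (pr v) = dist a v := C.loc v a v hda hvv
  have e3 : dist (pr v) (pr b) = dist v b := C.loc v v b hvv hdb
  rw [hv] at e2 e3
  have hab := C.add _ _ ha hb
  rw [e1, e2, e3] at hab
  have s1 := (C.Fm_supp _ ha).1
  have s2 := (C.Fp_supp _ hb).1
  rw [e2] at s1
  rw [dist_comm, e3] at s2
  have nav : a ≠ v := fun h => by rw [h, dist_self] at s1; linarith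
  have nvb : v ≠ b := fun h => by rw [h, dist_self] at s2; linarith
  have t1 := C.cat.trans h1 hab.symm nav
  have hb1 : Btw x v b := by unfold Btw at *; linarith
  have t2 := C.cat.trans hb1 h2 nvb
  unfold Btw at *; linarith

/-- the passage time of a line through `pr⁻¹ p` -/
theorem tm_at (l : Line Y) {T : ℝ} (hT : |T| < 3 * w) (hv : pr (l.1 T) = p) :
    tm w p (fun u => pr (l.1 u)) = T := by
  have hw := C.w_pos
  obtain ⟨hT4, hT3⟩ := abs_lt.1 hT
  unfold tm
  rw [intervalIntegral.integral_congr (g := fun _ => T), intervalIntegral.integral_const,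
    smul_eq_mul]
  · field_simp; ring
  · intro u hu
    rw [uIcc_of_le (by linarith)] at hu
    have g0 : dist (l.1 T) (l.1 T) < 40 * w := by rw [dist_self]; positivity
    have g1 : dist (l.1 T) (l.1 u) = u - T := by
      rw [line_dist, abs_sub_comm, abs_of_nonneg (by linarith [hu.1])]
    have g2 := C.loc (l.1 T) (l.1 u) (l.1 T) (by rw [g1]; linarith [hu.2]) g0
    rw [hv, dist_comm (l.1 u), g1] at g2
    show u - dist (pr (l.1 u)) p = T
    rw [g2]; ring

/-- if both weights of a line are nonzero, it passes through `pr⁻¹ p` -/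
theorem passes (l : Line Y) (h1 : wt w Fm (fun u => pr (l.1 (-u))) ≠ 0)
    (h2 : wt w Fp (fun u => pr (l.1 u)) ≠ 0) :
    ∃ T, |T| < 3 * w ∧ pr (l.1 T) = p ∧ tm w p (fun u => pr (l.1 u)) = T := by
  have hw := C.w_pos
  obtain ⟨s, hs0, hs1, hs⟩ := wt_ne hw.le h1
  obtain ⟨s', hs0', hs1', hs'⟩ := wt_ne hw.le h2
  obtain ⟨m1, m2⟩ := C.Fm_supp _ hs
  obtain ⟨p1, p2⟩ := C.Fp_supp _ hs'
  obtain ⟨v, hv, hdv⟩ := C.exists_near (l.1 (-s)) p
  have k0 : dist (l.1 (-s)) (l.1 (-s)) < 40 * w := by rw [dist_self]; positivity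
  have k1 : dist (l.1 (-s)) (l.1 s') = s + s' := by
    rw [line_dist, show -s - s' = -(s + s') by ring, abs_neg, abs_of_nonneg (by positivity)]
  have k1' : dist (l.1 (-s)) (l.1 s') < 40 * w := by rw [k1]; linarith
  have k2 : dist (l.1 (-s)) v < 40 * w := by rw [hdv]; linarith
  have e1 := C.loc _ _ _ k0 k1'
  have e2 := C.loc _ _ _ k0 k2
  have e3 := C.loc _ _ _ k2 k1'
  rw [hv] at e2 e3
  have ha := C.add _ _ hs hs'
  rw [e1, e2, e3] at ha
  -- `v` lies between the two points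
  have hb : Btw (l.1 (-s)) v (l.1 s') := ha.symm
  set d := dist (l.1 (-s)) v with hd
  set T := d - s with hT
  rw [e2] at m1 m2
  rw [dist_comm, e3] at p1 p2
  have hds : d + dist v (l.1 s') = s + s' := by rw [← k1]; exact ha.symm
  have hT1 : -s ≤ T := by rw [hT]; linarith
  have f1 : dist (l.1 (-s)) (l.1 T) = d := by
    rw [line_dist, show -s - T = -(d) by rw [hT]; ring, abs_neg, abs_of_nonneg dist_nonneg]
  have f2 : dist (l.1 T) (l.1 s') = s' - T := by
    rw [line_dist, abs_sub_comm, abs_of_nonneg (by linarith)]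
  have hvT : v = l.1 T := by
    apply C.cat.uniq hb _ f1.symm
    unfold Btw
    rw [f1, f2, k1]; rw [hT]; ring
  have hT3 : T < 3 * w := by linarith
  have hT4 : -(3 * w) < T := by linarith
  have hpT : pr (l.1 T) = p := by rw [← hvT]; exact hv
  exact ⟨T, by rw [abs_lt]; exact ⟨hT4, hT3⟩, hpT, C.tm_at l (by rw [abs_lt]; exact ⟨hT4, hT3⟩) hpT⟩

/-- value of the weight of a line near a passage through `pr⁻¹ p` -/
theorem wt_at (l : Line Y) {T : ℝ} (hT : |T| ≤ w) (hv : pr (l.1 T) = p) :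
    wt w Fp (fun u => pr (l.1 (T + u))) = wt w Fp (fun u => pr (l.1 u)) := by
  have hw := C.w_pos
  unfold wt
  apply integral_window hT (g := fun s => Fp (pr (l.1 s)))
  · exact C.Fp_cont.comp (C.pi_cont.comp l.2.continuous)
  · intro s hs hs7
    have hw1 := C.w_le
    have h := C.Fp_supp _ hs
    have h40 : |s - T| < 40 * w := by
      have := abs_sub s T
      linarith
    have g0 : dist (l.1 T) (l.1 T) < 40 * w := by rw [dist_self]; positivity
    have g1 : dist (l.1 T) (l.1 s) = |s - T| := by rw [line_dist, abs_sub_comm]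
    have g2 := C.loc (l.1 T) (l.1 s) (l.1 T) (by rw [g1]; exact h40) g0
    rw [hv, dist_comm (l.1 s), g1] at g2
    rwa [g2] at h

end Core

end Pool.Agent.R192
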