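import Pool.Agent.R192.Lines

set_option autoImplicit false

open Set Filter Topology
open scoped NNReal ENNReal

noncomputable section

namespace Pool.Agent.R192

namespace IsQuotientCover

variable {Γ Y X : Type*} [Group Γ] [MetricSpace Y] [MetricSpace X] [MulAction Γ Y]
  [IsIsometricSMul Γ Y] {π : Y → X}

variable (Q : IsQuotientCover Γ π)

include Q

theorem pi_smul (γ : Γ) (x : Y) : π (γ • x) = π x := by
  have h := (Q.dist_eq (γ • x) x).2 ⟨γ, rfl⟩
  simp only [dist_self] at h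
  exact dist_eq_zero.1 (le_antisymm h dist_nonneg)

theorem pi_lip (x y : Y) : dist (π x) (π y) ≤ dist x y := by
  have := (Q.dist_eq x y).2 ⟨1, rfl⟩
  simpa using this

theorem exists_near (x : Y) (q : X) : ∃ v, π v = q ∧ dist x v = dist (π x) q := by
  obtain ⟨q', rfl⟩ := Q.surjective q
  obtain ⟨γ, hγ⟩ := (Q.dist_eq x q').1
  exact ⟨γ • q', Q.pi_smul γ q', hγ⟩

/-- displacement at a point -/
theorem displacement (x : Y) : ∃ r > 0, ∀ γ : Γ, γ ≠ 1 → r ≤ dist x (γ • x) := by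
  obtain ⟨e, he, hee⟩ := Q.covering.isLocalHomeomorph x
  obtain ⟨r, hr, hball⟩ := Metric.isOpen_iff.1 e.open_source x he
  refine ⟨r, hr, fun γ hγ => ?_⟩
  by_contra hcon
  push Not at hcon
  apply hγ
  apply Q.free γ x
  have h1 : γ • x ∈ e.source := hball (by rw [Metric.mem_ball, dist_comm]; exact hcon)
  apply e.injOn h1 he
  rw [← hee]
  exact Q.pi_smul γ x

/-- isometric on balls of a quarter of the displacement -/
theorem loc_of {z : Y} {r : ℝ} (h : ∀ γ : Γ, γ ≠ 1 → r ≤ dist z (γ • z)) {x y : Y}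
    (hx : dist z x < r / 4) (hy : dist z y < r / 4) : dist (π x) (π y) = dist x y := by
  obtain ⟨γ, hγ⟩ := (Q.dist_eq x y).1
  by_cases h1 : γ = 1
  · rw [h1] at hγ
    simp only [one_smul] at hγ
    exact hγ.symm
  · exfalso
    have h2 := h γ h1
    have h3 := Q.pi_lip x y
    rw [← hγ] at h3
    have h3' : dist x (γ • y) ≤ dist x y := h3
    have t1 := dist_triangle z x (γ • y)
    have t2 := dist_triangle z (γ • y) (γ • z)
    have t3 := dist_triangle x z y
    rw [dist_smul, dist_comm y z] at t2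
    rw [dist_comm x z] at t3
    linarith

theorem uniform [CompactSpace X] :
    ∃ ρ > 0, ∀ x : Y, ∀ γ : Γ, γ ≠ 1 → ρ ≤ dist x (γ • x) := by
  have key : ∃ ρ > 0, ∀ x : Y, π x ∈ (univ : Set X) → ∀ γ : Γ, γ ≠ 1 → ρ ≤ dist x (γ • x) := by
    refine isCompact_univ.induction_on (p := fun S : Set X => ∃ ρ > 0, ∀ x : Y, π x ∈ S →
      ∀ γ : Γ, γ ≠ 1 → ρ ≤ dist x (γ • x)) ?_ ?_ ?_ ?_
    · exact ⟨1, one_pos, fun x hx => absurd hx (notMem_empty _)⟩
    · rintro s t hst ⟨ρ, hρ, h⟩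
      exact ⟨ρ, hρ, fun x hx => h x (hst hx)⟩
    · rintro s t ⟨ρ, hρ, h⟩ ⟨ρ', hρ', h'⟩
      refine ⟨min ρ ρ', lt_min hρ hρ', fun x hx γ hγ => ?_⟩
      rcases hx with hx | hx
      · exact (min_le_left _ _).trans (h x hx γ hγ)
      · exact (min_le_right _ _).trans (h' x hx γ hγ)
    · intro y _
      obtain ⟨x₀, rfl⟩ := Q.surjective y
      obtain ⟨r, hr, h⟩ := Q.displacement x₀
      refine ⟨Metric.ball (π x₀) (r / 4),
        mem_nhdsWithin_of_mem_nhds (Metric.ball_mem_nhds _ (by positivity)), r / 2,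
        by positivity, fun x hx γ hγ => ?_⟩
      obtain ⟨γ₀, hγ₀⟩ := (Q.dist_eq x₀ x).1
      have hlt : dist x₀ (γ₀ • x) < r / 4 := by
        show (fun γ : Γ => dist x₀ (γ • x)) γ₀ < r / 4
        rw [hγ₀, dist_comm]
        exact hx
      have hne : γ₀ * γ * γ₀⁻¹ ≠ 1 := by
        intro h1
        apply hγ
        have : γ₀ * γ = γ₀ := by
          calc γ₀ * γ = (γ₀ * γ * γ₀⁻¹) * γ₀ := by group
            _ = γ₀ := by rw [h1, one_mul]
        exact mul_eq_left.1 this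
      have h1 := h _ hne
      have e1 : (γ₀ * γ * γ₀⁻¹) • (γ₀ • x) = γ₀ • (γ • x) := by
        rw [smul_smul, smul_smul]; congr 1; group
      have t1 := dist_triangle x₀ (γ₀ • x) ((γ₀ * γ * γ₀⁻¹) • x₀)
      have t2 := dist_triangle (γ₀ • x) (γ₀ • (γ • x)) ((γ₀ * γ * γ₀⁻¹) • x₀)
      rw [dist_smul] at t2
      nth_rewrite 1 [← e1] at t2
      rw [dist_smul, dist_comm (γ₀ • x) x₀] at t2
      linarith
  obtain ⟨ρ, hρ, h⟩ := key
  exact ⟨ρ, hρ, fun x => h x (mem_univ _)⟩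

theorem lift_locGeod (H : IsCatNegOne Y) {ρ : ℝ} (hρ : 0 < ρ)
    (hloc : ∀ z x y : Y, dist z x < ρ → dist z y < ρ → dist (π x) (π y) = dist x y)
    (c : ℝ → X) (hc : LocGeod c) (x : Y) (hx : π x = c 0) :
    ∃ l : Line Y, l.1 0 = x ∧ ∀ t, π (l.1 t) = c t := by
  obtain ⟨l, ⟨hl0, hl⟩, -⟩ := Q.covering.existsUnique_continuousMap_lifts
    (⟨c, hc.continuous⟩ : C(ℝ, X)) 0 x hx
  have hl' : ∀ t, π (l t) = c t := fun t => congr_fun hl t
  have hlg : LocGeod (l : ℝ → Y) := by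
    intro t
    obtain ⟨ε, hε, he⟩ := hc t
    obtain ⟨δ, hδ, hd⟩ := Metric.continuousAt_iff.1 (l.continuous.continuousAt (x := t)) ρ hρ
    refine ⟨min ε δ, lt_min hε hδ, fun s s' hs hs' => ?_⟩
    rw [← he s s' (hs.trans_le (min_le_left _ _)) (hs'.trans_le (min_le_left _ _)), ← hl', ← hl']
    symm
    apply hloc (l t)
    · rw [dist_comm]; exact hd (by rw [Real.dist_eq]; exact hs.trans_le (min_le_right _ _))
    · rw [dist_comm]; exact hd (by rw [Real.dist_eq]; exact hs'.trans_le (min_le_right _ _))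
  exact ⟨⟨l, H.isometry_of_local hlg⟩, hl0, hl'⟩

end IsQuotientCover

end Pool.Agent.R192
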