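import Mathlib

/-!
# Geodesic flow of a hyperbolic gluing: the definitions

Hyperbolic manifolds, CAT(-1) spaces, geodesic rays and lines, Busemann functions, conformal
densities, the Bowen-Margulis measure and exponential decay of correlations.
-/

set_option autoImplicit false

open Set Filter Topology MeasureTheory
open scoped NNReal ENNReal

noncomputable section

namespace Pool.Agent.R192

/-! ### spaces -/

/-- `Y` is a (geodesic) CAT(-1) space: any two points are joined by a geodesic, and the distance of a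
point `p` to a point `m` on a geodesic from `x` to `y` is at most the corresponding distance in the
comparison triangle in the hyperbolic plane of curvature `-1` (there one has equality in
`cosh |pm| sinh |xy| = cosh |px| sinh |my| + cosh |py| sinh |xm|`). -/
structure IsCatNegOne (Y : Type*) [MetricSpace Y] : Prop where
  geodesic : ∀ x y : Y, ∃ c : ℝ → Y, c 0 = x ∧ c (dist x y) = y ∧
    ∀ s ∈ Icc (0 : ℝ) (dist x y), ∀ t ∈ Icc (0 : ℝ) (dist x y), dist (c s) (c t) = |s - t|
  compare : ∀ p x y m : Y, dist x m + dist m y = dist x y →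
    Real.cosh (dist p m) * Real.sinh (dist x y) ≤
      Real.cosh (dist p x) * Real.sinh (dist m y) + Real.cosh (dist p y) * Real.sinh (dist x m)

/-- `π : Y → X` is a covering map with deck group `Γ` and `X` carries the quotient metric: `Γ` acts
freely by isometries, `π` is a covering map, and `d (π x, π y)` is the minimum of `d (x, γ y)` over
`γ ∈ Γ` (so that the fibres are the orbits and `π` is a local isometry). -/
structure IsQuotientCover (Γ : Type*) {Y X : Type*} [Group Γ] [MetricSpace Y] [MetricSpace X]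
    [MulAction Γ Y] [IsIsometricSMul Γ Y] (π : Y → X) : Prop where
  free : ∀ (γ : Γ) (x : Y), γ • x = x → γ = 1
  covering : IsCoveringMap π
  surjective : Function.Surjective π
  dist_eq : ∀ x y : Y, IsLeast (range fun γ : Γ => dist x (γ • y)) (dist (π x) (π y))

/-- `H` is isometric to the hyperbolic space of dimension `n` and curvature `-1` (hyperboloid model:
the point `a` of `ℝ^n` stands for the point `(√(1 + |a|²), a)` of the upper sheet of the hyperboloid
`t² - |x|² = 1`, and the distance is given by `cosh d ((t, x), (t', x')) = t t' - ⟨x, x'⟩`). -/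
def IsHyperbolicSpace (n : ℕ) (H : Type*) [MetricSpace H] : Prop :=
  ∃ φ : H → EuclideanSpace ℝ (Fin n), Function.Bijective φ ∧ ∀ z w : H,
    Real.cosh (dist z w) =
      √(1 + ‖φ z‖ ^ 2) * √(1 + ‖φ w‖ ^ 2) - inner ℝ (φ z) (φ w)

/-- `M` is a compact connected hyperbolic manifold of dimension `n`, with its Riemannian distance:
a compact quotient of the hyperbolic space of dimension `n` by a group of isometries which acts
freely and properly discontinuously. -/
def IsCompactHyperbolicManifold (n : ℕ) (M : Type*) [MetricSpace M] : Prop :=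
  CompactSpace M ∧ ∃ (H Γ : Type) (_ : MetricSpace H) (_ : Group Γ) (_ : MulAction Γ H)
    (_ : IsIsometricSMul Γ H) (q : H → M), IsHyperbolicSpace n H ∧ IsQuotientCover Γ q

/-! ### the geodesic flow -/

/-- local geodesics `c : ℝ → X` parametrised by arc length -/
def LocGeod {X : Type*} [MetricSpace X] (c : ℝ → X) : Prop :=
  ∀ t, ∃ ε > 0, ∀ s s', |s - t| < ε → |s' - t| < ε → dist (c s) (c s') = |s - s'|

/-- the space `GX` of local geodesics (as a measurable space it carries the `σ`-algebra generated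
by the evaluations `c ↦ c t`, which is the Borel `σ`-algebra) -/
abbrev GX (X : Type*) [MetricSpace X] : Type _ := {c : ℝ → X // LocGeod c}

/-- the geodesic flow, `(g_t c) (s) = c (s + t)` -/
def flow {X : Type*} [MetricSpace X] (t : ℝ) (c : GX X) : GX X :=
  ⟨fun s => c.1 (s + t), fun s => by
    obtain ⟨ε, hε, h⟩ := c.2 (s + t)
    refine ⟨ε, hε, fun a b ha hb => ?_⟩
    rw [h (a + t) (b + t) (by simpa using ha) (by simpa using hb)]
    simp⟩

/-- the metric `d (c, c') = ∫ d (c s, c' s) exp (-2 |s|) ds` of `GX` -/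
def distG {X : Type*} [MetricSpace X] (c c' : GX X) : ℝ :=
  ∫ s : ℝ, dist (c.1 s) (c'.1 s) * Real.exp (-2 * |s|)

/-- `f` is bounded by `A` and `α`-Hölder with constant `A` -/
def HolderBound {X : Type*} [MetricSpace X] (α A : ℝ) (f : GX X → ℝ) : Prop :=
  (∀ c, |f c| ≤ A) ∧ ∀ c c', |f c - f c'| ≤ A * distG c c' ^ α

/-- exponential decay of correlations of the geodesic flow for `α`-Hölder observables -/
def ExpDecay {X : Type*} [MetricSpace X] [MeasurableSpace X] (α : ℝ) (μ : Measure (GX X)) : Prop :=
  ∃ C κ : ℝ, 0 < κ ∧ ∀ (f h : GX X → ℝ) (A B : ℝ), HolderBound α A f → HolderBound α B h →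
    ∀ t : ℝ, 0 ≤ t →
      |∫ c, f (flow t c) * h c ∂μ - (∫ c, f c ∂μ) * ∫ c, h c ∂μ| ≤ C * A * B * Real.exp (-κ * t)

/-! ### the Bowen-Margulis measure -/

/-- geodesic rays, parametrised by arc length (as a measurable space it carries the `σ`-algebra
generated by the evaluations `r ↦ r t`, which is the Borel `σ`-algebra) -/
abbrev Ray (Y : Type*) [MetricSpace Y] : Type _ := {r : ℝ≥0 → Y // Isometry r}

/-- geodesic lines, parametrised by arc length (with the `σ`-algebra generated by the evaluations) -/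
abbrev Line (Y : Type*) [MetricSpace Y] : Type _ := {c : ℝ → Y // Isometry c}

section

variable {Y : Type*} [MetricSpace Y]

/-- two rays are asymptotic (they have the same end point in the boundary at infinity) -/
def Asymp (r r' : Ray Y) : Prop := ∃ C : ℝ, ∀ t, dist (r.1 t) (r'.1 t) ≤ C

open Classical in
/-- the ray from `o` which is asymptotic to `r` -/
def rayFrom (o : Y) (r : Ray Y) : Ray Y :=
  if h : ∃ r' : Ray Y, r'.1 0 = o ∧ Asymp r r' then h.choose else r

/-- the Busemann function `β_ξ (x, y) = lim (d (x, r t) - d (y, r t))`, where `ξ` is the end point of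
the ray `r` -/
def busemann (r : Ray Y) (x y : Y) : ℝ :=
  limUnder atTop fun t : ℝ≥0 => dist x (r.1 t) - dist y (r.1 t)

/-- the half of the line `c` towards `c (+∞)` -/
def fwd (c : Line Y) : Ray Y :=
  ⟨fun t => c.1 t, c.2.comp (Isometry.of_dist_eq fun _ _ => rfl)⟩

/-- the half of the line `c` towards `c (-∞)` -/
def bwd (c : Line Y) : Ray Y :=
  ⟨fun t => c.1 (-(t : ℝ)), c.2.comp (Isometry.of_dist_eq fun s t => by
    rw [Real.dist_eq, NNReal.dist_eq, neg_sub_neg, abs_sub_comm])⟩

variable (Γ : Type*) [Group Γ] [MulAction Γ Y] [IsIsometricSMul Γ Y]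

variable {Γ} in
/-- the image of a ray under `γ` -/
def moveRay (γ : Γ) (r : Ray Y) : Ray Y := ⟨fun t => γ • r.1 t, (isometry_smul Y γ).comp r.2⟩

/-- `ν` is a `Γ`-equivariant conformal density of dimension `h` (for a cocompact action: the family
of Patterson-Sullivan measures). The boundary at infinity is identified, for each `x`, with the set
of rays from `x`; `ν x` is a finite measure on it, `dν_y / dν_x (ξ) = exp (-h β_ξ (y, x))` and
`ν (γ x)` is the image of `ν x` under `γ`. -/
structure IsConformalDensity [MeasurableSpace Y] (h : ℝ) (ν : Y → Measure (Ray Y)) : Prop where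
  finite : ∀ x, IsFiniteMeasure (ν x)
  start : ∀ x, ∀ᵐ r ∂ν x, r.1 0 = x
  conformal : ∀ (x y : Y) (F : Ray Y → ℝ≥0∞), Measurable F →
    ∫⁻ r, F r ∂ν y =
      ∫⁻ r, F (rayFrom y r) * ENNReal.ofReal (Real.exp (-h * busemann r y x)) ∂ν x
  equivariant : ∀ (γ : Γ) (x : Y) (F : Ray Y → ℝ≥0∞), Measurable F →
    ∫⁻ r, F r ∂ν (γ • x) = ∫⁻ r, F (moveRay γ r) ∂ν x

open Classical in
/-- `m` is the measure on the space of lines with end points `ξ⁻`, `ξ⁺` and time parameter `s`
given by `dm = exp (h (β_ξ⁻ (o, c 0) + β_ξ⁺ (o, c 0))) dν_o (ξ⁻) dν_o (ξ⁺) ds`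
(Hopf parametrisation; `s = β_ξ⁺ (o, c 0)` increases by `t` under the geodesic flow `g_t`). -/
def IsBMSMeasure [MeasurableSpace Y] (h : ℝ) (ν : Y → Measure (Ray Y)) (m : Measure (Line Y)) :
    Prop :=
  ∀ (o : Y) (F : Ray Y × Ray Y × ℝ → ℝ≥0∞), Measurable F →
    ∫⁻ c, F (rayFrom o (bwd c), rayFrom o (fwd c), busemann (fwd c) o (c.1 0)) *
      ENNReal.ofReal (Real.exp (-h * (busemann (bwd c) o (c.1 0) + busemann (fwd c) o (c.1 0)))) ∂m =
    ∫⁻ r, ∫⁻ r', ∫⁻ s : ℝ, (if Asymp r r' then 0 else F (r, r', s)) ∂volume ∂ν o ∂ν o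

/-- `μ` is the Bowen-Margulis measure on `GX`, where `π : Y → X` is the universal covering with
group `Γ`: the probability measure which is (up to a constant `Z`) induced on `GX = Γ \ GY` by the
`Γ`-invariant measure `m` on `GY` obtained from the Patterson-Sullivan measures `ν`. -/
def IsBowenMargulis [MeasurableSpace Y] {X : Type*} [MetricSpace X] [MeasurableSpace X] (π : Y → X)
    (μ : Measure (GX X)) : Prop :=
  IsProbabilityMeasure μ ∧ ∃ (h : ℝ) (ν : Y → Measure (Ray Y)) (m : Measure (Line Y)) (Z : ℝ≥0∞),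
    IsConformalDensity Γ h ν ∧ IsBMSMeasure h ν m ∧ Z ≠ 0 ∧ Z ≠ ⊤ ∧
      ∀ F : Line Y → ℝ≥0∞, Measurable F →
        ∫⁻ c, F c ∂m = Z * ∫⁻ c, ∑' l : {l : Line Y // ∀ t, π (l.1 t) = c.1 t}, F l.1 ∂μ

end

end Pool.Agent.R192
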