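import Pool.Agent.R192.Core

set_option autoImplicit false

open Set Filter Topology MeasureTheory
open scoped NNReal ENNReal

noncomputable section

namespace Pool.Agent.R192

open Real

theorem integrable_weight : Integrable fun s : ℝ => exp (-2 * |s|) := by
  rw [← integrableOn_univ, ← Iic_union_Ioi (a := (0:ℝ)), integrableOn_union]
  constructor
  · refine (integrableOn_exp_mul_Iic (a := 2) (by norm_num) 0).congr_fun ?_ measurableSet_Iic
    intro s hs
    show exp (2 * s) = exp (-2 * |s|)
    rw [abs_of_nonpos hs]; ring_nf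
  · refine (integrableOn_exp_mul_Ioi (a := -2) (by norm_num) 0).congr_fun ?_ measurableSet_Ioi
    intro s hs
    show exp (-2 * s) = exp (-2 * |s|)
    rw [abs_of_pos hs]

theorem integral_weight : ∫ s : ℝ, exp (-2 * |s|) = 1 := by
  rw [← intervalIntegral.integral_Iic_add_Ioi (b := 0) integrable_weight.integrableOn
    integrable_weight.integrableOn]
  have h1 : ∫ s in Iic (0:ℝ), exp (-2 * |s|) = ∫ s in Iic (0:ℝ), exp (2 * s) :=
    setIntegral_congr_fun measurableSet_Iic fun s hs => by
      show exp (-2 * |s|) = exp (2 * s)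
      rw [abs_of_nonpos hs]; ring_nf
  have h2 : ∫ s in Ioi (0:ℝ), exp (-2 * |s|) = ∫ s in Ioi (0:ℝ), exp (-2 * s) :=
    setIntegral_congr_fun measurableSet_Ioi fun s hs => by
      show exp (-2 * |s|) = exp (-2 * s)
      rw [abs_of_pos hs]
  rw [h1, h2, integral_exp_mul_Iic (by norm_num), integral_exp_mul_Ioi (by norm_num)]
  norm_num

section

variable {X : Type*} [MetricSpace X] [CompactSpace X]

/-- the diameter of `X` -/
def diamX (X : Type*) [MetricSpace X] : ℝ := Metric.diam (univ : Set X)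

theorem dist_le_diamX (x y : X) : dist x y ≤ diamX X :=
  Metric.dist_le_diam_of_mem isCompact_univ.isBounded (mem_univ x) (mem_univ y)

theorem integrable_distG (c c' : GX X) :
    Integrable fun s : ℝ => dist (c.1 s) (c'.1 s) * exp (-2 * |s|) := by
  refine (integrable_weight.const_mul (diamX X)).mono' ?_ ?_
  · exact ((c.2.continuous.dist c'.2.continuous).mul (by fun_prop)).aestronglyMeasurable
  · filter_upwards with s
    rw [Real.norm_eq_abs, abs_of_nonneg (by positivity)]
    gcongr
    exact dist_le_diamX _ _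

theorem distG_nonneg (c c' : GX X) : 0 ≤ distG c c' :=
  integral_nonneg fun _ => by positivity

theorem distG_le (c c' : GX X) : distG c c' ≤ diamX X := by
  calc distG c c' ≤ ∫ s : ℝ, diamX X * exp (-2 * |s|) := by
        apply integral_mono (integrable_distG c c') (integrable_weight.const_mul _)
        intro s
        exact mul_le_mul_of_nonneg_right (dist_le_diamX _ _) (exp_pos _).le
    _ = diamX X := by rw [integral_const_mul, integral_weight, mul_one]

theorem window_le (c c' : GX X) {a b : ℝ} (ha : -1 ≤ a) (hab : a ≤ b) (hb : b ≤ 1) :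
    ∫ s in a..b, dist (c.1 s) (c'.1 s) ≤ exp 2 * distG c c' := by
  have hc : Continuous fun s => dist (c.1 s) (c'.1 s) := c.2.continuous.dist c'.2.continuous
  have hc' : Continuous fun s : ℝ => exp 2 * (dist (c.1 s) (c'.1 s) * exp (-2 * |s|)) :=
    continuous_const.mul (hc.mul (by fun_prop))
  calc ∫ s in a..b, dist (c.1 s) (c'.1 s)
      ≤ ∫ s in a..b, exp 2 * (dist (c.1 s) (c'.1 s) * exp (-2 * |s|)) := by
        apply intervalIntegral.integral_mono_on hab (hc.intervalIntegrable _ _)
          (hc'.intervalIntegrable _ _)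
        intro s hs
        have h1 : |s| ≤ 1 := abs_le.2 ⟨by linarith [hs.1], by linarith [hs.2]⟩
        have h2 : 1 ≤ exp 2 * exp (-2 * |s|) := by
          rw [← exp_add, one_le_exp_iff]; linarith
        have h3 : 0 ≤ dist (c.1 s) (c'.1 s) := dist_nonneg
        nlinarith
    _ = exp 2 * ∫ s in Ioc a b, dist (c.1 s) (c'.1 s) * exp (-2 * |s|) := by
        rw [intervalIntegral.integral_const_mul, intervalIntegral.integral_of_le hab]
    _ ≤ exp 2 * distG c c' := by
        gcongr
        exact setIntegral_le_integral (integrable_distG c c')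
          (Eventually.of_forall fun _ => by positivity)

omit [CompactSpace X] [MetricSpace X] in
theorem tent_lip {ε : ℝ} (hε : 0 < ε) (a b : ℝ) : |tent ε a - tent ε b| ≤ |a - b| / ε := by
  unfold tent
  refine (abs_max_sub_max_le_max 0 (1 - |a| / ε) 0 (1 - |b| / ε)).trans (max_le ?_ ?_)
  · rw [sub_zero, abs_zero]; positivity
  · rw [show 1 - |a| / ε - (1 - |b| / ε) = (|b| - |a|) / ε by ring, abs_div, abs_of_pos hε]
    apply div_le_div_of_nonneg_right _ hε.le
    rw [abs_sub_comm a b]
    exact abs_abs_sub_abs_le_abs_sub b a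

theorem tm_lip {w : ℝ} (hw : 0 < w) (hw1 : 6 * w ≤ 1) (p : X) (c c' : GX X) :
    |tm w p c.1 - tm w p c'.1| ≤ exp 2 / w * distG c c' := by
  have hc : ∀ c : GX X, Continuous fun s => s - dist (c.1 s) p := fun c =>
    continuous_id.sub (c.2.continuous.dist continuous_const)
  unfold tm
  rw [← sub_div, ← intervalIntegral.integral_sub ((hc c).intervalIntegrable _ _)
    ((hc c').intervalIntegrable _ _), abs_div, abs_of_pos hw, div_mul_eq_mul_div]
  gcongr
  calc |∫ s in (3 * w)..(4 * w), (s - dist (c.1 s) p - (s - dist (c'.1 s) p))|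
      ≤ ∫ s in (3 * w)..(4 * w), |s - dist (c.1 s) p - (s - dist (c'.1 s) p)| :=
        intervalIntegral.abs_integral_le_integral_abs (by linarith)
    _ ≤ ∫ s in (3 * w)..(4 * w), dist (c.1 s) (c'.1 s) := by
        apply intervalIntegral.integral_mono_on (by linarith)
          (((hc c).sub (hc c')).abs.intervalIntegrable _ _)
          ((c.2.continuous.dist c'.2.continuous).intervalIntegrable _ _)
        intro s _
        show |s - dist (c.1 s) p - (s - dist (c'.1 s) p)| ≤ _
        rw [show s - dist (c.1 s) p - (s - dist (c'.1 s) p) =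
          -(dist (c.1 s) p - dist (c'.1 s) p) by ring, abs_neg]
        exact abs_dist_sub_le _ _ _
    _ ≤ _ := window_le c c' (by linarith) (by linarith) (by linarith)

theorem wt_lip {w ℓ : ℝ} (hw : 0 < w) (hw1 : 6 * w ≤ 1) (hℓ : 0 ≤ ℓ) {F : X → ℝ}
    (hFc : Continuous F) (hF : ∀ x y, |F x - F y| ≤ ℓ * dist x y) (c c' : GX X) :
    |wt w F c.1 - wt w F c'.1| ≤ ℓ * exp 2 * distG c c' := by
  have hc : ∀ c : GX X, Continuous fun s => F (c.1 s) := fun c => hFc.comp c.2.continuous
  unfold wt
  rw [← intervalIntegral.integral_sub ((hc c).intervalIntegrable _ _)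
    ((hc c').intervalIntegrable _ _)]
  calc |∫ s in (0:ℝ)..(6 * w), (F (c.1 s) - F (c'.1 s))|
      ≤ ∫ s in (0:ℝ)..(6 * w), |F (c.1 s) - F (c'.1 s)| :=
        intervalIntegral.abs_integral_le_integral_abs (by linarith)
    _ ≤ ∫ s in (0:ℝ)..(6 * w), ℓ * dist (c.1 s) (c'.1 s) := by
        apply intervalIntegral.integral_mono_on (by linarith)
          (((hc c).sub (hc c')).abs.intervalIntegrable _ _)
          ((continuous_const.mul (c.2.continuous.dist c'.2.continuous)).intervalIntegrable _ _)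
        intro s _
        exact hF _ _
    _ = ℓ * ∫ s in (0:ℝ)..(6 * w), dist (c.1 s) (c'.1 s) := by
        rw [intervalIntegral.integral_const_mul]
    _ ≤ ℓ * (exp 2 * distG c c') := by
        gcongr
        exact window_le c c' (by linarith) (by linarith) (by linarith)
    _ = _ := by ring

theorem wt_lip' {w ℓ : ℝ} (hw : 0 < w) (hw1 : 6 * w ≤ 1) (hℓ : 0 ≤ ℓ) {F : X → ℝ}
    (hFc : Continuous F) (hF : ∀ x y, |F x - F y| ≤ ℓ * dist x y) (c c' : GX X) :
    |wt w F (fun u => c.1 (-u)) - wt w F (fun u => c'.1 (-u))| ≤ ℓ * exp 2 * distG c c' := by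
  have hc : ∀ c : GX X, Continuous fun s => F (c.1 (-s)) := fun c =>
    hFc.comp (c.2.continuous.comp continuous_neg)
  unfold wt
  rw [← intervalIntegral.integral_sub ((hc c).intervalIntegrable _ _)
    ((hc c').intervalIntegrable _ _)]
  calc |∫ s in (0:ℝ)..(6 * w), (F (c.1 (-s)) - F (c'.1 (-s)))|
      ≤ ∫ s in (0:ℝ)..(6 * w), |F (c.1 (-s)) - F (c'.1 (-s))| :=
        intervalIntegral.abs_integral_le_integral_abs (by linarith)
    _ ≤ ∫ s in (0:ℝ)..(6 * w), ℓ * dist (c.1 (-s)) (c'.1 (-s)) := by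
        apply intervalIntegral.integral_mono_on (by linarith)
          (((hc c).sub (hc c')).abs.intervalIntegrable _ _)
          ((continuous_const.mul ((c.2.continuous.comp continuous_neg).dist
            (c'.2.continuous.comp continuous_neg))).intervalIntegrable _ _)
        intro s _
        exact hF _ _
    _ = ℓ * ∫ s in (-(6 * w))..0, dist (c.1 s) (c'.1 s) := by
        rw [intervalIntegral.integral_const_mul,
          intervalIntegral.integral_comp_neg (fun s => dist (c.1 s) (c'.1 s)), neg_zero]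
    _ ≤ ℓ * (exp 2 * distG c c') := by
        gcongr
        exact window_le c c' (by linarith) (by linarith) (by linarith)
    _ = _ := by ring

end

namespace Core

variable {Γ Y X : Type*} [Group Γ] [MetricSpace Y] [MetricSpace X] [MulAction Γ Y]
  [IsIsometricSMul Γ Y] {pr : Y → X} {p : X} {w ℓ : ℝ} {Fm Fp : X → ℝ} [CompactSpace X]

variable (C : Core Γ pr p w ℓ Fm Fp)

include C

omit [CompactSpace X] in
theorem obs_nonneg {ε : ℝ} (g : ℝ → X) : 0 ≤ obs w p Fm Fp ε g :=
  mul_nonneg (mul_nonneg (tent_nonneg _ _) (wt_nonneg C.w_pos.le C.Fm_nonneg _))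
    (wt_nonneg C.w_pos.le C.Fp_nonneg _)

omit [CompactSpace X] in
theorem obs_le {ε : ℝ} (hε : 0 < ε) (g : ℝ → X) : obs w p Fm Fp ε g ≤ 1 := by
  have h1 := tent_le hε (tm w p g)
  have h2 := wt_le_one C.w_pos.le C.w_le C.Fm_nonneg C.Fm_le (fun u => g (-u))
  have h3 := wt_le_one C.w_pos.le C.w_le C.Fp_nonneg C.Fp_le g
  have h4 := wt_nonneg C.w_pos.le C.Fm_nonneg (fun u => g (-u))
  have h5 := wt_nonneg C.w_pos.le C.Fp_nonneg g
  exact mul_le_one₀ (mul_le_one₀ h1 h4 h2) h5 h3

/-- Hölder bound for the observables -/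
theorem holder {α : ℝ} (hα : 0 < α) (hα1 : α ≤ 1) {ε : ℝ} (hε : 0 < ε) (hεw : ε ≤ w) :
    HolderBound α ((exp 2 / w + 2 * ℓ * exp 2) * (1 + diamX X) / ε)
      (fun c : GX X => obs w p Fm Fp ε c.1) := by
  have hw := C.w_pos
  have hw1 := C.w_le
  have hℓ := C.ell_nonneg
  have hε1 : ε ≤ 1 := by linarith
  have hD : 0 ≤ diamX X := Metric.diam_nonneg
  have he : 1 ≤ exp 2 := one_le_exp_iff.2 (by norm_num)
  constructor
  · intro c
    rw [abs_of_nonneg (C.obs_nonneg _)]
    refine (C.obs_le hε _).trans ?_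
    rw [one_le_div hε]
    have h1 : 1 ≤ exp 2 / w := by
      rw [one_le_div hw]; linarith
    have h2 : 0 ≤ 2 * ℓ * exp 2 := by positivity
    nlinarith
  · intro c c'
    have hd := distG_nonneg c c'
    have hd2 := distG_le c c'
    set δ := distG c c' with hδ
    have a1 : |tent ε (tm w p c.1) - tent ε (tm w p c'.1)| ≤ exp 2 / w * δ / ε :=
      (tent_lip hε _ _).trans (by gcongr; exact tm_lip hw hw1 p c c')
    have a2 := wt_lip' hw hw1 hℓ C.Fm_cont C.Fm_lip c c'
    have a3 := wt_lip hw hw1 hℓ C.Fp_cont C.Fp_lip c c'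
    rw [← hδ] at a2 a3
    have t1 := tent_nonneg ε (tm w p c.1)
    have t1' := tent_le hε (tm w p c.1)
    have t2 := tent_nonneg ε (tm w p c'.1)
    have t2' := tent_le hε (tm w p c'.1)
    have m1 := wt_nonneg hw.le C.Fm_nonneg (fun u => c.1 (-u))
    have m1' := wt_le_one hw.le hw1 C.Fm_nonneg C.Fm_le (fun u => c.1 (-u))
    have m2 := wt_nonneg hw.le C.Fm_nonneg (fun u => c'.1 (-u))
    have m2' := wt_le_one hw.le hw1 C.Fm_nonneg C.Fm_le (fun u => c'.1 (-u))
    have p1 := wt_nonneg hw.le C.Fp_nonneg c.1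
    have p1' := wt_le_one hw.le hw1 C.Fp_nonneg C.Fp_le c.1
    have p2 := wt_nonneg hw.le C.Fp_nonneg c'.1
    have p2' := wt_le_one hw.le hw1 C.Fp_nonneg C.Fp_le c'.1
    have hL : |obs w p Fm Fp ε c.1 - obs w p Fm Fp ε c'.1| ≤
        (exp 2 / w + 2 * ℓ * exp 2) / ε * δ := by
      unfold obs
      set T := tent ε (tm w p c.1)
      set T' := tent ε (tm w p c'.1)
      set A := wt w Fm (fun u => c.1 (-u))
      set A' := wt w Fm (fun u => c'.1 (-u))
      set B := wt w Fp c.1
      set B' := wt w Fp c'.1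
      have e : T * A * B - T' * A' * B' = (T - T') * (A * B) + (T' * B) * (A - A') +
          (T' * A') * (B - B') := by ring
      rw [e]
      have b1 : |(T - T') * (A * B)| ≤ exp 2 / w * δ / ε := by
        rw [abs_mul, abs_of_nonneg (mul_nonneg m1 p1)]
        have : A * B ≤ 1 := mul_le_one₀ m1' p1 p1'
        calc |T - T'| * (A * B) ≤ |T - T'| * 1 := by gcongr
          _ ≤ _ := by rw [mul_one]; exact a1
      have b2 : |(T' * B) * (A - A')| ≤ ℓ * exp 2 * δ := by
        rw [abs_mul, abs_of_nonneg (mul_nonneg t2 p1)]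
        have : T' * B ≤ 1 := mul_le_one₀ t2' p1 p1'
        calc T' * B * |A - A'| ≤ 1 * |A - A'| := by gcongr
          _ ≤ _ := by rw [one_mul]; exact a2
      have b3 : |(T' * A') * (B - B')| ≤ ℓ * exp 2 * δ := by
        rw [abs_mul, abs_of_nonneg (mul_nonneg t2 m2)]
        have : T' * A' ≤ 1 := mul_le_one₀ t2' m2 m2'
        calc T' * A' * |B - B'| ≤ 1 * |B - B'| := by gcongr
          _ ≤ _ := by rw [one_mul]; exact a3
      have b4 : 2 * ℓ * exp 2 * δ ≤ 2 * ℓ * exp 2 / ε * δ := by
        gcongr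
        rw [le_div_iff₀ hε]
        have : 0 ≤ 2 * ℓ * exp 2 := by positivity
        nlinarith
      calc _ ≤ |(T - T') * (A * B)| + |(T' * B) * (A - A')| + |(T' * A') * (B - B')| :=
            abs_add_three _ _ _
        _ ≤ exp 2 / w * δ / ε + 2 * ℓ * exp 2 * δ := by linarith
        _ ≤ exp 2 / w * δ / ε + 2 * ℓ * exp 2 / ε * δ := by linarith
        _ = _ := by ring
    refine hL.trans ?_
    have hpow : δ ≤ (1 + diamX X) * δ ^ α := by
      rcases eq_or_lt_of_le hd with h0 | h0
      · rw [← h0, Real.zero_rpow hα.ne', mul_zero]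
      · have h1 : δ = δ ^ (1 - α) * δ ^ α := by
          rw [← Real.rpow_add h0, sub_add_cancel, Real.rpow_one]
        have h2 : δ ^ (1 - α) ≤ 1 + diamX X := by
          calc δ ^ (1 - α) ≤ (1 + diamX X) ^ (1 - α) :=
                Real.rpow_le_rpow hd (by linarith) (by linarith)
            _ ≤ (1 + diamX X) ^ (1:ℝ) :=
                Real.rpow_le_rpow_of_exponent_le (by linarith) (by linarith)
            _ = _ := Real.rpow_one _
        calc δ = δ ^ (1 - α) * δ ^ α := h1
          _ ≤ _ := by gcongr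
    calc (exp 2 / w + 2 * ℓ * exp 2) / ε * δ
        ≤ (exp 2 / w + 2 * ℓ * exp 2) / ε * ((1 + diamX X) * δ ^ α) := by gcongr
      _ = _ := by ring

end Core

end Pool.Agent.R192
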