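import Pool.Agent.R192.Formula

set_option autoImplicit false

open Set Filter Topology MeasureTheory
open scoped NNReal ENNReal

noncomputable section

namespace Pool.Agent.R192

open Real

/-- telescoping identity -/
theorem sum_telescope {ι : Type*} [DecidableEq ι] (d f : ι → ℝ) (D : Finset ι)
    (hinj : ∀ x ∈ D, ∀ y ∈ D, d x = d y → x = y) :
    ∑ u ∈ D, f u * ∏ u' ∈ D.filter (fun u' => d u < d u'), (1 - f u') =
      1 - ∏ u ∈ D, (1 - f u) := by
  induction D using Finset.induction_on_min_value d with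
  | empty => simp
  | insert a s has hmin ih =>
    have hlt : ∀ x ∈ s, d a < d x := fun x hx => lt_of_le_of_ne (hmin x hx) fun h =>
      has ((hinj a (Finset.mem_insert_self _ _) x (Finset.mem_insert_of_mem hx) h) ▸ hx)
    rw [Finset.sum_insert has, Finset.prod_insert has]
    have e1 : (insert a s).filter (fun u' => d a < d u') = s := by
      ext x
      simp only [Finset.mem_filter, Finset.mem_insert]
      constructor
      · rintro ⟨rfl | hx, h2⟩
        · exact absurd h2 (lt_irrefl _)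
        · exact hx
      · exact fun hx => ⟨Or.inr hx, hlt x hx⟩
    have e2 : ∀ u ∈ s, (insert a s).filter (fun u' => d u < d u') =
        s.filter (fun u' => d u < d u') := by
      intro u hu
      rw [Finset.filter_insert, if_neg (not_lt.2 (hmin u hu))]
    rw [e1, Finset.sum_congr rfl (fun u hu => by rw [e2 u hu]),
      ih (fun x hx y hy => hinj x (Finset.mem_insert_of_mem hx) y (Finset.mem_insert_of_mem hy))]
    ring

namespace Core

variable {Γ Y X : Type*} [Group Γ] [MetricSpace Y] [MetricSpace X] [MulAction Γ Y]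
  [IsIsometricSMul Γ Y] {pr : Y → X} {p : X} {w ℓ : ℝ} {Fm Fp : X → ℝ}

variable [ProperSpace Y] (C : Core Γ pr p w ℓ Fm Fp)

/-- the points of `pr⁻¹ p` strictly between `x` and `y` -/
def between (x y : Y) : Finset {y : Y // pr y = p} :=
  ((C.finite_ball x (dist x y)).subset
    (t := {u : {y : Y // pr y = p} | Btw x u.1 y ∧ u.1 ≠ x ∧ u.1 ≠ y})
    (fun u hu => by
      have := hu.1
      unfold Btw at this
      show dist x u.1 ≤ dist x y
      linarith [dist_nonneg (x := u.1) (y := y)])).toFinset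

theorem mem_between {x y : Y} {u : {y : Y // pr y = p}} :
    u ∈ C.between x y ↔ Btw x u.1 y ∧ u.1 ≠ x ∧ u.1 ≠ y := by
  unfold between
  rw [Set.Finite.mem_toFinset]
  rfl

/-- the weight of the passage at `u` -/
def bw {Y X : Type*} [MetricSpace Y] (pr : Y → X) (w : ℝ) (Fm Fp : X → ℝ)
    (H : IsCatNegOne Y) (x u y : Y) : ℝ := wS pr w Fm H u x * wS pr w Fp H u y

/-- the first passage kernel -/
def kw (x y : Y) : ℝ :=
  pw pr w Fm Fp C.cat x y * ∏ u ∈ C.between x y, (1 - bw pr w Fm Fp C.cat x u.1 y)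

theorem bw_nonneg (x u y : Y) : 0 ≤ bw pr w Fm Fp C.cat x u y :=
  mul_nonneg (C.wS_nonneg_m _ _) (C.wS_nonneg_p _ _)

theorem bw_le (x u y : Y) : bw pr w Fm Fp C.cat x u y ≤ 1 :=
  mul_le_one₀ (C.wS_le_m _ _) (C.wS_nonneg_p _ _) (C.wS_le_p _ _)

theorem kw_nonneg (x y : Y) : 0 ≤ C.kw x y :=
  mul_nonneg (C.pw_nonneg _ _) (Finset.prod_nonneg fun u _ => by linarith [C.bw_le x u.1 y])

/-- the key identity on a segment -/
theorem kw_between {x y : Y} (hx : pr x = p) (hy : pr y = p) {u : {y : Y // pr y = p}}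
    (hu : u ∈ C.between x y) [DecidableEq {y : Y // pr y = p}] :
    pw pr w Fm Fp C.cat x u.1 * C.kw u.1 y = pw pr w Fm Fp C.cat x y *
      (bw pr w Fm Fp C.cat x u.1 y *
        ∏ u' ∈ (C.between x y).filter (fun u' => dist x u.1 < dist x u'.1),
          (1 - bw pr w Fm Fp C.cat x u'.1 y)) := by
  have hw := C.w_pos
  obtain ⟨hb, hux, huy⟩ := C.mem_between.1 hu
  have hxy : x ≠ y := by
    rintro rfl
    unfold Btw at hb
    rw [dist_self] at hb
    apply hux
    exact dist_eq_zero.1 (le_antisymm (by linarith [dist_nonneg (x := x) (y := u.1)]) dist_nonneg)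
  have sep : ∀ a b : Y, pr a = p → pr b = p → a ≠ b → 6 * w ≤ dist a b := fun a b ha hb hab => by
    have := C.fiber_sep (x := a) (y := b) (by rw [ha, hb]) hab
    linarith
  have e1 : wS pr w Fp C.cat x y = wS pr w Fp C.cat x u.1 := C.wS_sub (sep _ _ hx u.2 hux.symm) hb
  have e2 : wS pr w Fm C.cat y x = wS pr w Fm C.cat y u.1 :=
    C.wS_sub (sep _ _ hy u.2 huy.symm) hb.symm
  have hset : C.between u.1 y = (C.between x y).filter (fun u' => dist x u.1 < dist x u'.1) := by
    ext u'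
    rw [Finset.mem_filter, C.mem_between, C.mem_between]
    constructor
    · rintro ⟨b1, b2, b3⟩
      have b4 : Btw x u.1 u'.1 := (b1.symm.mid hb.symm).symm
      have b5 : Btw x u'.1 y := (b1.symm.left hb.symm).symm
      have hpos : 0 < dist u.1 u'.1 := dist_pos.2 (Ne.symm b2)
      have b6 : dist x u.1 + dist u.1 u'.1 = dist x u'.1 := b4
      refine ⟨⟨b5, ?_, b3⟩, by linarith⟩
      intro h
      rw [h] at hpos
      rw [h, dist_self] at b6
      linarith [dist_nonneg (x := x) (y := u.1)]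
    · rintro ⟨⟨b1, b2, b3⟩, b4⟩
      have f0 : dist x u.1 ≤ dist x y := by
        unfold Btw at hb; linarith [dist_nonneg (x := u.1) (y := y)]
      have f0' : dist x u'.1 ≤ dist x y := by
        unfold Btw at b1; linarith [dist_nonneg (x := u'.1) (y := y)]
      have f1 := eq_seg C.cat hb
      have f2 := eq_seg C.cat b1
      have f3 : dist u.1 u'.1 = dist x u'.1 - dist x u.1 := by
        have := seg_dist C.cat (x := x) (y := y) (s := dist x u.1) (t := dist x u'.1)
          ⟨dist_nonneg, f0⟩ ⟨dist_nonneg, f0'⟩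
        rw [← f1, ← f2, abs_sub_comm, abs_of_pos (by linarith)] at this
        exact this
      refine ⟨?_, ?_, b3⟩
      · unfold Btw at *
        linarith
      · intro h
        rw [h] at b4
        exact lt_irrefl _ b4
  have hprod : ∏ u' ∈ C.between u.1 y, (1 - bw pr w Fm Fp C.cat u.1 u'.1 y) =
      ∏ u' ∈ C.between u.1 y, (1 - bw pr w Fm Fp C.cat x u'.1 y) := by
    apply Finset.prod_congr rfl
    intro u' hu'
    obtain ⟨b1, b2, b3⟩ := C.mem_between.1 hu'
    have b4 : Btw x u.1 u'.1 := (b1.symm.mid hb.symm).symm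
    have e3 : wS pr w Fm C.cat u'.1 x = wS pr w Fm C.cat u'.1 u.1 :=
      C.wS_sub (sep _ _ u'.2 u.2 b2) b4.symm
    unfold bw
    rw [e3]
  unfold kw
  rw [hprod, hset]
  unfold pw
  rw [if_neg (Ne.symm hux), if_neg huy, if_neg hxy, e1, e2]
  unfold bw
  ring

theorem kw_identity {x y : Y} (hx : pr x = p) (hy : pr y = p) :
    pw pr w Fm Fp C.cat x y =
      C.kw x y + ∑ u ∈ C.between x y, pw pr w Fm Fp C.cat x u.1 * C.kw u.1 y := by
  classical
  rw [Finset.sum_congr rfl (fun u hu => C.kw_between hx hy hu), ← Finset.mul_sum,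
    sum_telescope (fun u : {y : Y // pr y = p} => dist x u.1)
      (fun u => bw pr w Fm Fp C.cat x u.1 y)]
  · unfold kw; ring
  · intro u hu u' hu' h
    apply Subtype.ext
    have h' : dist x u.1 = dist x u'.1 := h
    exact C.cat.uniq (C.mem_between.1 hu).1 (C.mem_between.1 hu').1 h'

theorem kw_ne {x y : Y} (h : C.kw x y ≠ 0) : pw pr w Fm Fp C.cat x y ≠ 0 := by
  intro h0
  apply h
  unfold kw
  rw [h0, zero_mul]

theorem pw_ne {x y : Y} (h : pw pr w Fm Fp C.cat x y ≠ 0) :
    x ≠ y ∧ wS pr w Fp C.cat x y ≠ 0 ∧ wS pr w Fm C.cat y x ≠ 0 := by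
  unfold pw at h
  split_ifs at h with hxy
  · exact absurd rfl h
  · exact ⟨hxy, left_ne_zero_of_mul h, right_ne_zero_of_mul h⟩

theorem btw_of_ne {x u y : Y} (hx : pr x = p) (hu : pr u = p) (hy : pr y = p)
    (h1 : pw pr w Fm Fp C.cat x u ≠ 0) (h2 : pw pr w Fm Fp C.cat u y ≠ 0) :
    Btw x u y ∧ u ≠ x ∧ u ≠ y := by
  have hw := C.w_pos
  obtain ⟨a1, a2, a3⟩ := C.pw_ne h1
  obtain ⟨b1, b2, b3⟩ := C.pw_ne h2
  refine ⟨C.seg_glue hu ?_ ?_ a3 b2, Ne.symm a1, b1⟩
  · have := C.fiber_sep (x := u) (y := x) (by rw [hu, hx]) (Ne.symm a1)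
    linarith
  · have := C.fiber_sep (x := u) (y := y) (by rw [hu, hy]) b1
    linarith

/-- the weighted kernels -/
def WW (h : ℝ) (x y : {y : Y // pr y = p}) : ℝ≥0∞ :=
  ENNReal.ofReal (pw pr w Fm Fp C.cat x.1 y.1) * ENNReal.ofReal (exp (-h * dist x.1 y.1))

/-- the weighted kernels -/
def KK (h : ℝ) (x y : {y : Y // pr y = p}) : ℝ≥0∞ :=
  ENNReal.ofReal (C.kw x.1 y.1) * ENNReal.ofReal (exp (-h * dist x.1 y.1))

theorem WW_add (h : ℝ) (x u y : {y : Y // pr y = p}) (hne : C.WW h x u * C.KK h u y ≠ 0) :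
    Btw x.1 u.1 y.1 ∧ u.1 ≠ x.1 ∧ u.1 ≠ y.1 := by
  apply C.btw_of_ne x.2 u.2 y.2
  · intro h0
    apply hne
    unfold WW
    rw [h0]; simp
  · apply C.kw_ne
    intro h0
    apply hne
    unfold KK
    rw [h0]; simp

theorem renewal (h : ℝ) (x y : {y : Y // pr y = p}) :
    C.WW h x y = C.KK h x y + ∑' u, C.WW h x u * C.KK h u y := by
  classical
  rw [tsum_eq_sum (s := C.between x.1 y.1)]
  · have hid := C.kw_identity x.2 y.2
    have e : ∀ u ∈ C.between x.1 y.1, C.WW h x u * C.KK h u y =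
        ENNReal.ofReal (pw pr w Fm Fp C.cat x.1 u.1 * C.kw u.1 y.1) *
          ENNReal.ofReal (exp (-h * dist x.1 y.1)) := by
      intro u hu
      have hb : dist x.1 u.1 + dist u.1 y.1 = dist x.1 y.1 := (C.mem_between.1 hu).1
      rw [← hb, show -h * (dist x.1 u.1 + dist u.1 y.1) = -h * dist x.1 u.1 + -h * dist u.1 y.1 by
        ring, exp_add, ENNReal.ofReal_mul (C.pw_nonneg _ _), ENNReal.ofReal_mul (exp_pos _).le]
      unfold WW KK
      ring
    rw [Finset.sum_congr rfl e, ← Finset.sum_mul, ← ENNReal.ofReal_sum_of_nonneg]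
    · unfold WW KK
      rw [← add_mul, ← ENNReal.ofReal_add (C.kw_nonneg _ _), ← hid]
      exact Finset.sum_nonneg fun u _ => mul_nonneg (C.pw_nonneg _ _) (C.kw_nonneg _ _)
    · exact fun u _ => mul_nonneg (C.pw_nonneg _ _) (C.kw_nonneg _ _)
  · intro u hu
    by_contra hne
    exact hu (C.mem_between.2 (C.WW_add h x u y hne))

/-! ### equivariance -/

omit [ProperSpace Y] in
theorem wS_smul {F : X → ℝ} (γ : Γ) {x y : Y} (hd : 6 * w ≤ dist x y) :
    wS pr w F C.cat (γ • x) (γ • y) = wS pr w F C.cat x y := by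
  apply wt_congr C.w_pos.le
  intro u hu0 hu1
  have : seg C.cat (γ • x) (γ • y) u = γ • seg C.cat x y u := by
    apply C.cat.seg_eq
    · unfold Btw
      rw [dist_smul, dist_smul, dist_smul]
      exact btw_seg C.cat hu0 (by linarith)
    · rw [dist_smul]
      exact dist_left_seg C.cat hu0 (by linarith)
  rw [this, C.pi_smul]

omit [ProperSpace Y] in
theorem pw_smul (γ : Γ) {x y : Y} (hx : pr x = p) (hy : pr y = p) :
    pw pr w Fm Fp C.cat (γ • x) (γ • y) = pw pr w Fm Fp C.cat x y := by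
  have hw := C.w_pos
  unfold pw
  by_cases hxy : x = y
  · rw [if_pos hxy, if_pos (by rw [hxy])]
  · have h1 := C.fiber_sep (x := x) (y := y) (by rw [hx, hy]) hxy
    rw [if_neg hxy, if_neg (fun h => hxy (smul_left_cancel γ h)), C.wS_smul γ (by linarith),
      C.wS_smul γ (by rw [dist_comm]; linarith)]

/-- the permutation of the fiber given by `γ` -/
def perm (γ : Γ) : {y : Y // pr y = p} ≃ {y : Y // pr y = p} where
  toFun y := ⟨γ • y.1, by rw [C.pi_smul]; exact y.2⟩
  invFun y := ⟨γ⁻¹ • y.1, by rw [C.pi_smul]; exact y.2⟩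
  left_inv y := Subtype.ext (inv_smul_smul γ y.1)
  right_inv y := Subtype.ext (smul_inv_smul γ y.1)

theorem kw_smul (γ : Γ) {x y : Y} (hx : pr x = p) (hy : pr y = p) :
    C.kw (γ • x) (γ • y) = C.kw x y := by
  have hw := C.w_pos
  unfold kw
  rw [C.pw_smul γ hx hy]
  congr 1
  symm
  apply Finset.prod_equiv (C.perm γ)
  · intro u
    rw [C.mem_between, C.mem_between]
    show _ ↔ Btw (γ • x) (γ • u.1) (γ • y) ∧ γ • u.1 ≠ γ • x ∧ γ • u.1 ≠ γ • y
    unfold Btw
    rw [dist_smul, dist_smul, dist_smul]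
    simp only [ne_eq, smul_left_cancel_iff]
  · intro u hu
    obtain ⟨b1, b2, b3⟩ := C.mem_between.1 hu
    show _ = 1 - bw pr w Fm Fp C.cat (γ • x) (γ • u.1) (γ • y)
    unfold bw
    have h1 := C.fiber_sep (x := u.1) (y := x) (by rw [hx, u.2]) b2
    have h2 := C.fiber_sep (x := u.1) (y := y) (by rw [hy, u.2]) b3
    rw [C.wS_smul γ (by linarith), C.wS_smul γ (by linarith)]

theorem homog (h : ℝ) (v x : {y : Y // pr y = p}) :
    ∃ e : {y : Y // pr y = p} ≃ {y : Y // pr y = p},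
      (∀ y, dist x.1 (e y).1 = dist v.1 y.1) ∧ ∀ y, C.KK h x (e y) = C.KK h v y := by
  obtain ⟨γ, hγ⟩ := C.orbit (x := v.1) (y := x.1) (by rw [v.2, x.2])
  refine ⟨C.perm γ, fun y => ?_, fun y => ?_⟩
  · show dist x.1 (γ • y.1) = _
    rw [← hγ, dist_smul]
  · unfold KK
    show ENNReal.ofReal (C.kw x.1 (γ • y.1)) * ENNReal.ofReal (exp (-h * dist x.1 (γ • y.1))) = _
    rw [← hγ, dist_smul, C.kw_smul γ v.2 y.2]

end Core

end Pool.Agent.R192
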