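import Pool.Agent.R192.Abs
import Pool.Agent.R192.Renew
import Pool.Agent.R192.Obs

set_option autoImplicit false

open Set Filter Topology MeasureTheory
open scoped NNReal ENNReal

noncomputable section

namespace Pool.Agent.R192

open Real

theorem measurable_tent' (ε u : ℝ) : Measurable fun s : ℝ => ENNReal.ofReal (tent ε (s + u)) :=
  ENNReal.measurable_ofReal.comp ((continuous_tent ε).measurable.comp
    (measurable_id.add measurable_const))

/-- the integral of the tent function -/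
def tau (ε : ℝ) : ℝ≥0∞ := ∫⁻ s, ENNReal.ofReal (tent ε s)

theorem tau_le {ε : ℝ} (hε : 0 < ε) : tau ε ≤ ENNReal.ofReal (2 * ε) := by
  calc tau ε ≤ ∫⁻ s, (Ioo (-ε) ε).indicator 1 s := by
        apply lintegral_mono
        intro s
        by_cases hs : s ∈ Ioo (-ε) ε
        · rw [Set.indicator_of_mem hs]
          exact ENNReal.ofReal_le_one.2 (tent_le hε s)
        · have : tent ε s = 0 := by
            by_contra hcon
            exact hs (abs_lt.1 (tent_ne hε hcon))
          simp [this]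
    _ = ENNReal.ofReal (2 * ε) := by
        rw [lintegral_indicator_one measurableSet_Ioo, Real.volume_Ioo]
        congr 1; ring

theorem kk_le {ε : ℝ} (hε : 0 < ε) (u : ℝ) : kk ε u ≤ ENNReal.ofReal (2 * ε) := by
  refine le_trans (lintegral_mono fun s => ?_) (tau_le hε)
  calc _ ≤ ENNReal.ofReal (tent ε s) * 1 := by
        gcongr
        exact ENNReal.ofReal_le_one.2 (tent_le hε _)
    _ = _ := mul_one _

theorem kk_zero {ε : ℝ} (hε : 0 < ε) {u : ℝ} (hu : 2 * ε ≤ |u|) : kk ε u = 0 := by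
  unfold kk
  rw [lintegral_eq_zero_iff]
  · filter_upwards with s
    show _ = (0:ℝ≥0∞)
    by_contra hne
    have h1 : tent ε s ≠ 0 := fun h => hne (by rw [h]; simp)
    have h2 : tent ε (s + u) ≠ 0 := fun h => hne (by rw [h]; simp)
    have h3 := tent_ne hε h1
    have h4 := tent_ne hε h2
    have : |u| ≤ |s + u| + |s| := by
      calc |u| = |(s + u) - s| := by ring_nf
        _ ≤ _ := abs_sub _ _
    linarith
  · have hE0 : Measurable fun s : ℝ => ENNReal.ofReal (tent ε s) := by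
      simpa using measurable_tent' ε 0
    exact hE0.mul (measurable_tent' ε u)

theorem tent_half {ε s : ℝ} (hε : 0 < ε) (hs : s ∈ Icc (-(ε / 2)) (ε / 2)) : 1 / 2 ≤ tent ε s := by
  unfold tent
  apply le_max_of_le_right
  have h1 : |s| ≤ ε / 2 := abs_le.2 hs
  have : |s| / ε ≤ 1 / 2 := by
    rw [div_le_iff₀ hε]; linarith
  linarith

theorem tau_ge {ε : ℝ} (hε : 0 < ε) : ENNReal.ofReal (ε / 2) ≤ tau ε := by
  calc ENNReal.ofReal (ε / 2) = ENNReal.ofReal (1 / 2) * ENNReal.ofReal ε := by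
        rw [← ENNReal.ofReal_mul (by norm_num)]; congr 1; ring
    _ = ∫⁻ s in Icc (-(ε / 2)) (ε / 2), ENNReal.ofReal (1 / 2) := by
        rw [setLIntegral_const, Real.volume_Icc]
        congr 2; ring
    _ ≤ ∫⁻ s in Icc (-(ε / 2)) (ε / 2), ENNReal.ofReal (tent ε s) :=
        setLIntegral_mono' measurableSet_Icc fun s hs =>
          ENNReal.ofReal_le_ofReal (tent_half hε hs)
    _ ≤ tau ε := setLIntegral_le_lintegral _ _

theorem kk_ge {ε : ℝ} (hε : 0 < ε) : ENNReal.ofReal (ε / 4) ≤ kk ε 0 := by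
  calc ENNReal.ofReal (ε / 4) = ENNReal.ofReal (1 / 4) * ENNReal.ofReal ε := by
        rw [← ENNReal.ofReal_mul (by norm_num)]; congr 1; ring
    _ = ∫⁻ s in Icc (-(ε / 2)) (ε / 2), ENNReal.ofReal (1 / 4) := by
        rw [setLIntegral_const, Real.volume_Icc]
        congr 2; ring
    _ ≤ ∫⁻ s in Icc (-(ε / 2)) (ε / 2), ENNReal.ofReal (tent ε s) * ENNReal.ofReal (tent ε (s + 0)) :=
        setLIntegral_mono' measurableSet_Icc fun s hs => by
          rw [add_zero, ← ENNReal.ofReal_mul (tent_nonneg _ _)]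
          apply ENNReal.ofReal_le_ofReal
          have := tent_half hε hs
          nlinarith
    _ ≤ kk ε 0 := setLIntegral_le_lintegral _ _

namespace Core

variable {Γ Y X : Type*} [Group Γ] [MetricSpace Y] [MetricSpace X] [MulAction Γ Y]
  [IsIsometricSMul Γ Y] {pr : Y → X} {p : X} {w ℓ : ℝ} {Fm Fp : X → ℝ}
  [MeasurableSpace Y] [BorelSpace Y] [MeasurableSpace X] [BorelSpace X] [ProperSpace Y]
  [CompactSpace X]

variable (C : Core Γ pr p w ℓ Fm Fp) {h : ℝ} {ν : Y → Measure (Ray Y)} {m : Measure (Line Y)}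
  {Z : ℝ≥0∞} {μ : Measure (GX X)} (M : MCore Γ pr h ν m Z μ)

include C M

theorem measurable_obs_gx (ε t : ℝ) : Measurable fun c : GX X => obs w p Fm Fp ε (flow t c).1 :=
  measurable_obs C.Fm_cont C.Fp_cont (fun u => measurable_gx_eval (u + t))
    (fun c => (flow t c).2.continuous)

theorem integrable_obs (ε : ℝ) (hε : 0 < ε) : Integrable (fun c : GX X => obs w p Fm Fp ε c.1) μ := by
  have := M.prob
  have hm : Measurable fun c : GX X => obs w p Fm Fp ε c.1 :=
    measurable_obs C.Fm_cont C.Fp_cont (fun u => measurable_gx_eval u) (fun c => c.2.continuous)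
  refine Integrable.of_bound hm.aestronglyMeasurable 1 (Eventually.of_forall fun c => ?_)
  rw [Real.norm_eq_abs, abs_of_nonneg (C.obs_nonneg _)]
  exact C.obs_le hε _

theorem integrable_corr (ε t : ℝ) (hε : 0 < ε) :
    Integrable (fun c : GX X => obs w p Fm Fp ε (flow t c).1 * obs w p Fm Fp ε c.1) μ := by
  have := M.prob
  have hm : Measurable fun c : GX X => obs w p Fm Fp ε c.1 :=
    measurable_obs C.Fm_cont C.Fp_cont (fun u => measurable_gx_eval u) (fun c => c.2.continuous)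
  refine Integrable.of_bound ((C.measurable_obs_gx M ε t).mul hm).aestronglyMeasurable 1
    (Eventually.of_forall fun c => ?_)
  rw [Real.norm_eq_abs, abs_of_nonneg (mul_nonneg (C.obs_nonneg _) (C.obs_nonneg _))]
  exact mul_le_one₀ (C.obs_le hε _) (C.obs_nonneg _) (C.obs_le hε _)

/-- the main contradiction -/
theorem not_expDecay {v : {y : Y // pr y = p}} (hMm : ∫⁻ r, rw' pr w Fm r ∂ν v.1 ≠ 0)
    (hMp : ∫⁻ r, rw' pr w Fp r ∂ν v.1 ≠ 0) {α : ℝ} (hα : 0 < α) (hα1 : α ≤ 1) :
    ¬ ExpDecay α μ := by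
  rintro ⟨C₀, κ, hκ, hdec⟩
  have hw := C.w_pos
  have hw1 := C.w_le
  have := M.prob
  have := M.dens.finite v.1
  -- finiteness of the masses
  have fin : ∀ F : X → ℝ, (∀ x, 0 ≤ F x) → (∀ x, F x ≤ 1) → ∫⁻ r, rw' pr w F r ∂ν v.1 ≠ ⊤ := by
    intro F h0 h1
    refine ne_top_of_le_ne_top (b := ∫⁻ _ : Ray Y, 1 ∂ν v.1) ?_ (lintegral_mono fun r => ?_)
    · rw [lintegral_one]; exact measure_ne_top _ _
    · exact ENNReal.ofReal_le_one.2 (wt_le_one hw.le hw1 h0 h1 _)
  have hMm' := fin Fm C.Fm_nonneg C.Fm_le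
  have hMp' := fin Fp C.Fp_nonneg C.Fp_le
  obtain ⟨b, hb0, hb⟩ : ∃ b : ℝ, 0 < b ∧ (∫⁻ r, rw' pr w Fm r ∂ν v.1) *
      (∫⁻ r, rw' pr w Fp r ∂ν v.1) = Z * ENNReal.ofReal b := by
    set P := (∫⁻ r, rw' pr w Fm r ∂ν v.1) * (∫⁻ r, rw' pr w Fp r ∂ν v.1)
    have hP0 : P ≠ 0 := mul_ne_zero hMm hMp
    have hPt : P ≠ ⊤ := ENNReal.mul_ne_top hMm' hMp'
    have h1 : P / Z ≠ 0 := ENNReal.div_ne_zero.2 ⟨hP0, M.Zt⟩
    have h2 : P / Z ≠ ⊤ := ENNReal.div_ne_top hPt M.Z0
    refine ⟨(P / Z).toReal, ENNReal.toReal_pos h1 h2, ?_⟩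
    rw [ENNReal.ofReal_toReal h2, ENNReal.mul_div_cancel M.Z0 M.Zt]
  have cancelZ : ∀ x y : ℝ≥0∞, Z * x = Z * y → x = y := fun x y hxy =>
    (ENNReal.mul_right_inj M.Z0 M.Zt).1 hxy
  set I : ℝ → ℝ := fun ε => ∫ c, obs w p Fm Fp ε c.1 ∂μ with hI
  set R : ℝ → ℝ → ℝ := fun ε t => ∫ c, obs w p Fm Fp ε (flow t c).1 * obs w p Fm Fp ε c.1 ∂μ with hR
  set S : ℝ → ℝ → ℝ≥0∞ := fun ε t => ∑' y, C.WW h v y * kk ε (dist v.1 y.1 - t) with hS
  have eI : ∀ ε, 0 < ε → ε ≤ w → ENNReal.ofReal (I ε) = ENNReal.ofReal b * tau ε := by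
    intro ε hε hεw
    apply cancelZ
    rw [hI, ofReal_integral_eq_lintegral_ofReal (C.integrable_obs M ε hε)
      (Eventually.of_forall fun c => C.obs_nonneg _), C.mean M v.2 hε hεw, hb]
    rw [mul_assoc]; rfl
  have eR : ∀ ε t, 0 < ε → ε ≤ w → 2 * ε < t →
      ENNReal.ofReal (R ε t) = ENNReal.ofReal b * S ε t := by
    intro ε t hε hεw ht
    apply cancelZ
    have h1 : ENNReal.ofReal (R ε t) = ∫⁻ c, ENNReal.ofReal (obs w p Fm Fp ε c.1) *
        ENNReal.ofReal (obs w p Fm Fp ε (flow t c).1) ∂μ := by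
      rw [hR, ofReal_integral_eq_lintegral_ofReal (C.integrable_corr M ε t hε)
        (Eventually.of_forall fun c => mul_nonneg (C.obs_nonneg _) (C.obs_nonneg _))]
      apply lintegral_congr
      intro c
      rw [ENNReal.ofReal_mul (C.obs_nonneg _), mul_comm]
    rw [h1, C.corr M v.2 hε hεw ht, hb, mul_assoc]
    rfl
  set c₁ := (exp 2 / w + 2 * ℓ * exp 2) * (1 + diamX X) with hc₁
  have key : ∀ ε t, 0 < ε → ε ≤ w → 0 ≤ t →
      |R ε t - I ε * I ε| ≤ C₀ * (c₁ / ε) * (c₁ / ε) * exp (-κ * t) := fun ε t hε hεw ht =>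
    hdec _ _ _ _ (C.holder hα hα1 hε hεw) (C.holder hα hα1 hε hεw) t ht
  have I0 : ∀ ε, 0 ≤ I ε := fun ε => integral_nonneg fun c => C.obs_nonneg _
  have Ile : ∀ ε, 0 < ε → ε ≤ w → I ε ≤ 2 * b * ε := by
    intro ε hε hεw
    have h1 : ENNReal.ofReal (I ε) ≤ ENNReal.ofReal (b * (2 * ε)) := by
      rw [eI ε hε hεw, ENNReal.ofReal_mul hb0.le]
      gcongr
      exact tau_le hε
    have h2 := (ENNReal.ofReal_le_ofReal_iff (by positivity)).1 h1
    linarith
  have Iw : 0 < I w := by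
    have h1 : ENNReal.ofReal (b * (w / 2)) ≤ ENNReal.ofReal (I w) := by
      rw [eI w hw le_rfl, ENNReal.ofReal_mul hb0.le]
      gcongr
      exact tau_ge hw
    have h2 := (ENNReal.ofReal_le_ofReal_iff (I0 w)).1 h1
    exact lt_of_lt_of_le (by positivity) h2
  -- decay of atoms
  set C₂ := 16 * b * w + 4 * |C₀| * c₁ ^ 2 / (b * w ^ 3) with hC₂
  have atoms : ∀ t ≥ 3 * w, ∑' y, (if dist v.1 y.1 = t then C.WW h v y else 0) ≤
      ENNReal.ofReal C₂ * ENNReal.ofReal (exp (-(κ / 4) * t)) := by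
    intro t ht
    have ht0 : 0 < t := by linarith
    set e := exp (-(κ / 4) * t) with he
    have he0 : 0 < e := exp_pos _
    have he1 : e ≤ 1 := exp_le_one_iff.2 (by nlinarith)
    have he4 : exp (-κ * t) = e ^ 4 := by
      rw [he, ← exp_nat_mul]; congr 1; push_cast; ring
    set ε := w * e with hε
    have hε0 : 0 < ε := by positivity
    have hεw : ε ≤ w := by rw [hε]; nlinarith
    have h1 := key ε t hε0 hεw ht0.le
    have h2 : R ε t ≤ 4 * b ^ 2 * ε ^ 2 + |C₀| * (c₁ / ε) ^ 2 * e ^ 4 := by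
      have h3 := (abs_le.1 h1).2
      have h4 := Ile ε hε0 hεw
      have h5 := I0 ε
      have h6 : C₀ * (c₁ / ε) * (c₁ / ε) * exp (-κ * t) ≤ |C₀| * (c₁ / ε) ^ 2 * e ^ 4 := by
        rw [he4, mul_assoc C₀, ← pow_two]
        have := le_abs_self C₀
        gcongr
      have h7 : I ε * I ε ≤ (2 * b * ε) * (2 * b * ε) := by gcongr
      nlinarith
    have h3 : (∑' y, (if dist v.1 y.1 = t then C.WW h v y else 0)) * ENNReal.ofReal (ε / 4) ≤
        S ε t := by
      rw [← ENNReal.tsum_mul_right]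
      apply ENNReal.tsum_le_tsum
      intro y
      split_ifs with hy
      · rw [hy, sub_self]
        gcongr
        exact kk_ge hε0
      · rw [zero_mul]; exact zero_le
    have h4 : (∑' y, (if dist v.1 y.1 = t then C.WW h v y else 0)) *
        ENNReal.ofReal (b * (ε / 4)) ≤ ENNReal.ofReal (R ε t) := by
      rw [eR ε t hε0 hεw (by linarith), ENNReal.ofReal_mul hb0.le]
      calc _ = ENNReal.ofReal b * ((∑' y, (if dist v.1 y.1 = t then C.WW h v y else 0)) *
            ENNReal.ofReal (ε / 4)) := by ring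
        _ ≤ _ := by gcongr
    have h5 : ENNReal.ofReal (R ε t) ≤ ENNReal.ofReal (C₂ * e) * ENNReal.ofReal (b * (ε / 4)) := by
      rw [← ENNReal.ofReal_mul' (by positivity)]
      apply ENNReal.ofReal_le_ofReal
      refine h2.trans (le_of_eq ?_)
      rw [hC₂, hε]
      field_simp
      ring
    have h6 := h4.trans h5
    have hpos : ENNReal.ofReal (b * (ε / 4)) ≠ 0 := by
      rw [ne_eq, ENNReal.ofReal_eq_zero, not_le]; positivity
    rw [← ENNReal.ofReal_mul' he0.le]
    exact (ENNReal.mul_le_mul_iff_left hpos ENNReal.ofReal_ne_top).1 h6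
  -- infinite total mass
  have inf : ∑' y, C.WW h v y = ⊤ := by
    by_contra hfin
    have lim := ENNReal.tendsto_tsum_compl_atTop_zero hfin
    set δ := ENNReal.ofReal (I w ^ 2 / (8 * b * w)) with hδ
    have hδ0 : 0 < δ := by rw [hδ, ENNReal.ofReal_pos]; positivity
    obtain ⟨s, hs⟩ := ((tendsto_order.1 lim).2 δ hδ0).exists
    obtain ⟨B, hB⟩ : ∃ B, ∀ y ∈ s, dist v.1 y.1 ≤ B := by
      rcases s.eq_empty_or_nonempty with rfl | hs
      · exact ⟨0, by simp⟩
      · exact ⟨s.sup' hs (fun y => dist v.1 y.1), fun y hy =>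
          Finset.le_sup' (fun y : {y : Y // pr y = p} => dist v.1 y.1) hy⟩
    have hlim : Tendsto (fun t : ℝ => C₀ * (c₁ / w) * (c₁ / w) * exp (-κ * t)) atTop (𝓝 0) := by
      have : Tendsto (fun t : ℝ => exp (-κ * t)) atTop (𝓝 0) :=
        tendsto_exp_atBot.comp (tendsto_id.const_mul_atTop_of_neg (by linarith))
      simpa using this.const_mul (C₀ * (c₁ / w) * (c₁ / w))
    have hev : ∀ᶠ t : ℝ in atTop, C₀ * (c₁ / w) * (c₁ / w) * exp (-κ * t) < I w ^ 2 / 2 :=
      (tendsto_order.1 hlim).2 _ (by positivity)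
    obtain ⟨t, ht1, ht2⟩ := (hev.and (eventually_ge_atTop (|B| + 3 * w))).exists
    have hB' := le_abs_self B
    have hB0 := abs_nonneg B
    have ht0 : 0 < t := by linarith
    have h1 := key w t hw le_rfl ht0.le
    have h2 : I w ^ 2 / 2 < R w t := by
      have := (abs_le.1 h1).1
      nlinarith
    have h3 : S w t ≤ ENNReal.ofReal (2 * w) * δ := by
      have hsupp : Function.support (fun y => C.WW h v y * kk w (dist v.1 y.1 - t)) ⊆
          {y | y ∉ s} := by
        intro y hy hys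
        apply hy
        have h4 := hB y hys
        have h5 : kk w (dist v.1 y.1 - t) = 0 := by
          apply kk_zero hw
          rw [abs_sub_comm, abs_of_nonneg (by linarith)]
          linarith
        show C.WW h v y * kk w (dist v.1 y.1 - t) = 0
        rw [h5, mul_zero]
      rw [hS]
      show ∑' y, C.WW h v y * kk w (dist v.1 y.1 - t) ≤ _
      rw [← tsum_subtype_eq_of_support_subset hsupp]
      calc ∑' y : {y | y ∉ s}, C.WW h v y.1 * kk w (dist v.1 y.1.1 - t)
          ≤ ∑' y : {y | y ∉ s}, C.WW h v y.1 * ENNReal.ofReal (2 * w) :=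
            ENNReal.tsum_le_tsum fun y => by gcongr; exact kk_le hw _
        _ = (∑' y : {y // y ∉ s}, C.WW h v y.1) * ENNReal.ofReal (2 * w) :=
            ENNReal.tsum_mul_right
        _ ≤ δ * ENNReal.ofReal (2 * w) := by gcongr
        _ = _ := mul_comm _ _
    have h4 : ENNReal.ofReal (R w t) ≤ ENNReal.ofReal (I w ^ 2 / 4) := by
      rw [eR w t hw le_rfl (by linarith)]
      calc ENNReal.ofReal b * S w t ≤ ENNReal.ofReal b * (ENNReal.ofReal (2 * w) * δ) := by gcongr
        _ = ENNReal.ofReal (I w ^ 2 / 4) := by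
            rw [hδ, ← ENNReal.ofReal_mul (by positivity), ← ENNReal.ofReal_mul hb0.le]
            congr 1
            field_simp
            ring
    have h5 := (ENNReal.ofReal_le_ofReal_iff (by positivity)).1 h4
    nlinarith [sq_nonneg (I w), mul_pos Iw Iw]
  -- the renewal argument
  refine renewal_abs (fun x y : {y : Y // pr y = p} => dist x.1 y.1) (C.WW h) (C.KK h) v
    (ρ := 40 * w) (κ := κ / 4) (t₁ := 3 * w) (C := ENNReal.ofReal C₂) ENNReal.ofReal_ne_top
    (by positivity) (by positivity) (C.renewal h) ?_ ?_ ?_ (fun _ _ => dist_nonneg) ?_ atoms inf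
  · intro x u y hne
    exact (show dist x.1 u.1 + dist u.1 y.1 = dist x.1 y.1 from (C.WW_add h x u y hne).1).symm
  · intro x
    exact C.homog h v x
  · intro x y hne
    have h1 : C.kw x.1 y.1 ≠ 0 := fun h0 => hne (by unfold KK; rw [h0]; simp)
    exact C.fiber_sep (by rw [x.2, y.2]) (C.pw_ne (C.kw_ne h1)).1
  · intro B
    have hf := C.finite_ball v.1 B
    rw [tsum_eq_sum (s := hf.toFinset)]
    · rw [ENNReal.sum_ne_top]
      intro y _
      split_ifs
      · exact ENNReal.mul_ne_top ENNReal.ofReal_ne_top ENNReal.ofReal_ne_top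
      · exact ENNReal.zero_ne_top
    · intro y hy
      rw [if_neg]
      intro hle
      exact hy (hf.mem_toFinset.2 hle)

end Core

end Pool.Agent.R192
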