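import Pool.Agent.R192.Meas

set_option autoImplicit false

open Set Filter Topology MeasureTheory
open scoped NNReal ENNReal

noncomputable section

namespace Pool.Agent.R192

open Real

section

variable {Y : Type*} [MetricSpace Y]

theorem ray_zero' {r : Ray Y} {v : Y} (h : r.1 0 = v) (t : ℝ≥0) : dist v (r.1 t) = t := by
  rw [← h, ray_zero]

/-- the tail of a ray -/
def shiftRay (d : ℝ≥0) (r : Ray Y) : Ray Y :=
  ⟨fun t => r.1 (t + d), r.2.comp (Isometry.of_dist_eq fun s t => by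
    rw [NNReal.dist_eq, NNReal.dist_eq]; push_cast; congr 1; ring)⟩

theorem measurable_shiftRay [MeasurableSpace Y] (d : ℝ≥0) :
    Measurable (shiftRay d : Ray Y → Ray Y) :=
  Measurable.subtype_mk (measurable_pi_lambda _ fun s => measurable_ray_eval (s + d))

theorem asymp_shiftRay (d : ℝ≥0) (r : Ray Y) : Asymp r (shiftRay d r) :=
  ⟨d, fun t => by
    show dist (r.1 t) (r.1 (t + d)) ≤ d
    rw [ray_dist_le r le_self_add]; push_cast; linarith⟩

theorem shiftRay_zero (d : ℝ≥0) (r : Ray Y) : (shiftRay d r).1 0 = r.1 d := by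
  show r.1 (0 + d) = r.1 d
  rw [zero_add]

/-- the Busemann function along the ray -/
theorem busemann_ray (r : Ray Y) (d : ℝ≥0) : busemann r (r.1 d) (r.1 0) = -d := by
  apply Tendsto.limUnder_eq
  refine tendsto_const_nhds.congr' ?_
  filter_upwards [eventually_ge_atTop d] with t ht
  rw [ray_dist_le r ht, ray_zero]; ring

/-- points far out on asymptotic curves determine the same initial points -/
theorem IsCatNegOne.eq_of_far (H : IsCatNegOne Y) {v g g' : Y} {r r' : ℕ → Y} {u D : ℝ} (N : ℕ)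
    (h1 : dist v g = u) (h2 : dist v g' = u) (hr : ∀ n ≥ N, Btw v g (r n))
    (hr' : ∀ n ≥ N, Btw v g' (r' n)) (hd : ∀ n ≥ N, (n:ℝ) ≤ dist v (r n))
    (hd' : ∀ n ≥ N, (n:ℝ) ≤ dist v (r' n)) (hD : ∀ n, dist (r n) (r' n) ≤ D) : g = g' := by
  have key : ∀ᶠ n : ℕ in atTop, dist g g' ^ 2 ≤
      8 * exp (0 - 2 * n) + 8 * exp ((2 * u + D) - 2 * n) := by
    filter_upwards [eventually_ge_atTop (N + 1)] with n hn
    have hn1 : (1:ℝ) ≤ n := by exact_mod_cast (by omega : 1 ≤ n)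
    have := H.cmp3 (a := n) (b := n) (c := D) (hr n (by omega)) (hr' n (by omega)) h1 h2
      (hd n (by omega)) (hd' n (by omega)) hn1 hn1 (hD n)
    refine this.trans (le_of_eq ?_)
    congr 3 <;> ring
  have lim := (tendsto_exp_lin 8 0).add (tendsto_exp_lin 8 (2 * u + D))
  rw [add_zero] at lim
  have := ge_of_tendsto lim key
  have h2 : dist g g' ^ 2 = 0 := le_antisymm this (sq_nonneg _)
  exact dist_eq_zero.1 (pow_eq_zero_iff (two_ne_zero) |>.1 h2)

/-- the beginning of a segment -/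
theorem IsCatNegOne.seg_eq (H : IsCatNegOne Y) {x y z : Y} {u : ℝ} (h : Btw x z y)
    (hz : dist x z = u) : seg H x y u = z := by
  have := eq_seg H h
  rw [hz] at this
  exact this.symm

end

namespace Core

variable {Γ Y X : Type*} [Group Γ] [MetricSpace Y] [MetricSpace X] [MulAction Γ Y]
  [IsIsometricSMul Γ Y] {pr : Y → X} {p : X} {w ℓ : ℝ} {Fm Fp : X → ℝ}

/-- the outgoing weight of the segment from `x` to `y` at `x`; the incoming weight at `x` of the segment from `y` to `x` is `wS pr w Fm H x y` -/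
def wS {Y X : Type*} [MetricSpace Y] (pr : Y → X) (w : ℝ) (F : X → ℝ) (H : IsCatNegOne Y)
    (x y : Y) : ℝ := wt w F (fun u => pr (seg H x y u))

variable (C : Core Γ pr p w ℓ Fm Fp)

include C

theorem wS_ray {F : X → ℝ} {x y : Y} (hd : 6 * w ≤ dist x y) {r : Ray Y} (h0 : r.1 0 = x)
    (h1 : r.1 (nndist x y) = y) :
    wS pr w F C.cat x y = wt w F (fun u => pr (r.1 u.toNNReal)) := by
  apply wt_congr C.w_pos.le
  intro u hu0 hu1
  have e : (u.toNNReal : ℝ) = u := Real.coe_toNNReal _ hu0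
  have hle : u.toNNReal ≤ nndist x y := by
    rw [← NNReal.coe_le_coe, e, coe_nndist]; linarith
  rw [C.cat.seg_eq (z := r.1 u.toNNReal)]
  · unfold Btw
    have h2 : dist x (r.1 u.toNNReal) = u := by rw [← h0, ray_zero, e]
    have h3 : dist (r.1 u.toNNReal) y = dist x y - u := by
      nth_rewrite 1 [← h1]
      rw [ray_dist_le r hle, e, coe_nndist]
    rw [h2, h3]; ring
  · rw [← h0, ray_zero, e]

/-- the beginning of a segment is the beginning of a longer one -/
theorem wS_sub {F : X → ℝ} {x y z : Y} (hd : 6 * w ≤ dist x y) (h : Btw x y z) :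
    wS pr w F C.cat x z = wS pr w F C.cat x y := by
  apply wt_congr C.w_pos.le
  intro u hu0 hu1
  rw [C.cat.seg_eq (z := seg C.cat x y u)]
  · exact (btw_seg C.cat hu0 (by linarith)).left h
  · exact dist_left_seg C.cat hu0 (by linarith)

theorem wS_nonneg_p (x y : Y) : 0 ≤ wS pr w Fp C.cat x y := wt_nonneg C.w_pos.le C.Fp_nonneg _
theorem wS_nonneg_m (x y : Y) : 0 ≤ wS pr w Fm C.cat x y := wt_nonneg C.w_pos.le C.Fm_nonneg _
theorem wS_le_p (x y : Y) : wS pr w Fp C.cat x y ≤ 1 :=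
  wt_le_one C.w_pos.le C.w_le C.Fp_nonneg C.Fp_le _
theorem wS_le_m (x y : Y) : wS pr w Fm C.cat x y ≤ 1 :=
  wt_le_one C.w_pos.le C.w_le C.Fm_nonneg C.Fm_le _

/-- a nonzero weight of a segment of length at least `6 w` -/
theorem wS_ne {F : X → ℝ} {x y : Y} (hd : 6 * w ≤ dist x y) (h : wS pr w F C.cat x y ≠ 0) :
    ∃ a, Btw x a y ∧ F (pr a) ≠ 0 ∧ dist x a ≤ 6 * w := by
  obtain ⟨u, h0, h1, h2⟩ := wt_ne C.w_pos.le h
  exact ⟨_, btw_seg C.cat h0 (by linarith), h2, by rw [dist_left_seg C.cat h0 (by linarith)]; exact h1⟩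

/-- concatenation of segments at points of `pr⁻¹ p` -/
theorem seg_glue {x u y : Y} (hu : pr u = p) (hxu : 6 * w ≤ dist u x) (huy : 6 * w ≤ dist u y)
    (h1 : wS pr w Fm C.cat u x ≠ 0) (h2 : wS pr w Fp C.cat u y ≠ 0) : Btw x u y := by
  have hw := C.w_pos
  obtain ⟨a, a1, a2, a3⟩ := C.wS_ne hxu h1
  obtain ⟨b, b1, b2, b3⟩ := C.wS_ne huy h2
  exact C.glue hu a1.symm b1 a2 b2 (by linarith) (by linarith)

/-- rays after a segment -/
theorem ray_hits [CompleteSpace Y] {v y : Y} (hy : pr y = p) (hd : 6 * w ≤ dist v y) {r : Ray Y}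
    (h0 : r.1 0 = v) (h1 : wS pr w Fm C.cat y v ≠ 0)
    (h2 : wt w Fp (fun u => pr ((rayFrom y r).1 u.toNNReal)) ≠ 0) : r.1 (nndist v y) = y := by
  have hw := C.w_pos
  obtain ⟨r0, ras⟩ := rayFrom_spec C.cat y r
  set r₂ := rayFrom y r
  obtain ⟨D, hD⟩ := ras
  obtain ⟨a, a1, a2, a3⟩ := C.wS_ne (by rwa [dist_comm]) h1
  obtain ⟨u', hu0, hu1, hu⟩ := wt_ne hw.le h2
  have eu : (u'.toNNReal : ℝ) = u' := Real.coe_toNNReal _ hu0
  have key : ∀ s : ℝ≥0, u'.toNNReal ≤ s → Btw v y (r₂.1 s) := fun s hs => by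
    have b1 : Btw y (r₂.1 u'.toNNReal) (r₂.1 s) := by
      unfold Btw
      rw [ray_dist_le r₂ hs, ray_zero' r0, ray_zero' r0]; ring
    refine C.glue hy a1.symm b1 a2 hu (by linarith) ?_
    rw [← r0, ray_zero, eu]; linarith
  refine C.cat.eq_of_far (v := v) (u := dist v y) (r := fun n => r.1 n) (r' := fun n => r₂.1 n)
    (D := D) (⌈dist v y⌉₊ + ⌈u'⌉₊) ?_ rfl ?_ ?_ ?_ ?_ (fun n => hD n)
  · rw [← h0, ray_zero, coe_nndist]
  · intro n hn
    have h3 : dist v y ≤ n := (Nat.le_ceil _).trans (by exact_mod_cast (by omega : ⌈dist v y⌉₊ ≤ n))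
    have hle : nndist v y ≤ (n : ℝ≥0) := by
      rw [← NNReal.coe_le_coe, coe_nndist]; exact_mod_cast h3
    unfold Btw
    rw [ray_dist_le r hle, ray_zero' h0, ray_zero' h0]; ring
  · intro n hn
    have h3 : u' ≤ n := (Nat.le_ceil _).trans (by exact_mod_cast (by omega : ⌈u'⌉₊ ≤ n))
    apply key
    rw [← NNReal.coe_le_coe, eu]; exact_mod_cast h3
  · intro n hn
    show (n:ℝ) ≤ dist v (r.1 n)
    rw [← h0, ray_zero]; simp
  · intro n hn
    have h3 : u' ≤ n := (Nat.le_ceil _).trans (by exact_mod_cast (by omega : ⌈u'⌉₊ ≤ n))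
    have := key n (by rw [← NNReal.coe_le_coe, eu]; exact_mod_cast h3)
    unfold Btw at this
    show (n:ℝ) ≤ dist v (r₂.1 n)
    rw [← this, ray_zero' r0]
    have : 0 ≤ dist v y := dist_nonneg
    simp only [NNReal.coe_natCast]; linarith

end Core

end Pool.Agent.R192
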