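import Pool.Agent.R192.Unfold
import Pool.Agent.R192.Seg

set_option autoImplicit false

open Set Filter Topology MeasureTheory
open scoped NNReal ENNReal

noncomputable section

namespace Pool.Agent.R192

open Real

/-- autocorrelation of the tent function -/
def kk (ε u : ℝ) : ℝ≥0∞ := ∫⁻ s, ENNReal.ofReal (tent ε s) * ENNReal.ofReal (tent ε (s + u))

namespace Core

variable {Γ Y X : Type*} [Group Γ] [MetricSpace Y] [MetricSpace X] [MulAction Γ Y]
  [IsIsometricSMul Γ Y] {pr : Y → X} {p : X} {w ℓ : ℝ} {Fm Fp : X → ℝ}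

open Classical in
/-- the term of the point `y` -/
def gterm {Y X : Type*} [MetricSpace Y] (pr : Y → X) (w : ℝ) (Fm Fp : X → ℝ)
    (H : IsCatNegOne Y) (v : Y) (t ε : ℝ) (y : Y) (x : Ray Y × ℝ) : ℝ≥0∞ :=
  if y ≠ v ∧ x.1.1 (nndist v y) = y then
    ENNReal.ofReal (wS pr w Fm H y v) * rw' pr w Fp (shiftRay (nndist v y) x.1) *
      ENNReal.ofReal (tent ε (x.2 + (dist v y - t)))
  else 0

open Classical in
/-- the weight of a pair of points of `pr⁻¹ p` -/
def pw {Y X : Type*} [MetricSpace Y] (pr : Y → X) (w : ℝ) (Fm Fp : X → ℝ)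
    (H : IsCatNegOne Y) (x y : Y) : ℝ :=
  if x = y then 0 else wS pr w Fp H x y * wS pr w Fm H y x

section

variable (C : Core Γ pr p w ℓ Fm Fp)

include C

theorem countable [ProperSpace Y] : Countable {y : Y // pr y = p} := by
  have hw := C.w_pos
  have : (univ : Set {y : Y // pr y = p}).Countable := by
    apply Set.PairwiseDisjoint.countable_of_isOpen (s := fun y => Metric.ball y.1 (20 * w))
    · intro a _ b _ hab
      apply Metric.ball_disjoint_ball
      have := C.fiber_sep (x := a.1) (y := b.1) (by rw [a.2, b.2]) (fun h => hab (Subtype.ext h))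
      linarith
    · exact fun _ _ => Metric.isOpen_ball
    · exact fun y _ => ⟨y.1, Metric.mem_ball_self (by positivity)⟩
  exact countable_univ_iff.1 this

theorem finite_ball [ProperSpace Y] (v : Y) (R : ℝ) :
    Set.Finite {y : {y : Y // pr y = p} | dist v y.1 ≤ R} := by
  have hw := C.w_pos
  have hdisc : IsDiscrete {y : Y | pr y = p} := ⟨DiscreteTopology.of_forall_le_dist (r := 40 * w)
    (by positivity) (fun a b hab => C.fiber_sep (x := a.1) (y := b.1) (by rw [a.2, b.2])
      (fun h => hab (Subtype.ext h)))⟩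
  have hcl : IsClosed {y : Y | pr y = p} := isClosed_eq C.pi_cont continuous_const
  have := Metric.finite_isBounded_inter_isClosed hdisc
    (Metric.isBounded_closedBall (x := v) (r := R)) hcl
  refine Set.Finite.of_finite_image (f := fun y => y.1) (this.subset ?_) Subtype.val_injective.injOn
  rintro _ ⟨y, hy, rfl⟩
  exact ⟨by rw [Metric.mem_closedBall, dist_comm]; exact hy, y.2⟩

theorem pw_nonneg (x y : Y) : 0 ≤ pw pr w Fm Fp C.cat x y := by
  unfold pw
  split_ifs
  · exact le_rfl
  · exact mul_nonneg (C.wS_nonneg_p _ _) (C.wS_nonneg_m _ _)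

theorem measurable_gterm [MeasurableSpace Y] [BorelSpace Y] (v : Y) (t ε : ℝ) (y : Y) :
    Measurable (gterm pr w Fm Fp C.cat v t ε y) := by
  classical
  unfold gterm
  refine Measurable.ite ?_ ?_ measurable_const
  · by_cases hy : y ≠ v
    · simp only [hy, true_and, ne_eq, not_false_eq_true]
      exact ((measurable_ray_eval _).comp measurable_fst) (measurableSet_singleton y)
    · simp [hy]
  · refine (measurable_const.mul ((C.measurable_rw C.Fp_cont).comp
      ((measurable_shiftRay _).comp measurable_fst))).mul ?_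
    exact ENNReal.measurable_ofReal.comp ((continuous_tent ε).measurable.comp
      (measurable_snd.add measurable_const))

/-- expansion of the observable at time `t` along a line through `v` -/
theorem obs_expand {v : Y} (hv : pr v = p) {ε t : ℝ} (hε : 0 < ε) (hεw : ε ≤ w) (ht : 2 * ε < t)
    (l : Line Y) {T : ℝ} (hT : |T| < ε) (hlT : l.1 T = v) :
    ENNReal.ofReal (obs w p Fm Fp ε (fun s => pr (l.1 (s + t)))) =
      ∑' y : {y : Y // pr y = p}, gterm pr w Fm Fp C.cat v t ε y.1 (fwd (shiftL T l), T) := by
  classical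
  have hw := C.w_pos
  obtain ⟨hT1, hT2⟩ := abs_lt.1 hT
  -- points on the line
  have hon : ∀ y : Y, (fwd (shiftL T l)).1 (nndist v y) = y ↔ l.1 (dist v y + T) = y :=
    fun y => Iff.rfl
  by_cases hy : ∃ y : {y : Y // pr y = p}, y.1 ≠ v ∧ (fwd (shiftL T l)).1 (nndist v y.1) = y.1 ∧
      |T + (dist v y.1 - t)| < ε
  · obtain ⟨⟨y, hpy⟩, h1, h2, h3⟩ := hy
    simp only at h1 h2 h3
    rw [tsum_eq_single (⟨y, hpy⟩ : {y : Y // pr y = p})]
    · rw [gterm, if_pos ⟨h1, h2⟩]
      have h2' : l.1 (dist v y + T) = y := h2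
      have hd : 40 * w ≤ dist v y := C.fiber_sep (by rw [hv, hpy]) (Ne.symm h1)
      set l' := shiftL t l with hl'
      set T' := T + (dist v y - t) with hT'
      have e0 : l'.1 T' = y := by
        show l.1 (T' + t) = y
        rw [hT', show T + (dist v y - t) + t = dist v y + T by ring, h2']
      have e1 := C.obs_at l' (T := T') (ε := ε) (by linarith) (by rw [e0, hpy])
      show ENNReal.ofReal (obs w p Fm Fp ε (fun s => pr (l'.1 s))) = _
      rw [e1]
      have f1 : wt w Fm (fun u => pr (l'.1 (T' - u))) = wS pr w Fm C.cat y v := by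
        apply wt_congr hw.le
        intro u hu0 hu1
        have e : l'.1 (T' - u) = l.1 (dist v y + T - u) := by
          show l.1 (T' - u + t) = _
          rw [hT', show T + (dist v y - t) - u + t = dist v y + T - u by ring]
        rw [e]
        have d1 : dist y (l.1 (dist v y + T - u)) = u := by
          nth_rewrite 1 [← h2']
          rw [line_dist, show dist v y + T - (dist v y + T - u) = u by ring, abs_of_nonneg hu0]
        have d2 : dist (l.1 (dist v y + T - u)) v = dist v y - u := by
          nth_rewrite 2 [← hlT]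
          rw [line_dist, show dist v y + T - u - T = dist v y - u by ring,
            abs_of_nonneg (by linarith)]
        rw [C.cat.seg_eq (z := l.1 (dist v y + T - u)) (by
          unfold Btw; rw [d1, d2, dist_comm y v]; ring) d1]
      have f2 : wt w Fp (fun u => pr (l'.1 (T' + u))) =
          wt w Fp (fun u => pr ((shiftRay (nndist v y) (fwd (shiftL T l))).1 u.toNNReal)) := by
        apply wt_congr hw.le
        intro u hu0 hu1
        have e : l'.1 (T' + u) = (shiftRay (nndist v y) (fwd (shiftL T l))).1 u.toNNReal := by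
          show l.1 (T' + u + t) = l.1 (((u.toNNReal + nndist v y : ℝ≥0) : ℝ) + T)
          rw [NNReal.coe_add, Real.coe_toNNReal _ hu0, coe_nndist, hT',
            show T + (dist v y - t) + u + t = u + dist v y + T by ring]
        rw [e]
      rw [f1, f2, ENNReal.ofReal_mul (mul_nonneg (tent_nonneg _ _) (C.wS_nonneg_m _ _)),
        ENNReal.ofReal_mul (tent_nonneg _ _)]
      show _ = _ * ENNReal.ofReal _ * _
      ring
    · rintro ⟨y', hpy'⟩ hne
      rw [gterm]
      split_ifs with hc
      · obtain ⟨c1, c2⟩ := hc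
        simp only at c1 c2 ⊢
        have : tent ε (T + (dist v y' - t)) = 0 := by
          by_contra hcon
          have h4 := tent_ne hε hcon
          apply hne
          apply Subtype.ext
          show y' = y
          apply C.fiber_eq (by rw [hpy, hpy'])
          have c2' : l.1 (dist v y' + T) = y' := c2
          have h2' : l.1 (dist v y + T) = y := h2
          nth_rewrite 1 [← c2']
          nth_rewrite 1 [← h2']
          rw [line_dist, abs_lt]
          rw [abs_lt] at h3 h4
          constructor <;> linarith [h3.1, h3.2, h4.1, h4.2]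
        rw [this]; simp
      · rfl
  · have hz : ∀ y : {y : Y // pr y = p},
        gterm pr w Fm Fp C.cat v t ε y.1 (fwd (shiftL T l), T) = 0 := by
      intro y
      rw [gterm]
      split_ifs with hc
      · have : tent ε (T + (dist v y.1 - t)) = 0 := by
          by_contra hcon
          exact hy ⟨y, hc.1, hc.2, tent_ne hε hcon⟩
        rw [this]; simp
      · rfl
    simp only [hz, tsum_zero]
    by_contra hcon
    have h0 : obs w p Fm Fp ε (fun s => pr ((shiftL t l).1 s)) ≠ 0 := by
      intro h0
      apply hcon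
      show ENNReal.ofReal (obs w p Fm Fp ε (fun s => pr ((shiftL t l).1 s))) = 0
      rw [h0, ENNReal.ofReal_zero]
    obtain ⟨T'', k1, k2⟩ := C.obs_ne _ hε h0
    obtain ⟨k3, k4⟩ := abs_lt.1 k1
    have k2' : pr (l.1 (T'' + t)) = p := k2
    have d1 : dist v (l.1 (T'' + t)) = T'' + t - T := by
      rw [← hlT, line_dist, abs_sub_comm, abs_of_nonneg (by linarith)]
    apply hy
    refine ⟨⟨l.1 (T'' + t), k2'⟩, ?_, ?_, ?_⟩
    · intro h
      have h' : l.1 (T'' + t) = v := h
      rw [h', dist_self] at d1
      linarith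
    · rw [hon]
      show l.1 (dist v (l.1 (T'' + t)) + T) = _
      rw [d1, show T'' + t - T + T = T'' + t by ring]
    · show |T + (dist v (l.1 (T'' + t)) - t)| < ε
      rw [d1, show T + (T'' + t - T - t) = T'' by ring]; exact k1

end

section

variable [MeasurableSpace Y] [BorelSpace Y] [MeasurableSpace X] [BorelSpace X] [ProperSpace Y]
  [SecondCountableTopology X]

variable (C : Core Γ pr p w ℓ Fm Fp) {h : ℝ} {ν : Y → Measure (Ray Y)} {m : Measure (Line Y)}
  {Z : ℝ≥0∞} {μ : Measure (GX X)} (M : MCore Γ pr h ν m Z μ)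

include C M

/-- the total weights do not depend on the point of the fiber -/
theorem mass_eq {F : X → ℝ} (hF : Continuous F) {v y : Y} (hv : pr v = p) (hy : pr y = p) :
    ∫⁻ r, rw' pr w F r ∂ν y = ∫⁻ r, rw' pr w F r ∂ν v := by
  obtain ⟨γ, rfl⟩ := C.orbit (x := v) (y := y) (by rw [hv, hy])
  rw [M.dens.equivariant γ v _ (C.measurable_rw hF)]
  apply lintegral_congr
  intro r
  unfold rw'
  congr 1
  apply wt_congr C.w_pos.le
  intro u _ _
  show F (pr (γ • r.1 u.toNNReal)) = _
  rw [C.pi_smul]

open Classical in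
/-- the mass of the rays through `y` -/
theorem mass_through {v y : Y} (hv : pr v = p) (hy : pr y = p) (hne : y ≠ v)
    (hin : wS pr w Fm C.cat y v ≠ 0) :
    ∫⁻ r, (if r.1 (nndist v y) = y then 1 else 0) * rw' pr w Fp (shiftRay (nndist v y) r) ∂ν v =
      ENNReal.ofReal (exp (-h * dist v y)) * ∫⁻ r, rw' pr w Fp r ∂ν v := by
  classical
  have hw := C.w_pos
  have hd : 40 * w ≤ dist v y := C.fiber_sep (by rw [hv, hy]) (Ne.symm hne)
  rw [← C.mass_eq M C.Fp_cont hv hy, M.dens.conformal v y _ (C.measurable_rw C.Fp_cont),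
    ← lintegral_const_mul']
  swap
  · exact ENNReal.ofReal_ne_top
  apply lintegral_congr_ae
  filter_upwards [M.dens.start v] with r hr
  by_cases hry : r.1 (nndist v y) = y
  · rw [if_pos hry, one_mul]
    have e1 : rayFrom y r = shiftRay (nndist v y) r :=
      rayFrom_eq C.cat (by rw [shiftRay_zero, hry]) (asymp_shiftRay _ _)
    have e2 := busemann_ray r (nndist v y)
    rw [hry, hr, coe_nndist] at e2
    rw [e1, e2, mul_comm (rw' _ _ _ _), ← mul_assoc, ← ENNReal.ofReal_mul (exp_pos _).le, ← exp_add]
    rw [show -h * dist v y + -h * -dist v y = 0 by ring, exp_zero, ENNReal.ofReal_one, one_mul]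
  · rw [if_neg hry, zero_mul]
    symm
    have : rw' pr w Fp (rayFrom y r) = 0 := by
      by_contra hcon
      apply hry
      apply C.ray_hits hy (by linarith) hr hin
      intro h0
      apply hcon
      unfold rw'
      rw [h0, ENNReal.ofReal_zero]
    rw [this]; simp

/-- the mean value -/
theorem mean {v : Y} (hv : pr v = p) {ε : ℝ} (hε : 0 < ε) (hεw : ε ≤ w) :
    Z * ∫⁻ c, ENNReal.ofReal (obs w p Fm Fp ε c.1) ∂μ =
      (∫⁻ r, rw' pr w Fm r ∂ν v) * (∫⁻ r, rw' pr w Fp r ∂ν v) *
        ∫⁻ s, ENNReal.ofReal (tent ε s) := by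
  have := C.unfold M hv hε hεw (fun _ => 1) measurable_const (fun _ => 1) measurable_const
    (fun _ _ _ _ => rfl)
  simp only [mul_one] at this
  rw [this, lintegral_mul_const _ (C.measurable_rw C.Fp_cont), mul_assoc]

/-- the correlation -/
theorem corr {v : Y} (hv : pr v = p) {ε t : ℝ} (hε : 0 < ε) (hεw : ε ≤ w) (ht : 2 * ε < t) :
    Z * ∫⁻ c, ENNReal.ofReal (obs w p Fm Fp ε c.1) *
        ENNReal.ofReal (obs w p Fm Fp ε (flow t c).1) ∂μ =
      (∫⁻ r, rw' pr w Fm r ∂ν v) * (∫⁻ r, rw' pr w Fp r ∂ν v) *
        ∑' y : {y : Y // pr y = p}, ENNReal.ofReal (pw pr w Fm Fp C.cat v y.1) *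
          ENNReal.ofReal (exp (-h * dist v y.1)) * kk ε (dist v y.1 - t) := by
  classical
  haveI := C.countable
  have hw := C.w_pos
  have hE : ∀ u, Measurable fun s : ℝ => ENNReal.ofReal (tent ε (s + u)) := fun u =>
    ENNReal.measurable_ofReal.comp ((continuous_tent ε).measurable.comp
      (measurable_id.add measurable_const))
  have hE0 : Measurable fun s : ℝ => ENNReal.ofReal (tent ε s) :=
    ENNReal.measurable_ofReal.comp (continuous_tent ε).measurable
  have hG : Measurable fun x : Ray Y × ℝ => ∑' y : {y : Y // pr y = p},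
      gterm pr w Fm Fp C.cat v t ε y.1 x := Measurable.tsum fun y =>
        C.measurable_gterm v t ε y.1
  have := C.unfold M hv hε hεw (fun c => ENNReal.ofReal (obs w p Fm Fp ε (flow t c).1))
    (ENNReal.measurable_ofReal.comp (C.measurable_obs_line ε t)) _ hG
    (fun l T hT hlT => C.obs_expand hv hε hεw ht l hT hlT)
  rw [this, mul_assoc]
  congr 1
  have e1 : ∀ r : Ray Y, (∫⁻ s, ENNReal.ofReal (tent ε s) *
      ∑' y : {y : Y // pr y = p}, gterm pr w Fm Fp C.cat v t ε y.1 (r, s)) =
      ∑' y : {y : Y // pr y = p}, (if y.1 ≠ v ∧ r.1 (nndist v y.1) = y.1 then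
        ENNReal.ofReal (wS pr w Fm C.cat y.1 v) * rw' pr w Fp (shiftRay (nndist v y.1) r) else 0) *
          kk ε (dist v y.1 - t) := by
    intro r
    simp only [← ENNReal.tsum_mul_left]
    rw [lintegral_tsum]
    · apply tsum_congr
      intro y
      by_cases hc : y.1 ≠ v ∧ r.1 (nndist v y.1) = y.1
      · simp only [gterm, hc, if_true, ne_eq, not_false_eq_true, and_self]
        rw [kk, ← lintegral_const_mul _ (show Measurable fun s : ℝ =>
          ENNReal.ofReal (tent ε s) * ENNReal.ofReal (tent ε (s + (dist v y.1 - t))) from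
            hE0.mul (hE _))]
        apply lintegral_congr
        intro s
        ring
      · simp only [gterm, hc, if_false, mul_zero, lintegral_zero, zero_mul]
    · intro y
      exact (hE0.mul ((C.measurable_gterm v t ε y.1).comp measurable_prodMk_left)).aemeasurable
  simp only [e1]
  simp only [← ENNReal.tsum_mul_left]
  have hcond : ∀ y : {y : Y // pr y = p}, Measurable fun r : Ray Y =>
      (if y.1 ≠ v ∧ r.1 (nndist v y.1) = y.1 then
        ENNReal.ofReal (wS pr w Fm C.cat y.1 v) * rw' pr w Fp (shiftRay (nndist v y.1) r) else 0) := by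
    intro y
    refine Measurable.ite ?_ ?_ measurable_const
    · by_cases hy : y.1 ≠ v
      · simp only [hy, true_and, ne_eq, not_false_eq_true]
        exact (measurable_ray_eval _) (measurableSet_singleton y.1)
      · simp [hy]
    · exact measurable_const.mul ((C.measurable_rw C.Fp_cont).comp (measurable_shiftRay _))
  rw [lintegral_tsum]
  · apply tsum_congr
    rintro ⟨y, hy⟩
    simp only
    by_cases hyv : y = v
    · subst hyv
      simp [pw]
    by_cases hin : wS pr w Fm C.cat y v = 0
    · simp [pw, hin]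
    have hd : 40 * w ≤ dist v y := C.fiber_sep (by rw [hv, hy]) (Ne.symm hyv)
    have e2 : ∀ᵐ r ∂ν v, rw' pr w Fp r * ((if y ≠ v ∧ r.1 (nndist v y) = y then
        ENNReal.ofReal (wS pr w Fm C.cat y v) * rw' pr w Fp (shiftRay (nndist v y) r) else 0) *
          kk ε (dist v y - t)) =
        (ENNReal.ofReal (pw pr w Fm Fp C.cat v y) * kk ε (dist v y - t)) *
          ((if r.1 (nndist v y) = y then 1 else 0) * rw' pr w Fp (shiftRay (nndist v y) r)) := by
      filter_upwards [M.dens.start v] with r hr
      by_cases hry : r.1 (nndist v y) = y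
      · rw [if_pos ⟨hyv, hry⟩, if_pos hry, one_mul, pw, if_neg (Ne.symm hyv),
          ENNReal.ofReal_mul (C.wS_nonneg_p _ _), C.wS_ray (by linarith) hr hry]
        show ENNReal.ofReal _ * _ = _
        ring
      · rw [if_neg (fun hc => hry hc.2), if_neg hry]; simp
    have hm3 : Measurable fun r : Ray Y =>
        (if r.1 (nndist v y) = y then (1:ℝ≥0∞) else 0) * rw' pr w Fp (shiftRay (nndist v y) r) :=
      (Measurable.ite ((measurable_ray_eval _) (measurableSet_singleton y)) measurable_const
        measurable_const).mul ((C.measurable_rw C.Fp_cont).comp (measurable_shiftRay _))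
    rw [lintegral_congr_ae e2, lintegral_const_mul _ hm3, C.mass_through M hv hy hyv hin]
    ring
  · intro y
    exact ((C.measurable_rw C.Fp_cont).mul ((hcond y).mul measurable_const)).aemeasurable

end

end Core

end Pool.Agent.R192
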