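import Pool.Agent.R192.Cat

set_option autoImplicit false

open Set Filter Topology
open scoped NNReal

noncomputable section

namespace Pool.Agent.R192

open Real

section model

variable {E : Type*} [NormedAddCommGroup E] [InnerProductSpace ℝ E]

/-- time coordinate -/
def tc (a : E) : ℝ := √(1 + ‖a‖ ^ 2)

theorem tc_sq (a : E) : tc a ^ 2 = 1 + ‖a‖ ^ 2 := sq_sqrt (by positivity)

theorem tc_pos (a : E) : 0 < tc a := sqrt_pos.2 (by positivity)

variable {H : Type*} [MetricSpace H] {φ : H → E}

/-- the hyperboloid model -/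
def IsModel (φ : H → E) : Prop := Function.Bijective φ ∧ ∀ z w : H,
    cosh (dist z w) = tc (φ z) * tc (φ w) - inner ℝ (φ z) (φ w)

/-- the spatial part of the line -/
def lsp (a b : E) (d s : ℝ) : E := (sinh (d - s) / sinh d) • a + (sinh s / sinh d) • b

/-- the time part of the line -/
def ltm (a b : E) (d s : ℝ) : ℝ := (sinh (d - s) / sinh d) * tc a + (sinh s / sinh d) * tc b

theorem cosh_inj {x y : ℝ} (hx : 0 ≤ x) (h : cosh x = cosh y) : x = |y| := by
  have h1 : |x| ≤ |y| := cosh_le_cosh.1 h.le
  have h2 : |y| ≤ |x| := cosh_le_cosh.1 h.ge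
  rw [abs_of_nonneg hx] at h1 h2
  linarith

theorem ltm_sq {a b : E} {d : ℝ} (hd : sinh d ≠ 0) (hab : cosh d = tc a * tc b - inner ℝ a b)
    (s : ℝ) : ltm a b d s ^ 2 = 1 + ‖lsp a b d s‖ ^ 2 := by
  have h1 : ‖lsp a b d s‖ ^ 2 = (sinh (d - s) / sinh d) ^ 2 * ‖a‖ ^ 2 +
      2 * ((sinh (d - s) / sinh d) * (sinh s / sinh d)) * inner ℝ a b +
        (sinh s / sinh d) ^ 2 * ‖b‖ ^ 2 := by
    unfold lsp
    rw [norm_add_sq_real, norm_smul, norm_smul, real_inner_smul_left, real_inner_smul_right,
      mul_pow, mul_pow, Real.norm_eq_abs, Real.norm_eq_abs, sq_abs, sq_abs]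
    ring
  have h2 := tc_sq a
  have h3 := tc_sq b
  have h4 : sinh (d - s) ^ 2 + 2 * sinh (d - s) * sinh s * cosh d + sinh s ^ 2 = sinh d ^ 2 := by
    rw [sinh_sub]
    have := cosh_sq s
    have := cosh_sq d
    linear_combination (sinh d ^ 2) * cosh_sq s - sinh s ^ 2 * cosh_sq d
  rw [h1]
  unfold ltm
  field_simp
  have h5 : tc a * tc b = cosh d + inner ℝ a b := by linarith
  linear_combination (sinh (d - s) ^ 2) * h2 + (sinh s ^ 2) * h3 +
    (2 * sinh (d - s) * sinh s) * h5 + h4

theorem ltm_eq {a b : E} {d : ℝ} (hd : 0 < d) (hab : cosh d = tc a * tc b - inner ℝ a b)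
    (s : ℝ) : ltm a b d s = tc (lsp a b d s) := by
  have hsd : 0 < sinh d := sinh_pos_iff.2 hd
  have hsq := ltm_sq hsd.ne' hab
  have hcont : Continuous (ltm a b d) := by
    unfold ltm
    fun_prop
  have hpos : ∀ s, 0 < ltm a b d s := by
    intro s
    by_contra hcon
    push Not at hcon
    have h0 : ltm a b d 0 = tc a := by
      unfold ltm
      rw [sub_zero, sinh_zero, zero_div, zero_mul, add_zero, div_self hsd.ne', one_mul]
    obtain ⟨r, hr⟩ := mem_range_of_exists_le_of_exists_ge hcont ⟨s, hcon⟩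
      ⟨0, by rw [h0]; exact (tc_pos a).le⟩
    have := hsq r
    rw [hr] at this
    have : (0:ℝ) ≤ ‖lsp a b d r‖ ^ 2 := by positivity
    linarith
  unfold tc
  rw [← hsq s, sqrt_sq (hpos s).le]

/-- the line through two points -/
theorem IsModel.exists_line (h : IsModel φ) {z w : H} (hzw : z ≠ w) :
    ∃ c : ℝ → H, c 0 = z ∧ c (dist z w) = w ∧ Isometry c ∧ ∀ (u : H) (s : ℝ),
      cosh (dist u (c s)) * sinh (dist z w) =
        cosh (dist u z) * sinh (dist z w - s) + cosh (dist u w) * sinh s := by
  obtain ⟨hbij, hd⟩ := h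
  set d := dist z w with hdd
  have hd0 : 0 < d := dist_pos.2 hzw
  have hsd : 0 < sinh d := sinh_pos_iff.2 hd0
  obtain ⟨ψ, hψ1, hψ2⟩ := Function.bijective_iff_has_inverse.1 hbij
  set c : ℝ → H := fun s => ψ (lsp (φ z) (φ w) d s) with hc
  have hφc : ∀ s, φ (c s) = lsp (φ z) (φ w) d s := fun s => hψ2 _
  have htc : ∀ s, tc (φ (c s)) = ltm (φ z) (φ w) d s := fun s => by
    rw [hφc, ltm_eq hd0 (hd z w)]
  have key : ∀ (u : H) (s : ℝ), cosh (dist u (c s)) * sinh d =
      cosh (dist u z) * sinh (d - s) + cosh (dist u w) * sinh s := by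
    intro u s
    rw [hd u (c s), htc, hφc, hd u z, hd u w]
    unfold lsp ltm
    rw [inner_add_right, real_inner_smul_right, real_inner_smul_right]
    field_simp
    ring
  have hz : ∀ s, cosh (dist z (c s)) = cosh s := by
    intro s
    have := key z s
    rw [dist_self, cosh_zero, ← hdd, one_mul] at this
    apply mul_right_cancel₀ hsd.ne'
    rw [this, sinh_sub]; ring
  have hw : ∀ s, cosh (dist w (c s)) = cosh (d - s) := by
    intro s
    have := key w s
    rw [dist_self, cosh_zero, dist_comm w z, ← hdd, one_mul] at this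
    apply mul_right_cancel₀ hsd.ne'
    rw [this, cosh_sub, sinh_sub]
    linear_combination (-sinh s) * cosh_sq d
  have hiso : Isometry c := by
    apply Isometry.of_dist_eq
    intro s s'
    rw [Real.dist_eq]
    apply cosh_inj dist_nonneg
    have := key (c s) s'
    rw [dist_comm (c s) z, dist_comm (c s) w, hz, hw] at this
    apply mul_right_cancel₀ hsd.ne'
    rw [this, cosh_sub, cosh_sub, sinh_sub]
    ring
  refine ⟨c, ?_, ?_, hiso, key⟩
  · have := cosh_inj dist_nonneg (hz 0)
    rw [abs_zero] at this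
    exact (dist_eq_zero.1 this).symm
  · have := cosh_inj dist_nonneg (hw d)
    rw [sub_self, abs_zero] at this
    exact (dist_eq_zero.1 this).symm

theorem IsModel.isCatNegOne (h : IsModel φ) : IsCatNegOne H where
  geodesic := by
    intro x y
    rcases eq_or_ne x y with rfl | hxy
    · refine ⟨fun _ => x, rfl, rfl, fun s hs t ht => ?_⟩
      rw [dist_self] at hs ht
      have h1 : s = 0 := le_antisymm hs.2 hs.1
      have h2 : t = 0 := le_antisymm ht.2 ht.1
      rw [h1, h2]; simp
    · obtain ⟨c, h0, h1, h2, -⟩ := h.exists_line hxy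
      exact ⟨c, h0, h1, fun s _ t _ => by rw [h2.dist_eq, Real.dist_eq]⟩
  compare := by
    intro p x y m hm
    rcases eq_or_ne x y with rfl | hxy
    · rw [dist_self, sinh_zero, mul_zero]
      have h1 : 0 ≤ sinh (dist m x) := sinh_nonneg_iff.2 dist_nonneg
      have h2 : 0 ≤ sinh (dist x m) := sinh_nonneg_iff.2 dist_nonneg
      have := cosh_pos (dist p x)
      positivity
    · obtain ⟨c, h0, h1, h2, key⟩ := h.exists_line hxy
      have hsd : 0 < sinh (dist x y) := sinh_pos_iff.2 (dist_pos.2 hxy)
      have e1 : dist m y = dist x y - dist x m := by linarith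
      have : cosh (dist m (c (dist x m))) = 1 := by
        apply mul_right_cancel₀ hsd.ne'
        rw [key, dist_comm m x, e1, one_mul]
        have := sinh_add (dist x y - dist x m) (dist x m)
        rw [sub_add_cancel] at this
        rw [this]; ring
      have hmc : m = c (dist x m) := by
        have h3 := cosh_inj (x := dist m (c (dist x m))) (y := 0) dist_nonneg
          (by rw [this, cosh_zero])
        rw [abs_zero] at h3
        exact dist_eq_zero.1 h3
      have h4 := key p (dist x m)
      rw [← hmc, ← e1] at h4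
      exact h4.le

end model

theorem IsHyperbolicSpace.exists_model {n : ℕ} {H : Type*} [MetricSpace H]
    (h : IsHyperbolicSpace n H) : ∃ φ : H → EuclideanSpace ℝ (Fin n), IsModel φ := h

theorem IsHyperbolicSpace.isCatNegOne {n : ℕ} {H : Type*} [MetricSpace H]
    (h : IsHyperbolicSpace n H) : IsCatNegOne H := by
  obtain ⟨φ, hφ⟩ := h.exists_model
  exact hφ.isCatNegOne

theorem IsHyperbolicSpace.exists_line {n : ℕ} {H : Type*} [MetricSpace H]
    (h : IsHyperbolicSpace n H) {z w : H} (hzw : z ≠ w) :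
    ∃ c : Line H, c.1 0 = z ∧ c.1 (dist z w) = w := by
  obtain ⟨φ, hφ⟩ := h.exists_model
  obtain ⟨c, h0, h1, h2, -⟩ := hφ.exists_line hzw
  exact ⟨⟨c, h2⟩, h0, h1⟩

/-- distance functions are quasiconvex -/
theorem IsCatNegOne.quasi {Y : Type*} [MetricSpace Y] (H : IsCatNegOne Y) {p x m y : Y}
    (h : Btw x m y) : dist p m ≤ max (dist p x) (dist p y) := by
  rcases eq_or_ne x y with rfl | hxy
  · have : x = m := by
      unfold Btw at h
      rw [dist_self] at h
      exact dist_eq_zero.1 (by linarith [dist_nonneg (x := x) (y := m), dist_nonneg (x := m) (y := x)])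
    rw [this]; simp
  · have hc := H.compare p x y m h
    set K := max (dist p x) (dist p y)
    have hK : 0 ≤ K := le_max_of_le_left dist_nonneg
    have h1 : cosh (dist p x) ≤ cosh K := by
      rw [cosh_le_cosh, abs_of_nonneg dist_nonneg, abs_of_nonneg hK]; exact le_max_left _ _
    have h2 : cosh (dist p y) ≤ cosh K := by
      rw [cosh_le_cosh, abs_of_nonneg dist_nonneg, abs_of_nonneg hK]; exact le_max_right _ _
    have s1 : 0 ≤ sinh (dist m y) := sinh_nonneg_iff.2 dist_nonneg
    have s2 : 0 ≤ sinh (dist x m) := sinh_nonneg_iff.2 dist_nonneg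
    have s3 : 0 < sinh (dist x y) := sinh_pos_iff.2 (dist_pos.2 hxy)
    have s4 : sinh (dist m y) + sinh (dist x m) ≤ sinh (dist x y) := by
      have hh : dist x m + dist m y = dist x y := h
      rw [← hh, sinh_add]
      have c1 := one_le_cosh (dist x m)
      have c2 := one_le_cosh (dist m y)
      nlinarith
    have : cosh (dist p m) ≤ cosh K := by
      have hcK := cosh_pos K
      have : cosh (dist p m) * sinh (dist x y) ≤ cosh K * sinh (dist x y) := by nlinarith
      exact le_of_mul_le_mul_right this s3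
    rwa [cosh_le_cosh, abs_of_nonneg dist_nonneg, abs_of_nonneg hK] at this

end Pool.Agent.R192
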