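import Pool.Agent.R192.Cover
import Pool.Agent.R192.Hyp

set_option autoImplicit false

open Set Filter Topology
open scoped NNReal ENNReal

noncomputable section

namespace Pool.Agent.R192

open Real

/-- backward extension of a geodesic segment in a quotient of hyperbolic space -/
theorem side {n : ℕ} {H Γ M : Type*} [MetricSpace H] [Group Γ] [MulAction Γ H]
    [IsIsometricSMul Γ H] [MetricSpace M] {q : H → M} (hH : IsHyperbolicSpace n H)
    (Q : IsQuotientCover Γ q) {L : ℝ} (hL : 0 < L) {σ : ℝ → M}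
    (hσ : ∀ s ∈ Icc 0 L, ∀ t ∈ Icc 0 L, dist (σ s) (σ t) = |s - t|) :
    ∃ w₀ > 0, ∀ w, 0 < w → w ≤ w₀ → ∃ c : ℝ → M, LocGeod c ∧ c 0 = σ 0 ∧
      dist (c (4 * w)) (σ 0) = 4 * w ∧
      ∀ x, dist x (c (4 * w)) < w → ∀ s ∈ Icc 0 L, dist x (σ 0) ≤ dist x (σ s) := by
  have hC := hH.isCatNegOne
  obtain ⟨p, hp⟩ := Q.surjective (σ 0)
  obtain ⟨r, hr, hdis⟩ := Q.displacement p
  set R := r / 4 with hR
  have hR0 : 0 < R := by positivity
  have loc : ∀ {x y : H}, dist p x < R → dist p y < R → dist (q x) (q y) = dist x y :=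
    fun hx hy => Q.loc_of hdis hx hy
  set s₀ := min L (R / 2) with hs₀
  have hs0 : 0 < s₀ := lt_min hL (by positivity)
  have hs0L : s₀ ≤ L := min_le_left _ _
  have hs0R : s₀ ≤ R / 2 := min_le_right _ _
  have m0 : (0:ℝ) ∈ Icc 0 L := ⟨le_rfl, hL.le⟩
  have dσ : ∀ s, 0 ≤ s → s ≤ L → dist (σ 0) (σ s) = s := fun s h1 h2 => by
    rw [hσ 0 m0 s ⟨h1, h2⟩, zero_sub, abs_neg, abs_of_nonneg h1]
  have near : ∀ s, 0 ≤ s → s ≤ s₀ → ∃ y, q y = σ s ∧ dist p y = s := fun s h1 h2 => by
    obtain ⟨y, h3, h4⟩ := Q.exists_near p (σ s)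
    rw [hp, dσ s h1 (h2.trans hs0L)] at h4
    exact ⟨y, h3, h4⟩
  obtain ⟨y₀, hy₀, hy₀'⟩ := near s₀ hs0.le le_rfl
  have hne : p ≠ y₀ := by
    rintro rfl
    rw [dist_self] at hy₀'
    exact hs0.ne hy₀'
  obtain ⟨l, hl0, hl1⟩ := hH.exists_line hne
  rw [hy₀'] at hl1
  have ql : ∀ s, 0 ≤ s → s ≤ s₀ → q (l.1 s) = σ s := fun s h1 h2 => by
    obtain ⟨y, h3, h4⟩ := near s h1 h2
    have d1 : dist y y₀ = s₀ - s := by
      rw [← loc (x := y) (y := y₀) (by rw [h4]; linarith) (by rw [hy₀']; linarith), h3, hy₀,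
        hσ s ⟨h1, h2.trans hs0L⟩ s₀ ⟨hs0.le, hs0L⟩, abs_sub_comm, abs_of_nonneg (by linarith)]
    have d2 : dist p (l.1 s) = s := by
      rw [← hl0, line_dist, zero_sub, abs_neg, abs_of_nonneg h1]
    have d3 : dist (l.1 s) y₀ = s₀ - s := by
      rw [← hl1, line_dist, abs_sub_comm, abs_of_nonneg (by linarith)]
    have : y = l.1 s := by
      apply hC.uniq (x := p) (y := y₀)
      · unfold Btw; rw [h4, d1, hy₀']; ring
      · unfold Btw; rw [d2, d3, hy₀']; ring
      · rw [h4, d2]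
    rw [← this, h3]
  refine ⟨min (s₀ / 10) (R / 10), lt_min (by positivity) (by positivity), fun w hw hw' => ?_⟩
  have w1 : 10 * w ≤ s₀ := by
    have := hw'.trans (min_le_left _ _); linarith
  have w2 : 10 * w ≤ R := by
    have := hw'.trans (min_le_right _ _); linarith
  refine ⟨fun t => q (l.1 (-t)), ?_, ?_, ?_, ?_⟩
  · intro t
    obtain ⟨r', hr', hd'⟩ := Q.displacement (l.1 (-t))
    refine ⟨r' / 4, by positivity, fun s s' h1 h2 => ?_⟩
    show dist (q (l.1 (-s))) (q (l.1 (-s'))) = |s - s'|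
    rw [Q.loc_of hd', line_dist]
    · rw [neg_sub_neg, abs_sub_comm]
    · rw [line_dist, neg_sub_neg]; exact h1
    · rw [line_dist, neg_sub_neg]; exact h2
  · show q (l.1 (-0)) = σ 0
    rw [neg_zero, hl0, hp]
  · show dist (q (l.1 (-(4 * w)))) (σ 0) = 4 * w
    rw [← hp, loc, ← hl0, line_dist, sub_zero, abs_neg, abs_of_pos (by positivity)]
    · rw [← hl0, line_dist, zero_sub, neg_neg, abs_of_pos (by positivity)]; linarith
    · rw [dist_self]; exact hR0
  · intro x hx s hs
    have hx' : dist x (q (l.1 (-(4 * w)))) < w := hx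
    obtain ⟨x', hx1, hx2⟩ := Q.exists_near (l.1 (-(4 * w))) x
    rw [dist_comm (q _) x] at hx2
    have e0 : dist p (l.1 (-(4 * w))) = 4 * w := by
      rw [← hl0, line_dist, zero_sub, neg_neg, abs_of_pos (by positivity)]
    have e1 : dist p x' < 5 * w := by
      have := dist_triangle p (l.1 (-(4 * w))) x'
      linarith
    have e2 : 3 * w < dist p x' := by
      have := dist_triangle p x' (l.1 (-(4 * w)))
      rw [dist_comm x'] at this
      linarith
    have e3 : dist x (σ 0) = dist p x' := by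
      rw [← hx1, ← hp, loc (by linarith) (by rw [dist_self]; exact hR0), dist_comm]
    rcases le_total s s₀ with h | h
    · have e4 : dist x (σ s) = dist x' (l.1 s) := by
        rw [← hx1, ← ql s hs.1 h, loc (by linarith)]
        rw [← hl0, line_dist, zero_sub, abs_neg, abs_of_nonneg hs.1]; linarith
      have hb : Btw (l.1 (-(4 * w))) p (l.1 s) := by
        unfold Btw
        rw [← hl0, line_dist, line_dist, line_dist, sub_zero, zero_sub, abs_neg, abs_neg,
          abs_of_pos (by positivity), abs_of_nonneg hs.1, abs_sub_comm,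
          abs_of_nonneg (by linarith [hs.1])]; ring
      have := hC.quasi (p := x') hb
      rw [e3, e4, dist_comm p x']
      rcases le_max_iff.1 this with h5 | h5
      · exfalso
        rw [dist_comm x' (l.1 (-(4 * w))), dist_comm x' p] at h5
        linarith
      · exact h5
    · have := dist_triangle (σ 0) x (σ s)
      rw [dσ s hs.1 hs.2, dist_comm (σ 0) x] at this
      rw [e3] at this ⊢
      linarith

end Pool.Agent.R192
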