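import Pool.Agent.R192.Defs

set_option autoImplicit false

open Set

namespace Pool.Agent.R192

/-- `X` is obtained from the metric spaces `M₁` and `M₂` by identifying the point `σ₁ s` with the
point `σ₂ s` for all `s ∈ [0, L]`; the maps `j₁ : M₁ → X` and `j₂ : M₂ → X` are the canonical maps.
The distance of `X` is the quotient distance (for length spaces `M₁`, `M₂`: the induced length
metric), that is the largest pseudo-distance for which `j₁` and `j₂` do not increase distances. -/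
structure IsGluing {M₁ M₂ X : Type*} [MetricSpace M₁] [MetricSpace M₂] [MetricSpace X] (L : ℝ)
    (σ₁ : ℝ → M₁) (σ₂ : ℝ → M₂) (j₁ : M₁ → X) (j₂ : M₂ → X) : Prop where
  inj₁ : Function.Injective j₁
  inj₂ : Function.Injective j₂
  surj : ∀ x, (∃ a, j₁ a = x) ∨ ∃ b, j₂ b = x
  glue : ∀ a b, j₁ a = j₂ b ↔ ∃ s ∈ Icc 0 L, a = σ₁ s ∧ b = σ₂ s
  lip₁ : ∀ a a', dist (j₁ a) (j₁ a') ≤ dist a a'
  lip₂ : ∀ b b', dist (j₂ b) (j₂ b') ≤ dist b b'
  largest : ∀ δ : X → X → ℝ, (∀ x, δ x x = 0) → (∀ x y, δ x y = δ y x) →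
    (∀ x y z, δ x z ≤ δ x y + δ y z) → (∀ a a', δ (j₁ a) (j₁ a') ≤ dist a a') →
    (∀ b b', δ (j₂ b) (j₂ b') ≤ dist b b') → ∀ x y, δ x y ≤ dist x y

end Pool.Agent.R192
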