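import Pool.Agent.R192.Cover
import Pool.Agent.R192.Hyp
import Pool.Agent.R192.GlueDef

set_option autoImplicit false

open Set Filter Topology
open scoped NNReal ENNReal

noncomputable section

namespace Pool.Agent.R192

open Real

namespace IsGluing

variable {M₁ M₂ X : Type*} [MetricSpace M₁] [MetricSpace M₂] [MetricSpace X] {L : ℝ}
  {σ₁ : ℝ → M₁} {σ₂ : ℝ → M₂} {j₁ : M₁ → X} {j₂ : M₂ → X}

theorem symm (G : IsGluing L σ₁ σ₂ j₁ j₂) : IsGluing L σ₂ σ₁ j₂ j₁ where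
  inj₁ := G.inj₂
  inj₂ := G.inj₁
  surj := fun x => (G.surj x).symm
  glue := fun b a => by
    rw [eq_comm, G.glue]
    constructor
    · rintro ⟨s, hs, h1, h2⟩; exact ⟨s, hs, h2, h1⟩
    · rintro ⟨s, hs, h1, h2⟩; exact ⟨s, hs, h2, h1⟩
  lip₁ := G.lip₂
  lip₂ := G.lip₁
  largest := fun δ h1 h2 h3 h4 h5 => G.largest δ h1 h2 h3 h5 h4

variable (G : IsGluing L σ₁ σ₂ j₁ j₂)

include G

/-- functions on the gluing -/
theorem exists_fun {f₁ : M₁ → ℝ} {f₂ : M₂ → ℝ} (h : ∀ s ∈ Icc 0 L, f₁ (σ₁ s) = f₂ (σ₂ s))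
    (h₁ : ∀ a a', |f₁ a - f₁ a'| ≤ dist a a') (h₂ : ∀ b b', |f₂ b - f₂ b'| ≤ dist b b') :
    ∃ f : X → ℝ, (∀ a, f (j₁ a) = f₁ a) ∧ (∀ b, f (j₂ b) = f₂ b) ∧
      ∀ x y, |f x - f y| ≤ dist x y := by
  classical
  set f : X → ℝ := fun x => if hx : ∃ a, j₁ a = x then f₁ hx.choose else
    if hx : ∃ b, j₂ b = x then f₂ hx.choose else 0 with hf
  have e1 : ∀ a, f (j₁ a) = f₁ a := by
    intro a
    have hx : ∃ a', j₁ a' = j₁ a := ⟨a, rfl⟩
    show (if hx : ∃ a', j₁ a' = j₁ a then f₁ hx.choose else _) = _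
    rw [dif_pos hx]
    congr 1
    exact G.inj₁ hx.choose_spec
  have e2 : ∀ b, f (j₂ b) = f₂ b := by
    intro b
    by_cases hx : ∃ a, j₁ a = j₂ b
    · obtain ⟨a, ha⟩ := hx
      rw [← ha, e1]
      obtain ⟨s, hs, rfl, rfl⟩ := (G.glue a b).1 ha
      exact h s hs
    · have hx' : ∃ b', j₂ b' = j₂ b := ⟨b, rfl⟩
      show (if hx : ∃ a', j₁ a' = j₂ b then f₁ hx.choose else
        if hx : ∃ b', j₂ b' = j₂ b then f₂ hx.choose else 0) = _
      rw [dif_neg hx, dif_pos hx']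
      congr 1
      exact G.inj₂ hx'.choose_spec
  refine ⟨f, e1, e2, fun x y => ?_⟩
  refine G.largest (fun x y => |f x - f y|) (fun x => by simp) (fun x y => abs_sub_comm _ _)
    (fun x y z => abs_sub_le _ _ _) (fun a a' => ?_) (fun b b' => ?_) x y
  · rw [e1, e1]; exact h₁ a a'
  · rw [e2, e2]; exact h₂ b b'

/-- lower bound for the distance of points in the two pieces -/
theorem dist_ge {a : M₁} {b : M₂} {r₁ r₂ : ℝ} (hL : 0 ≤ L) (h₁ : ∀ s ∈ Icc 0 L, r₁ ≤ dist a (σ₁ s))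
    (h₂ : ∀ s ∈ Icc 0 L, r₂ ≤ dist b (σ₂ s)) : r₁ + r₂ ≤ dist (j₁ a) (j₂ b) := by
  have ne₁ : (σ₁ '' Icc 0 L).Nonempty := (nonempty_Icc.2 hL).image _
  have ne₂ : (σ₂ '' Icc 0 L).Nonempty := (nonempty_Icc.2 hL).image _
  obtain ⟨f, e1, e2, hf⟩ := G.exists_fun (f₁ := fun a => -Metric.infDist a (σ₁ '' Icc 0 L))
    (f₂ := fun b => Metric.infDist b (σ₂ '' Icc 0 L))
    (fun s hs => by
      rw [Metric.infDist_zero_of_mem (mem_image_of_mem _ hs),
        Metric.infDist_zero_of_mem (mem_image_of_mem _ hs), neg_zero])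
    (fun a a' => by
      rw [neg_sub_neg, abs_sub_comm, ← Real.dist_eq]
      have := (Metric.lipschitz_infDist_pt (σ₁ '' Icc 0 L)).dist_le_mul a a'
      simpa using this)
    (fun b b' => by
      rw [← Real.dist_eq]
      have := (Metric.lipschitz_infDist_pt (σ₂ '' Icc 0 L)).dist_le_mul b b'
      simpa using this)
  have h3 := hf (j₂ b) (j₁ a)
  rw [e1, e2, dist_comm] at h3
  have h4 : r₁ ≤ Metric.infDist a (σ₁ '' Icc 0 L) := by
    rw [Metric.le_infDist ne₁]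
    rintro _ ⟨s, hs, rfl⟩
    exact h₁ s hs
  have h5 : r₂ ≤ Metric.infDist b (σ₂ '' Icc 0 L) := by
    rw [Metric.le_infDist ne₂]
    rintro _ ⟨s, hs, rfl⟩
    exact h₂ s hs
  have := le_abs_self (Metric.infDist b (σ₂ '' Icc 0 L) - -Metric.infDist a (σ₁ '' Icc 0 L))
  linarith

/-- near a point of `M₁` off the segment, `X` is `M₁` -/
theorem near_pt {z : M₁} {r : ℝ} (hz : ∀ s ∈ Icc 0 L, r ≤ dist z (σ₁ s)) {x : X}
    (hx : dist x (j₁ z) < r) : ∃ a, j₁ a = x ∧ dist a z = dist x (j₁ z) := by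
  have hr : 0 < r := dist_nonneg.trans_lt hx
  obtain ⟨f, e1, e2, hf⟩ := G.exists_fun (f₁ := fun a => min (dist a z) r)
    (f₂ := fun _ => r)
    (fun s hs => by
      show min (dist (σ₁ s) z) r = r
      rw [dist_comm]; exact min_eq_right (hz s hs))
    (fun a a' => by
      refine (abs_min_sub_min_le_max _ _ _ _).trans (max_le (abs_dist_sub_le _ _ _) ?_)
      rw [sub_self, abs_zero]; exact dist_nonneg)
    (fun b b' => by rw [sub_self, abs_zero]; exact dist_nonneg)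
  have f0 : f (j₁ z) = 0 := by
    rw [e1, dist_self]; exact min_eq_left hr.le
  have h1 := hf x (j₁ z)
  rw [f0, sub_zero] at h1
  have h2 := (le_abs_self _).trans h1
  rcases G.surj x with ⟨a, rfl⟩ | ⟨b, rfl⟩
  · refine ⟨a, rfl, ?_⟩
    rw [e1] at h2
    have h3 : dist a z ≤ dist (j₁ a) (j₁ z) := by
      rcases min_le_iff.1 h2 with h | h
      · exact h
      · linarith
    exact le_antisymm h3 (G.lip₁ _ _)
  · rw [e2] at h2
    linarith

/-- `j₁` is a local isometry -/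
theorem locIso {r : ℝ} (hr : 0 < r) (hlip : ∀ s t, dist (σ₁ s) (σ₁ t) ≤ |s - t|)
    (hσ : ∀ s ∈ Icc 0 L, ∀ t ∈ Icc 0 L, dist (σ₂ s) (σ₂ t) = |s - t| ∨ r ≤ dist (σ₂ s) (σ₂ t))
    (hinj : InjOn σ₂ (Icc 0 L)) {a a' : M₁} (h : dist a a' < r) :
    dist (j₁ a) (j₁ a') = dist a a' := by
  classical
  set f₁ : M₁ → ℝ := fun x => min (dist x a') r with hf₁
  have lip₁ : ∀ x y, |f₁ x - f₁ y| ≤ dist x y := fun x y => by
    refine (abs_min_sub_min_le_max _ _ _ _).trans (max_le (abs_dist_sub_le _ _ _) ?_)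
    rw [sub_self, abs_zero]; exact dist_nonneg
  have f0 : ∀ x, 0 ≤ f₁ x := fun x => le_min dist_nonneg hr.le
  have fr : ∀ x, f₁ x ≤ r := fun x => min_le_right _ _
  -- the function on the segment in `M₂`
  set g : M₂ → ℝ := fun b => if hb : ∃ s ∈ Icc 0 L, σ₂ s = b then f₁ (σ₁ hb.choose) else 0 with hg
  have gs : ∀ s ∈ Icc 0 L, g (σ₂ s) = f₁ (σ₁ s) := by
    intro s hs
    have hb : ∃ t ∈ Icc 0 L, σ₂ t = σ₂ s := ⟨s, hs, rfl⟩
    show (if hb : ∃ t ∈ Icc 0 L, σ₂ t = σ₂ s then f₁ (σ₁ hb.choose) else 0) = _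
    rw [dif_pos hb, hinj hb.choose_spec.1 hs hb.choose_spec.2]
  have gl : LipschitzOnWith 1 g (σ₂ '' Icc 0 L) := by
    apply LipschitzOnWith.of_dist_le_mul
    rintro _ ⟨s, hs, rfl⟩ _ ⟨t, ht, rfl⟩
    rw [gs s hs, gs t ht, NNReal.coe_one, one_mul, Real.dist_eq]
    rcases hσ s hs t ht with h1 | h1
    · rw [h1]; exact (lip₁ _ _).trans (hlip _ _)
    · refine le_trans ?_ h1
      rw [abs_le]
      constructor <;> linarith [f0 (σ₁ s), f0 (σ₁ t), fr (σ₁ s), fr (σ₁ t)]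
  obtain ⟨f₂, hf₂, heq⟩ := gl.extend_real
  obtain ⟨f, e1, e2, hf⟩ := G.exists_fun (f₁ := f₁) (f₂ := f₂)
    (fun s hs => by rw [← heq (mem_image_of_mem _ hs), gs s hs]) lip₁
    (fun b b' => by
      rw [← Real.dist_eq]
      have := hf₂.dist_le_mul b b'
      simpa using this)
  apply le_antisymm (G.lip₁ _ _)
  have h1 := hf (j₁ a) (j₁ a')
  rw [e1, e1] at h1
  have h2 : f₁ a = dist a a' := min_eq_left h.le
  have h3 : f₁ a' = 0 := by
    show min (dist a' a') r = 0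
    rw [dist_self]; exact min_eq_left hr.le
  rw [h2, h3, sub_zero, abs_of_nonneg dist_nonneg] at h1
  exact h1

end IsGluing

/-- a geodesic segment in a compact quotient of hyperbolic space -/
theorem side2 {n : ℕ} {H Γ M : Type*} [MetricSpace H] [Group Γ] [MulAction Γ H]
    [IsIsometricSMul Γ H] [MetricSpace M] [CompactSpace M] {q : H → M}
    (hH : IsHyperbolicSpace n H) (Q : IsQuotientCover Γ q) {L : ℝ} (hL : 0 < L) {σ : ℝ → M}
    (hσ : LocGeod σ) (hinj : InjOn σ (Icc 0 L)) :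
    ∃ w₀ > 0, (∀ s t, |s - t| < 10 * w₀ → dist (σ s) (σ t) = |s - t|) ∧
      (∀ s t, dist (σ s) (σ t) ≤ |s - t|) ∧
      (∀ s ∈ Icc 0 L, ∀ t ∈ Icc 0 L, dist (σ s) (σ t) = |s - t| ∨ 10 * w₀ ≤ dist (σ s) (σ t)) ∧
      ∀ w, 0 < w → w ≤ w₀ → ∀ x, dist x (σ (-(4 * w))) < w → ∀ s ∈ Icc 0 L,
        dist x (σ 0) ≤ dist x (σ s) := by
  have hC := hH.isCatNegOne
  obtain ⟨ρ, hρ, hun⟩ := Q.uniform
  set R := ρ / 4 with hR
  have hR0 : 0 < R := by positivity
  have loc : ∀ z x y : H, dist z x < R → dist z y < R → dist (q x) (q y) = dist x y :=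
    fun z x y hx hy => Q.loc_of (hun z) hx hy
  obtain ⟨p, hp⟩ := Q.surjective (σ 0)
  obtain ⟨l, hl0, hl⟩ := Q.lift_locGeod hC hR0 loc σ hσ p hp
  have hlip : ∀ s t, dist (σ s) (σ t) ≤ |s - t| := fun s t => by
    rw [← hl, ← hl, ← line_dist l]; exact Q.pi_lip _ _
  have hloc : ∀ s t, |s - t| < R → dist (σ s) (σ t) = |s - t| := fun s t h => by
    rw [← hl, ← hl, loc (l.1 s) _ _ (by rw [dist_self]; exact hR0) (by rw [line_dist]; exact h),
      line_dist]
  -- separation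
  obtain ⟨m, hm, hsep⟩ : ∃ m > 0, ∀ s ∈ Icc 0 L, ∀ t ∈ Icc 0 L, R ≤ |s - t| →
      m ≤ dist (σ s) (σ t) := by
    have hK : IsCompact {x : ℝ × ℝ | x ∈ Icc 0 L ×ˢ Icc 0 L ∧ R ≤ |x.1 - x.2|} :=
      (isCompact_Icc.prod isCompact_Icc).inter_right (isClosed_le continuous_const
        (continuous_fst.sub continuous_snd).abs)
    rcases {x : ℝ × ℝ | x ∈ Icc 0 L ×ˢ Icc 0 L ∧ R ≤ |x.1 - x.2|}.eq_empty_or_nonempty with he | he
    · refine ⟨1, one_pos, fun s hs t ht h => ?_⟩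
      exact absurd (show (s, t) ∈ {x : ℝ × ℝ | x ∈ Icc 0 L ×ˢ Icc 0 L ∧ R ≤ |x.1 - x.2|} from
        ⟨⟨hs, ht⟩, h⟩) (he ▸ notMem_empty _)
    · obtain ⟨⟨s₁, t₁⟩, ⟨⟨h1, h2⟩, h3⟩, hmin⟩ := hK.exists_isMinOn he
        (f := fun x : ℝ × ℝ => dist (σ x.1) (σ x.2))
        ((hσ.continuous.comp continuous_fst).dist (hσ.continuous.comp continuous_snd)).continuousOn
      refine ⟨dist (σ s₁) (σ t₁), dist_pos.2 fun h => ?_, fun s hs t ht h => by
        have hmem : (s, t) ∈ {x : ℝ × ℝ | x ∈ Icc 0 L ×ˢ Icc 0 L ∧ R ≤ |x.1 - x.2|} :=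
          ⟨⟨hs, ht⟩, h⟩
        exact hmin hmem⟩
      have h4 : s₁ = t₁ := hinj h1 h2 h
      simp only at h3
      rw [h4, sub_self, abs_zero] at h3
      linarith
  set s₀ := min L (R / 2) with hs₀
  have hs0 : 0 < s₀ := lt_min hL (by positivity)
  have hs0L : s₀ ≤ L := min_le_left _ _
  have hs0R : s₀ ≤ R / 2 := min_le_right _ _
  set w₀ := min (s₀ / 10) (min (R / 10) (m / 10)) with hw₀
  have hw0 : 0 < w₀ := by positivity
  have k1 : 10 * w₀ ≤ s₀ := by
    have : w₀ ≤ s₀ / 10 := min_le_left _ _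
    linarith
  have k2 : 10 * w₀ ≤ R := by
    have : w₀ ≤ R / 10 := (min_le_right _ _).trans (min_le_left _ _)
    linarith
  have k3 : 10 * w₀ ≤ m := by
    have : w₀ ≤ m / 10 := (min_le_right _ _).trans (min_le_right _ _)
    linarith
  refine ⟨w₀, hw0, fun s t h => hloc s t (by linarith), hlip, fun s hs t ht => ?_,
    fun w hw hw' => ?_⟩
  · rcases lt_or_ge |s - t| R with h | h
    · exact Or.inl (hloc s t h)
    · exact Or.inr (k3.trans (hsep s hs t ht h))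
  · intro x hx s hs
    rw [← hl] at hx
    obtain ⟨x', hx1, hx2⟩ := Q.exists_near (l.1 (-(4 * w))) x
    rw [dist_comm (q _) x] at hx2
    have e0 : dist (l.1 0) (l.1 (-(4 * w))) = 4 * w := by
      rw [line_dist, zero_sub, neg_neg, abs_of_pos (by positivity)]
    have e1 : dist (l.1 0) x' < 5 * w := by
      have := dist_triangle (l.1 0) (l.1 (-(4 * w))) x'
      linarith
    have e2 : 3 * w < dist (l.1 0) x' := by
      have := dist_triangle (l.1 0) x' (l.1 (-(4 * w)))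
      rw [dist_comm x'] at this
      linarith
    have e3 : dist x (σ 0) = dist (l.1 0) x' := by
      rw [← hx1, ← hl, loc (l.1 0) _ _ (by linarith) (by rw [dist_self]; exact hR0), dist_comm]
    rcases lt_or_ge s (R / 2) with h | h
    · have e4 : dist x (σ s) = dist x' (l.1 s) := by
        rw [← hx1, ← hl, loc (l.1 0) _ _ (by linarith)]
        rw [line_dist, zero_sub, abs_neg, abs_of_nonneg hs.1]; linarith
      have hb : Btw (l.1 (-(4 * w))) (l.1 0) (l.1 s) := by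
        unfold Btw
        rw [line_dist, line_dist, line_dist, sub_zero, zero_sub, abs_neg, abs_neg,
          abs_of_pos (by positivity), abs_of_nonneg hs.1, abs_sub_comm,
          abs_of_nonneg (by linarith [hs.1])]; ring
      have := hC.quasi (p := x') hb
      rw [e3, e4, dist_comm (l.1 0) x']
      rcases le_max_iff.1 this with h5 | h5
      · exfalso
        rw [dist_comm x' (l.1 (-(4 * w))), dist_comm x' (l.1 0)] at h5
        linarith
      · exact h5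
    · have h10 : 10 * w ≤ dist (σ 0) (σ s) := by
        rcases lt_or_ge s R with h6 | h6
        · rw [hloc 0 s (by rw [zero_sub, abs_neg, abs_of_nonneg hs.1]; exact h6), zero_sub, abs_neg,
            abs_of_nonneg hs.1]
          linarith
        · have := hsep 0 ⟨le_rfl, hL.le⟩ s hs (by rw [zero_sub, abs_neg, abs_of_nonneg hs.1]; exact h6)
          linarith
      have := dist_triangle (σ 0) x (σ s)
      rw [dist_comm (σ 0) x] at this
      rw [e3] at this ⊢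
      linarith

end Pool.Agent.R192
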