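import Pool.Agent.R192.Core

set_option autoImplicit false

open Set Filter Topology MeasureTheory
open scoped NNReal ENNReal

noncomputable section

namespace Pool.Agent.R192

open Real

section

variable {Y : Type*} [MetricSpace Y]

/-- the reversed line -/
def revL (l : Line Y) : Line Y :=
  ⟨fun t => l.1 (-t), l.2.comp (Isometry.of_dist_eq fun s t => by
    rw [Real.dist_eq, Real.dist_eq, neg_sub_neg, abs_sub_comm])⟩

theorem asymp_shift (l : Line Y) (T : ℝ) : Asymp (fwd l) (fwd (shiftL T l)) :=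
  ⟨|T|, fun t => by
    show dist (l.1 t) (l.1 (t + T)) ≤ |T|
    rw [line_dist]; simp⟩

theorem asymp_shift' (l : Line Y) (T : ℝ) : Asymp (bwd l) (bwd (shiftL T l)) :=
  ⟨|T|, fun t => by
    show dist (l.1 (-t)) (l.1 (-t + T)) ≤ |T|
    rw [line_dist]; simp⟩

theorem busemann_fwd (l : Line Y) (T : ℝ) : busemann (fwd l) (l.1 T) (l.1 0) = -T := by
  apply Tendsto.limUnder_eq
  refine tendsto_const_nhds.congr' ?_
  filter_upwards [eventually_ge_atTop (T.toNNReal)] with t ht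
  have h1 : T ≤ t := (Real.le_coe_toNNReal T).trans (by exact_mod_cast ht)
  show -T = dist (l.1 T) (l.1 t) - dist (l.1 0) (l.1 t)
  rw [line_dist, line_dist, abs_sub_comm, abs_of_nonneg (by linarith), abs_sub_comm, sub_zero,
    abs_of_nonneg t.coe_nonneg]; ring

theorem busemann_bwd (l : Line Y) (T : ℝ) : busemann (bwd l) (l.1 T) (l.1 0) = T := by
  apply Tendsto.limUnder_eq
  refine tendsto_const_nhds.congr' ?_
  filter_upwards [eventually_ge_atTop ((-T).toNNReal)] with t ht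
  have h1 : -T ≤ t := (Real.le_coe_toNNReal (-T)).trans (by exact_mod_cast ht)
  show T = dist (l.1 T) (l.1 (-t)) - dist (l.1 0) (l.1 (-t))
  rw [line_dist, line_dist, sub_neg_eq_add, abs_of_nonneg (by linarith), sub_neg_eq_add, zero_add,
    abs_of_nonneg t.coe_nonneg]; ring

theorem IsCatNegOne.rayFrom_fwd [CompleteSpace Y] (H : IsCatNegOne Y) (l : Line Y) (T : ℝ) :
    rayFrom (l.1 T) (fwd l) = fwd (shiftL T l) :=
  rayFrom_eq H (by show l.1 (0 + T) = l.1 T; rw [zero_add]) (asymp_shift l T)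

theorem IsCatNegOne.rayFrom_bwd [CompleteSpace Y] (H : IsCatNegOne Y) (l : Line Y) (T : ℝ) :
    rayFrom (l.1 T) (bwd l) = bwd (shiftL T l) :=
  rayFrom_eq H (by show l.1 (-(0:ℝ≥0) + T) = l.1 T; simp) (asymp_shift' l T)

theorem ray_zero (r : Ray Y) (t : ℝ≥0) : dist (r.1 0) (r.1 t) = t := by
  rw [ray_dist_le r zero_le]; simp

/-- concatenation of two rays -/
theorem exists_concat {r r' : Ray Y} (h0 : r.1 0 = r'.1 0)
    (h : ∀ s s' : ℝ≥0, dist (r.1 s) (r'.1 s') = (s:ℝ) + s') :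
    ∃ L : Line Y, L.1 0 = r.1 0 ∧ bwd L = r ∧ fwd L = r' := by
  classical
  set g : ℝ → Y := fun t => if 0 ≤ t then r'.1 t.toNNReal else r.1 (-t).toNNReal with hg
  have g1 : ∀ t, 0 ≤ t → g t = r'.1 t.toNNReal := fun t ht => if_pos ht
  have g2 : ∀ t, t < 0 → g t = r.1 (-t).toNNReal := fun t ht => if_neg (not_le.2 ht)
  have iso : Isometry g := by
    apply Isometry.of_dist_eq
    intro s t
    rw [Real.dist_eq]
    rcases le_or_gt 0 s with hs | hs <;> rcases le_or_gt 0 t with ht | ht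
    · rw [g1 s hs, g1 t ht, ray_dist, Real.coe_toNNReal _ hs, Real.coe_toNNReal _ ht]
    · rw [g1 s hs, g2 t ht, dist_comm, h, Real.coe_toNNReal _ hs, Real.coe_toNNReal _ (by linarith),
        abs_of_nonneg (by linarith)]; ring
    · rw [g2 s hs, g1 t ht, h, Real.coe_toNNReal _ ht, Real.coe_toNNReal _ (by linarith),
        abs_sub_comm, abs_of_nonneg (by linarith)]; ring
    · rw [g2 s hs, g2 t ht, ray_dist, Real.coe_toNNReal _ (by linarith),
        Real.coe_toNNReal _ (by linarith), neg_sub_neg, abs_sub_comm]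
  refine ⟨⟨g, iso⟩, ?_, ?_, ?_⟩
  · show g 0 = _
    rw [g1 0 le_rfl, Real.toNNReal_zero, h0]
  · apply Subtype.ext
    funext t
    show g (-(t:ℝ)) = r.1 t
    rcases eq_or_lt_of_le t.coe_nonneg with ht | ht
    · obtain rfl : t = 0 := NNReal.coe_eq_zero.1 ht.symm
      rw [NNReal.coe_zero, neg_zero, g1 0 le_rfl, Real.toNNReal_zero, ← h0]
    · rw [g2 _ (by linarith), neg_neg, Real.toNNReal_coe]
  · apply Subtype.ext
    funext t
    show g (t:ℝ) = r'.1 t
    rw [g1 _ t.coe_nonneg, Real.toNNReal_coe]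

end

namespace Core

variable {Γ Y X : Type*} [Group Γ] [MetricSpace Y] [MetricSpace X] [MulAction Γ Y]
  [IsIsometricSMul Γ Y] {pr : Y → X} {p : X} {w ℓ : ℝ} {Fm Fp : X → ℝ}

variable (C : Core Γ pr p w ℓ Fm Fp)

include C

theorem obs_at (l : Line Y) {T ε : ℝ} (hT : |T| ≤ w) (hv : pr (l.1 T) = p) :
    obs w p Fm Fp ε (fun t => pr (l.1 t)) =
      tent ε T * wt w Fm (fun u => pr (l.1 (T - u))) * wt w Fp (fun u => pr (l.1 (T + u))) := by
  have hw := C.w_pos
  unfold obs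
  rw [C.tm_at l (by linarith) hv, C.wt_at l hT hv]
  have h := C.symm.wt_at (revL l) (T := -T) (by rwa [abs_neg])
    (by show pr (l.1 (- -T)) = p; rwa [neg_neg])
  have e1 : (fun u => pr ((revL l).1 (-T + u))) = fun u => pr (l.1 (T - u)) := by
    funext u
    show pr (l.1 (-(-T + u))) = _
    rw [show -(-T + u) = T - u by ring]
  rw [e1] at h
  rw [h]; rfl

theorem obs_ne (l : Line Y) {ε : ℝ} (hε : 0 < ε)
    (h : obs w p Fm Fp ε (fun t => pr (l.1 t)) ≠ 0) : ∃ T, |T| < ε ∧ pr (l.1 T) = p := by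
  unfold obs at h
  obtain ⟨T, h1, h2, h3⟩ := C.passes l (fun h0 => h (by rw [h0]; ring)) (fun h0 => h (by rw [h0]; ring))
  refine ⟨T, tent_ne hε fun h0 => h ?_, h2⟩
  rw [h3, h0]; ring

theorem lift_unique {l l' : Line Y} (h : ∀ t, pr (l.1 t) = pr (l'.1 t)) (h0 : l.1 0 = l'.1 0) :
    l = l' := by
  have hw := C.w_pos
  have hcl : IsClosed {t | l.1 t = l'.1 t} := isClosed_eq l.2.continuous l'.2.continuous
  have hop : IsOpen {t | l.1 t = l'.1 t} := by
    rw [Metric.isOpen_iff]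
    intro t ht
    refine ⟨20 * w, by positivity, fun s hs => ?_⟩
    rw [Metric.mem_ball, Real.dist_eq] at hs
    have ht' : l.1 t = l'.1 t := ht
    apply C.fiber_eq (h s)
    have := dist_triangle (l.1 s) (l.1 t) (l'.1 s)
    have h1 := line_dist l s t
    have h2 := line_dist l' t s
    rw [← ht', abs_sub_comm] at h2
    linarith
  have := (IsClopen.eq_univ ⟨hcl, hop⟩ ⟨0, h0⟩)
  apply Subtype.ext
  funext t
  exact (this ▸ mem_univ t : t ∈ {t | l.1 t = l'.1 t})

/-- the weight of a ray -/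
theorem ray_glue {v : Y} (hv : pr v = p) {r r' : Ray Y} (h0 : r.1 0 = v) (h0' : r'.1 0 = v)
    (h1 : wt w Fm (fun u => pr (r.1 u.toNNReal)) ≠ 0)
    (h2 : wt w Fp (fun u => pr (r'.1 u.toNNReal)) ≠ 0) (s s' : ℝ≥0) :
    dist (r.1 s) (r'.1 s') = (s:ℝ) + s' := by
  have hw := C.w_pos
  obtain ⟨u, hu0, hu1, hu⟩ := wt_ne hw.le h1
  obtain ⟨u', hu0', hu1', hu'⟩ := wt_ne hw.le h2
  set U := u.toNNReal
  set U' := u'.toNNReal
  have hU : (U:ℝ) = u := Real.coe_toNNReal _ hu0
  have hU' : (U':ℝ) = u' := Real.coe_toNNReal _ hu0'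
  set S := max s U
  set S' := max s' U'
  have b1 : Btw (r.1 S) (r.1 U) v := by
    unfold Btw
    rw [← h0, dist_comm, ray_dist_le r (le_max_right _ _), dist_comm _ (r.1 0), dist_comm _ (r.1 0),
      ray_zero, ray_zero]; ring
  have b2 : Btw v (r'.1 U') (r'.1 S') := by
    unfold Btw
    rw [← h0', ray_dist_le r' (le_max_right _ _), ray_zero, ray_zero]; ring
  have b3 := C.glue hv b1 b2 hu hu' (by rw [← h0, ray_zero, hU]; linarith)
    (by rw [← h0', ray_zero, hU']; linarith)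
  have b4 : Btw (r.1 S) (r.1 s) v := by
    unfold Btw
    rw [← h0, dist_comm, ray_dist_le r (le_max_left _ _), dist_comm _ (r.1 0), dist_comm _ (r.1 0),
      ray_zero, ray_zero]; ring
  have b5 : Btw v (r'.1 s') (r'.1 S') := by
    unfold Btw
    rw [← h0', ray_dist_le r' (le_max_left _ _), ray_zero, ray_zero]; ring
  have b6 : Btw (r.1 s) v (r'.1 S') := b4.mid b3
  have b7 : Btw (r'.1 s') v (r.1 s) := b5.symm.mid b6.symm
  unfold Btw at b7
  rw [dist_comm, ← b7, dist_comm (r'.1 s'), dist_comm v (r.1 s)]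
  nth_rewrite 1 [← h0']
  rw [← h0, ray_zero, dist_comm, ray_zero]; ring

/-- if the rays from `v` to the ends of a line have nonzero weight the line passes through `v` -/
theorem line_through [CompleteSpace Y] {v : Y} (hv : pr v = p) (l : Line Y)
    (h1 : wt w Fm (fun u => pr ((rayFrom v (bwd l)).1 u.toNNReal)) ≠ 0)
    (h2 : wt w Fp (fun u => pr ((rayFrom v (fwd l)).1 u.toNNReal)) ≠ 0) : ∃ T, l.1 T = v := by
  obtain ⟨a1, a2⟩ := rayFrom_spec C.cat v (bwd l)
  obtain ⟨a3, a4⟩ := rayFrom_spec C.cat v (fwd l)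
  obtain ⟨L, e0, e1, e2⟩ := exists_concat (a1.trans a3.symm) (C.ray_glue hv a1 a3 h1 h2)
  obtain ⟨s, hs⟩ := C.cat.line_uniq (c := l) (c' := L) (by rw [e2]; exact a4) (by rw [e1]; exact a2)
  refine ⟨-s, ?_⟩
  rw [hs, neg_add_cancel, e0, a1]

end Core

end Pool.Agent.R192
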