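import Pool.Agent.R192.Final

set_option autoImplicit false

open Set Filter Topology MeasureTheory
open scoped NNReal ENNReal

noncomputable section

namespace Pool.Agent.R192

open Real

theorem busemann_tendsto {Y : Type*} [MetricSpace Y] (r : Ray Y) (x y : Y) :
    Tendsto (fun t : ℝ≥0 => dist x (r.1 t) - dist y (r.1 t)) atTop (𝓝 (busemann r x y)) := by
  apply tendsto_nhds_limUnder
  have key : ∀ x : Y, ∃ a, Tendsto (fun t : ℝ≥0 => dist x (r.1 t) - t) atTop (𝓝 a) := by
    intro x
    have anti : Antitone fun t : ℝ≥0 => dist x (r.1 t) - t := by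
      intro s t hst
      show dist x (r.1 t) - t ≤ dist x (r.1 s) - s
      have := dist_triangle x (r.1 s) (r.1 t)
      rw [ray_dist_le r hst] at this
      linarith
    refine ⟨_, tendsto_atTop_ciInf anti ⟨-dist x (r.1 0), ?_⟩⟩
    rintro _ ⟨t, rfl⟩
    show -dist x (r.1 0) ≤ dist x (r.1 t) - t
    have := dist_triangle (r.1 0) x (r.1 t)
    rw [ray_dist_le r zero_le, dist_comm (r.1 0)] at this
    simp only [NNReal.coe_zero, sub_zero] at this
    linarith
  obtain ⟨a, ha⟩ := key x
  obtain ⟨b, hb⟩ := key y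
  refine ⟨a - b, (ha.sub hb).congr fun t => ?_⟩
  ring

theorem busemann_abs_le {Y : Type*} [MetricSpace Y] (r : Ray Y) (x y : Y) :
    |busemann r x y| ≤ dist x y :=
  le_of_tendsto (busemann_tendsto r x y).abs (Eventually.of_forall fun t => abs_dist_sub_le _ _ _)

/-- a ray from `x` to one of the ends of `l` passes close to `l 0` -/
theorem IsCatNegOne.near_end {Y : Type*} [MetricSpace Y] [CompleteSpace Y] (H : IsCatNegOne Y)
    (x : Y) (l : Line Y) :
    (∃ u, dist (l.1 0) ((rayFrom x (bwd l)).1 u) ≤ 3) ∨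
      (∃ u, dist (l.1 0) ((rayFrom x (fwd l)).1 u) ≤ 3) := by
  obtain ⟨t₀, ht₀⟩ := exists_min x l
  rcases le_total 0 t₀ with h | h
  · exact Or.inl (H.near_line ht₀ h)
  · right
    have hmin : ∀ t, dist x ((revL l).1 (-t₀)) ≤ dist x ((revL l).1 t) := by
      intro t
      show dist x (l.1 (- -t₀)) ≤ dist x (l.1 (-t))
      rw [neg_neg]; exact ht₀ _
    have := H.near_line hmin (by linarith)
    have e : bwd (revL l) = fwd l := by
      apply Subtype.ext
      funext t
      show l.1 (-(-(t:ℝ))) = l.1 t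
      rw [neg_neg]
    rw [e] at this
    have e0 : (revL l).1 0 = l.1 0 := by
      show l.1 (-0) = l.1 0
      rw [neg_zero]
    rwa [e0] at this

/-- the rays passing at distance less than `R` of `z` -/
def nearSet {Y : Type*} [MetricSpace Y] (z : Y) (R : ℝ) : Set (Ray Y) :=
  ⋃ q : ℚ, {r | dist z (r.1 (q : ℝ).toNNReal) < R}

theorem measurable_nearSet {Y : Type*} [MetricSpace Y] [MeasurableSpace Y] [BorelSpace Y]
    [SecondCountableTopology Y] (z : Y) (R : ℝ) : MeasurableSet (nearSet z R) :=
  MeasurableSet.iUnion fun _ => measurableSet_lt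
    (measurable_const.dist (measurable_ray_eval _)) measurable_const

theorem mem_nearSet {Y : Type*} [MetricSpace Y] {z : Y} {R : ℝ} {r : Ray Y} {u : ℝ≥0}
    (h : dist z (r.1 u) < R) : r ∈ nearSet z R := by
  obtain ⟨q, hq1, hq2⟩ := exists_rat_btwn (show (u:ℝ) < u + (R - dist z (r.1 u)) by linarith)
  refine mem_iUnion.2 ⟨q, ?_⟩
  show dist z (r.1 (q : ℝ).toNNReal) < R
  have hq0 : (0:ℝ) ≤ q := u.coe_nonneg.trans hq1.le
  have e : (((q:ℝ).toNNReal : ℝ≥0) : ℝ) = q := Real.coe_toNNReal _ hq0
  have := dist_triangle z (r.1 u) (r.1 (q : ℝ).toNNReal)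
  rw [ray_dist, e, abs_sub_comm, abs_of_pos (by linarith)] at this
  linarith

namespace Core

variable {Γ Y X : Type*} [Group Γ] [MetricSpace Y] [MetricSpace X] [MulAction Γ Y]
  [IsIsometricSMul Γ Y] {pr : Y → X} {p : X} {w ℓ : ℝ} {Fm Fp : X → ℝ}
  [MeasurableSpace Y] [BorelSpace Y] [MeasurableSpace X] [BorelSpace X] [ProperSpace Y]
  [CompactSpace X]

variable (C : Core Γ pr p w ℓ Fm Fp) {h : ℝ} {ν : Y → Measure (Ray Y)} {m : Measure (Line Y)}
  {Z : ℝ≥0∞} {μ : Measure (GX X)} (M : MCore Γ pr h ν m Z μ)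

include C M

/-- the set of rays from `v` which pass near `z` has positive measure -/
theorem near_pos (v z : Y) : ν v (nearSet z (diamX X + 4)) ≠ 0 := by
  classical
  intro h0
  have := M.prob
  set E := nearSet z (diamX X + 4) with hE
  have hEm : MeasurableSet E := measurable_nearSet z _
  -- the set of lines passing near `z` at time `0` is null
  set F : Ray Y × Ray Y × ℝ → ℝ≥0∞ := fun x => E.indicator 1 x.1 + E.indicator 1 x.2.1 with hF
  have hFm : Measurable F :=
    ((measurable_const.indicator hEm).comp measurable_fst).add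
      ((measurable_const.indicator hEm).comp (measurable_fst.comp measurable_snd))
  have b := M.bms v F hFm
  have z1 : ∀ᵐ r ∂ν v, r ∉ E := by
    rw [ae_iff]; simpa using h0
  have z2 : ∫⁻ r, ∫⁻ r', ∫⁻ s : ℝ, (if Asymp r r' then 0 else F (r, r', s)) ∂volume ∂ν v ∂ν v
      = 0 := by
    rw [lintegral_congr_ae (g := fun _ => 0), lintegral_zero]
    filter_upwards [z1] with r hr
    rw [lintegral_congr_ae (g := fun _ => 0), lintegral_zero]
    filter_upwards [z1] with r' hr'
    rw [lintegral_congr (g := fun _ => 0), lintegral_zero]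
    intro s
    split_ifs
    · rfl
    · show E.indicator 1 r + E.indicator 1 r' = _
      rw [Set.indicator_of_notMem hr, Set.indicator_of_notMem hr', add_zero]
  rw [z2] at b
  have hset : MeasurableSet {l : Line Y | dist z (l.1 0) ≤ diamX X} :=
    measurableSet_le (measurable_const.dist (measurable_line_eval 0)) measurable_const
  have z3 : m {l : Line Y | dist z (l.1 0) ≤ diamX X} = 0 := by
    set e₀ := exp (-(2 * |h| * (dist v z + diamX X))) with he₀
    have hpos : ∀ l ∈ {l : Line Y | dist z (l.1 0) ≤ diamX X},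
        ENNReal.ofReal e₀ ≤
          F (rayFrom v (bwd l), rayFrom v (fwd l), busemann (fwd l) v (l.1 0)) *
          ENNReal.ofReal (exp (-h * (busemann (bwd l) v (l.1 0) + busemann (fwd l) v (l.1 0)))) := by
      intro l hl
      rw [← one_mul (ENNReal.ofReal e₀)]
      apply mul_le_mul'
      · have hl' : dist z (l.1 0) ≤ diamX X := hl
        have : rayFrom v (bwd l) ∈ E ∨ rayFrom v (fwd l) ∈ E := by
          rcases C.cat.near_end v l with ⟨u, hu⟩ | ⟨u, hu⟩
          · left
            apply mem_nearSet (u := u)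
            have := dist_triangle z (l.1 0) ((rayFrom v (bwd l)).1 u)
            linarith
          · right
            apply mem_nearSet (u := u)
            have := dist_triangle z (l.1 0) ((rayFrom v (fwd l)).1 u)
            linarith
        show 1 ≤ E.indicator 1 (rayFrom v (bwd l)) + E.indicator 1 (rayFrom v (fwd l))
        rcases this with h1 | h1
        · rw [Set.indicator_of_mem h1]; exact le_self_add
        · rw [Set.indicator_of_mem h1]; exact le_add_self
      · apply ENNReal.ofReal_le_ofReal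
        apply exp_le_exp.2
        have hl' : dist z (l.1 0) ≤ diamX X := hl
        have b1 := busemann_abs_le (bwd l) v (l.1 0)
        have b2 := busemann_abs_le (fwd l) v (l.1 0)
        have b3 := dist_triangle v z (l.1 0)
        set s := busemann (bwd l) v (l.1 0) + busemann (fwd l) v (l.1 0)
        have b4 : |s| ≤ 2 * (dist v z + diamX X) := (abs_add_le _ _).trans (by linarith)
        have b5 : |h * s| ≤ |h| * (2 * (dist v z + diamX X)) := by
          rw [abs_mul]; gcongr
        have b6 := le_abs_self (h * s)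
        linarith
    by_contra hne
    have h1 : ∫⁻ l, F (rayFrom v (bwd l), rayFrom v (fwd l), busemann (fwd l) v (l.1 0)) *
        ENNReal.ofReal (exp (-h * (busemann (bwd l) v (l.1 0) + busemann (fwd l) v (l.1 0)))) ∂m
          ≠ 0 := by
      have h2 : 0 < ∫⁻ l in {l : Line Y | dist z (l.1 0) ≤ diamX X},
          F (rayFrom v (bwd l), rayFrom v (fwd l), busemann (fwd l) v (l.1 0)) *
          ENNReal.ofReal (exp (-h * (busemann (bwd l) v (l.1 0) + busemann (fwd l) v (l.1 0)))) ∂m := by
        refine lt_of_lt_of_le ?_ (setLIntegral_mono' (f := fun _ => ENNReal.ofReal e₀) hset hpos)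
        rw [setLIntegral_const]
        apply ENNReal.mul_pos _ hne
        rw [ne_eq, ENNReal.ofReal_eq_zero, not_le]; exact exp_pos _
      exact (h2.trans_le (setLIntegral_le_lintegral _ _)).ne'
    exact h1 b
  -- contradiction with the quotient formula
  have q := M.quot (fun l => {l : Line Y | dist z (l.1 0) ≤ diamX X}.indicator 1 l)
    (measurable_const.indicator hset)
  rw [lintegral_indicator_one hset, z3] at q
  have h1 : (1:ℝ≥0∞) ≤ ∫⁻ c : GX X, ∑' l : {l : Line Y // ∀ t, pr (l.1 t) = c.1 t},
      {l : Line Y | dist z (l.1 0) ≤ diamX X}.indicator 1 l.1 ∂μ := by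
    calc (1:ℝ≥0∞) = ∫⁻ _ : GX X, 1 ∂μ := by rw [lintegral_one, measure_univ]
      _ ≤ _ := by
        apply lintegral_mono
        intro c
        obtain ⟨y, hy, hy'⟩ := C.exists_near z (c.1 0)
        obtain ⟨l, hl0, hl⟩ := C.lift c.1 c.2 y hy
        refine le_trans ?_ (ENNReal.le_tsum (⟨l, hl⟩ : {l : Line Y // ∀ t, pr (l.1 t) = c.1 t}))
        rw [Set.indicator_of_mem]
        · rfl
        · show dist z (l.1 0) ≤ diamX X
          rw [hl0, hy']
          exact dist_le_diamX _ _
  have h2 : Z * 1 ≤ 0 := by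
    rw [q]; gcongr
  rw [mul_one, nonpos_iff_eq_zero] at h2
  exact M.Z0 h2

/-- positivity of the outgoing mass -/
theorem mass_pos {v : Y} (hv : pr v = p) : ∫⁻ r, rw' pr w Fp r ∂ν v ≠ 0 := by
  have hw := C.w_pos
  have hD : 0 ≤ diamX X := Metric.diam_nonneg
  obtain ⟨c, hc, hc0, hcp⟩ := C.extp
  obtain ⟨L, hL0, hL⟩ := C.lift c hc v (by rw [hv, hc0])
  have hcont : Continuous fun y => Fp (pr y) := C.Fp_cont.comp C.pi_cont
  have hpos : 0 < Fp (pr (L.1 (4 * w))) := by rw [hL]; exact hcp
  obtain ⟨δ, hδ, hball⟩ := Metric.eventually_nhds_iff.1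
    (hcont.continuousAt.eventually (lt_mem_nhds hpos))
  set R := diamX X + 4 with hR
  -- choose `T` large
  have lim : Tendsto (fun T : ℝ => 8 * exp (-(2 * (T - R))) +
      8 * exp (2 * (4 * w) + R - (T - R) - T)) atTop (𝓝 (8 * 0 + 8 * 0)) := by
    apply Tendsto.add
    · apply Tendsto.const_mul
      apply tendsto_exp_atBot.comp
      have : (fun T : ℝ => -(2 * (T - R))) = fun T => (-2) * T + 2 * R := by funext T; ring
      rw [this]
      exact tendsto_atBot_add_const_right _ _ (tendsto_id.const_mul_atTop_of_neg (by norm_num))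
    · apply Tendsto.const_mul
      apply tendsto_exp_atBot.comp
      have : (fun T : ℝ => 2 * (4 * w) + R - (T - R) - T) =
          fun T => (-2) * T + (2 * (4 * w) + 2 * R) := by funext T; ring
      rw [this]
      exact tendsto_atBot_add_const_right _ _ (tendsto_id.const_mul_atTop_of_neg (by norm_num))
  rw [mul_zero, add_zero] at lim
  have hev := (tendsto_order.1 lim).2 (δ ^ 2) (by positivity)
  obtain ⟨T, hT1, hT2⟩ := (hev.and (eventually_ge_atTop (R + 1 + 4 * w))).exists
  have hT0 : 0 ≤ T := by linarith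
  set z := L.1 T with hz
  have hvz : dist v z = T := by
    rw [← hL0, hz, line_dist, zero_sub, abs_neg, abs_of_nonneg hT0]
  -- the rays passing near `z` have positive weight
  have hsub : ∀ r : Ray Y, r.1 0 = v → r ∈ nearSet z R → rw' pr w Fp r ≠ 0 := by
    intro r hr hmem
    obtain ⟨q, hq⟩ := mem_iUnion.1 hmem
    set u := (q : ℝ).toNNReal with hu
    have hq' : dist z (r.1 u) < R := hq
    have h1 : dist v (r.1 u) = u := ray_zero' hr u
    have h2 : T - R ≤ u := by
      have := dist_triangle v (r.1 u) z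
      rw [h1, hvz, dist_comm _ z] at this
      linarith
    have h4w : ((4 * w).toNNReal : ℝ) = 4 * w := Real.coe_toNNReal _ (by positivity)
    have h3 : (4 * w).toNNReal ≤ u := by
      rw [← NNReal.coe_le_coe, h4w]; linarith
    have d1 : dist v (L.1 (4 * w)) = 4 * w := by
      rw [← hL0, line_dist, zero_sub, abs_neg, abs_of_nonneg (by positivity)]
    have cmp := C.cat.cmp3 (v := v) (x := r.1 u) (y := z) (g := r.1 (4 * w).toNNReal)
      (g' := L.1 (4 * w)) (u := 4 * w) (a := T - R) (b := T) (c := R)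
      (by unfold Btw; rw [ray_zero' hr, h1, ray_dist_le r h3, h4w]; ring)
      (by unfold Btw; rw [d1, hvz, hz, line_dist, abs_sub_comm, abs_of_nonneg (by linarith)]; ring)
      (by rw [ray_zero' hr, h4w]) d1 (by rw [h1]; exact h2) hvz.ge (by linarith) (by linarith)
      (by rw [dist_comm]; exact hq'.le)
    have h5 : dist (r.1 (4 * w).toNNReal) (L.1 (4 * w)) < δ :=
      lt_of_pow_lt_pow_left₀ 2 hδ.le (cmp.trans_lt hT1)
    have h6 := hball h5
    have h7 : 0 < wt w Fp (fun u => pr (r.1 u.toNNReal)) := by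
      unfold wt
      apply intervalIntegral.integral_pos (by positivity)
      · exact (C.Fp_cont.comp (C.pi_cont.comp
          (r.2.continuous.comp continuous_real_toNNReal))).continuousOn
      · intro x _; exact C.Fp_nonneg _
      · exact ⟨4 * w, ⟨by positivity, by linarith⟩, h6⟩
    show ENNReal.ofReal _ ≠ 0
    rw [ne_eq, ENNReal.ofReal_eq_zero, not_le]
    exact h7
  intro h0
  rw [lintegral_eq_zero_iff (C.measurable_rw C.Fp_cont)] at h0
  apply C.near_pos M v z
  rw [← nonpos_iff_eq_zero]
  have : ∀ᵐ r ∂ν v, r ∉ nearSet z R := by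
    filter_upwards [h0, M.dens.start v] with r h1 h2 h3
    exact hsub r h2 h3 h1
  have h3 := ae_iff.1 this
  simpa using h3.le

end Core

end Pool.Agent.R192
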