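import Pool.Agent.R192.Glue
import Pool.Agent.R192.Pos

set_option autoImplicit false

open Set Filter Topology MeasureTheory
open scoped NNReal ENNReal

noncomputable section

namespace Pool.Agent.R192

open Real

/-- bump function -/
def bump {X : Type*} [MetricSpace X] (z : X) (w : ℝ) (x : X) : ℝ := max 0 (1 - dist x z / w)

section bump

variable {X : Type*} [MetricSpace X] {z : X} {w : ℝ}

theorem bump_nonneg (x : X) : 0 ≤ bump z w x := le_max_left _ _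

theorem bump_le (hw : 0 < w) (x : X) : bump z w x ≤ 1 :=
  max_le zero_le_one (by
    have : 0 ≤ dist x z / w := by positivity
    linarith)

theorem bump_ne (hw : 0 < w) {x : X} (h : bump z w x ≠ 0) : dist x z < w := by
  by_contra hcon
  push Not at hcon
  apply h
  have : 1 ≤ dist x z / w := (one_le_div hw).2 hcon
  exact max_eq_left (by linarith)

theorem bump_self (z : X) (w : ℝ) : bump z w z = 1 := by
  unfold bump
  rw [dist_self, zero_div, sub_zero]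
  exact max_eq_right zero_le_one

theorem bump_lip (hw : 0 < w) (x y : X) : |bump z w x - bump z w y| ≤ 1 / w * dist x y := by
  unfold bump
  refine (abs_max_sub_max_le_max 0 (1 - dist x z / w) 0 (1 - dist y z / w)).trans (max_le ?_ ?_)
  · rw [sub_zero, abs_zero]; positivity
  · rw [show 1 - dist x z / w - (1 - dist y z / w) = (dist y z - dist x z) / w by ring, abs_div,
      abs_of_pos hw, one_div, inv_mul_eq_div]
    apply div_le_div_of_nonneg_right _ hw.le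
    rw [dist_comm x y]
    exact abs_dist_sub_le _ _ _

end bump

theorem LocGeod.isom {M X : Type*} [MetricSpace M] [MetricSpace X] {j : M → X} (hj : Isometry j)
    {c : ℝ → M} (hc : LocGeod c) : LocGeod (fun t => j (c t)) := by
  intro t
  obtain ⟨ε, hε, h⟩ := hc t
  exact ⟨ε, hε, fun s s' h1 h2 => by rw [hj.dist_eq]; exact h s s' h1 h2⟩

/-- the local picture of a gluing -/
theorem exists_core {n₁ n₂ : ℕ} {H₁ H₂ Γ₁ Γ₂ M₁ M₂ : Type*} [MetricSpace H₁] [MetricSpace H₂]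
    [Group Γ₁] [Group Γ₂] [MulAction Γ₁ H₁] [MulAction Γ₂ H₂] [IsIsometricSMul Γ₁ H₁]
    [IsIsometricSMul Γ₂ H₂] [MetricSpace M₁] [MetricSpace M₂] {q₁ : H₁ → M₁} {q₂ : H₂ → M₂}
    (hH₁ : IsHyperbolicSpace n₁ H₁) (hH₂ : IsHyperbolicSpace n₂ H₂)
    (Q₁ : IsQuotientCover Γ₁ q₁) (Q₂ : IsQuotientCover Γ₂ q₂) {L : ℝ} (hL : 0 < L)
    {σ₁ : ℝ → M₁} {σ₂ : ℝ → M₂}
    (hσ₁ : ∀ s ∈ Icc 0 L, ∀ t ∈ Icc 0 L, dist (σ₁ s) (σ₁ t) = |s - t|)
    (hσ₂ : ∀ s ∈ Icc 0 L, ∀ t ∈ Icc 0 L, dist (σ₂ s) (σ₂ t) = |s - t|)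
    {X Y Γ : Type*} [MetricSpace X] [CompactSpace X] [MetricSpace Y] [Group Γ] [MulAction Γ Y]
    [IsIsometricSMul Γ Y] {pr : Y → X} (hY : IsCatNegOne Y) (Q : IsQuotientCover Γ pr)
    {j₁ : M₁ → X} {j₂ : M₂ → X} (hj₁ : Isometry j₁) (hj₂ : Isometry j₂)
    (hj : j₁ (σ₁ 0) = j₂ (σ₂ 0)) (hcov : ∀ x, (∃ y, j₁ y = x) ∨ ∃ y, j₂ y = x)
    (hdist : ∀ (x : M₁) (y : M₂) (r : ℝ), (∀ s ∈ Icc 0 L, r ≤ dist x (σ₁ s) + dist y (σ₂ s)) →
      r ≤ dist (j₁ x) (j₂ y)) :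
    ∃ (p : X) (w ℓ : ℝ) (Fm Fp : X → ℝ), Core Γ pr p w ℓ Fm Fp := by
  obtain ⟨u₁, hu₁, S₁⟩ := side hH₁ Q₁ hL hσ₁
  obtain ⟨u₂, hu₂, S₂⟩ := side hH₂ Q₂ hL hσ₂
  obtain ⟨ρ, hρ, hun⟩ := Q.uniform
  set w := min (min u₁ u₂) (min (1 / 6) (ρ / 160)) with hw
  have hw0 : 0 < w := by positivity
  have w1 : w ≤ u₁ := (min_le_left _ _).trans (min_le_left _ _)
  have w2 : w ≤ u₂ := (min_le_left _ _).trans (min_le_right _ _)
  have w3 : w ≤ 1 / 6 := (min_le_right _ _).trans (min_le_left _ _)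
  have w4 : w ≤ ρ / 160 := (min_le_right _ _).trans (min_le_right _ _)
  obtain ⟨c₁, c₁g, c₁0, c₁4, C₁⟩ := S₁ w hw0 w1
  obtain ⟨c₂, c₂g, c₂0, c₂4, C₂⟩ := S₂ w hw0 w2
  have loc : ∀ z x y : Y, dist z x < 40 * w → dist z y < 40 * w →
      dist (pr x) (pr y) = dist x y := fun z x y hx hy =>
    Q.loc_of (hun z) (by linarith) (by linarith)
  set P := j₁ (σ₁ 0) with hP
  have m0 : (0:ℝ) ∈ Icc 0 L := ⟨le_rfl, hL.le⟩
  -- the supports
  have supp₁ : ∀ x, bump (j₁ (c₁ (4 * w))) w x ≠ 0 → ∃ y, j₁ y = x ∧ dist y (c₁ (4 * w)) < w := by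
    intro x hx
    have h1 := bump_ne hw0 hx
    rcases hcov x with ⟨y, rfl⟩ | ⟨y, rfl⟩
    · rw [hj₁.dist_eq] at h1
      exact ⟨y, rfl, h1⟩
    · exfalso
      have := hdist (c₁ (4 * w)) y (4 * w) (fun s hs => by
        have h2 := C₁ (c₁ (4 * w)) (by rw [dist_self]; exact hw0) s hs
        rw [c₁4] at h2
        have := dist_nonneg (x := y) (y := σ₂ s)
        linarith)
      rw [dist_comm] at this
      linarith
  have supp₂ : ∀ x, bump (j₂ (c₂ (4 * w))) w x ≠ 0 → ∃ y, j₂ y = x ∧ dist y (c₂ (4 * w)) < w := by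
    intro x hx
    have h1 := bump_ne hw0 hx
    rcases hcov x with ⟨y, rfl⟩ | ⟨y, rfl⟩
    · exfalso
      have := hdist y (c₂ (4 * w)) (4 * w) (fun s hs => by
        have h2 := C₂ (c₂ (4 * w)) (by rw [dist_self]; exact hw0) s hs
        rw [c₂4] at h2
        have := dist_nonneg (x := y) (y := σ₁ s)
        linarith)
      linarith
    · rw [hj₂.dist_eq] at h1
      exact ⟨y, rfl, h1⟩
  have ann : ∀ {x z : X}, dist x z < w → dist z P = 4 * w → 3 * w < dist x P ∧ dist x P < 5 * w := by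
    intro x z h1 h2
    have t1 := dist_triangle x z P
    have t2 := dist_triangle z x P
    rw [dist_comm z x] at t2
    constructor <;> linarith
  have d₁ : dist (j₁ (c₁ (4 * w))) P = 4 * w := by rw [hP, hj₁.dist_eq, c₁4]
  have d₂ : dist (j₂ (c₂ (4 * w))) P = 4 * w := by rw [hj, hj₂.dist_eq, c₂4]
  refine ⟨P, w, 1 / w, bump (j₁ (c₁ (4 * w))) w, bump (j₂ (c₂ (4 * w))) w, ?_⟩
  exact {
    cat := hY
    w_pos := hw0
    w_le := by linarith
    loc := loc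
    surj := Q.surjective
    dist_eq := Q.dist_eq
    lift := fun c hc x hx => Q.lift_locGeod hY (by positivity) loc c hc x hx
    ell_nonneg := by positivity
    Fm_nonneg := bump_nonneg
    Fp_nonneg := bump_nonneg
    Fm_le := bump_le hw0
    Fp_le := bump_le hw0
    Fm_lip := bump_lip hw0
    Fp_lip := bump_lip hw0
    Fm_supp := fun x hx => ann (bump_ne hw0 hx) d₁
    Fp_supp := fun x hx => ann (bump_ne hw0 hx) d₂
    add := by
      intro x y hx hy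
      obtain ⟨x', rfl, hx'⟩ := supp₁ x hx
      obtain ⟨y', rfl, hy'⟩ := supp₂ y hy
      apply le_antisymm (dist_triangle _ _ _)
      apply hdist
      intro s hs
      have h1 := C₁ x' hx' s hs
      have h2 := C₂ y' hy' s hs
      have e1 : dist (j₁ x') P = dist x' (σ₁ 0) := by rw [hP, hj₁.dist_eq]
      have e2 : dist P (j₂ y') = dist y' (σ₂ 0) := by
        rw [hj, hj₂.dist_eq, dist_comm]
      linarith
    extm := ⟨fun t => j₁ (c₁ t), c₁g.isom hj₁, by show j₁ (c₁ 0) = P; rw [c₁0], by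
      show 0 < bump _ w (j₁ (c₁ (4 * w)))
      rw [bump_self]; exact one_pos⟩
    extp := ⟨fun t => j₂ (c₂ t), c₂g.isom hj₂, by show j₂ (c₂ 0) = P; rw [c₂0, ← hj], by
      show 0 < bump _ w (j₂ (c₂ (4 * w)))
      rw [bump_self]; exact one_pos⟩ }

/-- the geodesic flow of a gluing is not exponentially mixing -/
theorem main_glue {M₁ M₂ : Type*} [MetricSpace M₁] [MetricSpace M₂] {n₁ n₂ : ℕ}
    (hM₁ : IsCompactHyperbolicManifold n₁ M₁) (hM₂ : IsCompactHyperbolicManifold n₂ M₂)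
    {L : ℝ} (hL : 0 < L) [Nonempty (Icc (0:ℝ) L)] {σ₁ : Icc (0:ℝ) L → M₁} {σ₂ : Icc (0:ℝ) L → M₂}
    (hσ₁ : Isometry σ₁) (hσ₂ : Isometry σ₂)
    {Y Γ : Type*} [MetricSpace Y] [ProperSpace Y] [MeasurableSpace Y] [BorelSpace Y] [Group Γ]
    [MulAction Γ Y] [IsIsometricSMul Γ Y]
    [MeasurableSpace (Metric.GlueSpace hσ₁ hσ₂)] [BorelSpace (Metric.GlueSpace hσ₁ hσ₂)]
    (pr : Y → Metric.GlueSpace hσ₁ hσ₂) (hY : IsCatNegOne Y) (hQ : IsQuotientCover Γ pr)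
    (μ : Measure (GX (Metric.GlueSpace hσ₁ hσ₂))) (hμ : IsBowenMargulis Γ pr μ)
    {α : ℝ} (hα : 0 < α) (hα1 : α ≤ 1) : ¬ ExpDecay α μ := by
  obtain ⟨k₁, H₁, Γ₁, i₁, i₂, i₃, i₄, q₁, hH₁, Q₁⟩ := hM₁
  obtain ⟨k₂, H₂, Γ₂, i₅, i₆, i₇, i₈, q₂, hH₂, Q₂⟩ := hM₂
  have hcov : ∀ x : Metric.GlueSpace hσ₁ hσ₂, (∃ y, Metric.toGlueL hσ₁ hσ₂ y = x) ∨
      ∃ y, Metric.toGlueR hσ₁ hσ₂ y = x := by
    intro x
    induction x using Quotient.inductionOn with
    | h a =>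
      cases a with
      | inl a => exact Or.inl ⟨a, rfl⟩
      | inr a => exact Or.inr ⟨a, rfl⟩
  have hcomp : CompactSpace (Metric.GlueSpace hσ₁ hσ₂) := by
    refine ⟨?_⟩
    have : (univ : Set (Metric.GlueSpace hσ₁ hσ₂)) =
        range (Metric.toGlueL hσ₁ hσ₂) ∪ range (Metric.toGlueR hσ₁ hσ₂) := by
      ext x
      simp only [mem_univ, mem_union, mem_range, true_iff]
      exact hcov x
    rw [this]
    exact (isCompact_range (Metric.toGlueL_isometry hσ₁ hσ₂).continuous).union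
      (isCompact_range (Metric.toGlueR_isometry hσ₁ hσ₂).continuous)
  have hσ₁' : ∀ s ∈ Icc 0 L, ∀ t ∈ Icc 0 L, dist (σ₁ (projIcc 0 L hL.le s))
      (σ₁ (projIcc 0 L hL.le t)) = |s - t| := fun s hs t ht => by
    rw [hσ₁.dist_eq, projIcc_of_mem _ hs, projIcc_of_mem _ ht]; rfl
  have hσ₂' : ∀ s ∈ Icc 0 L, ∀ t ∈ Icc 0 L, dist (σ₂ (projIcc 0 L hL.le s))
      (σ₂ (projIcc 0 L hL.le t)) = |s - t| := fun s hs t ht => by
    rw [hσ₂.dist_eq, projIcc_of_mem _ hs, projIcc_of_mem _ ht]; rfl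
  obtain ⟨p, w, ℓ, Fm, Fp, C⟩ := exists_core hH₁ hH₂ Q₁ Q₂ hL hσ₁' hσ₂' hY hQ
    (Metric.toGlueL_isometry hσ₁ hσ₂) (Metric.toGlueR_isometry hσ₁ hσ₂)
    (congr_fun (Metric.toGlue_commute hσ₁ hσ₂) _) hcov (by
      intro x y r hr
      have : dist (Metric.toGlueL hσ₁ hσ₂ x) (Metric.toGlueR hσ₁ hσ₂ y) =
        (⨅ s, dist x (σ₁ s) + dist y (σ₂ s)) + 0 := rfl
      rw [this, add_zero]
      apply le_ciInf
      intro s
      have := hr s.1 s.2
      rwa [projIcc_val] at this)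
  obtain ⟨pμ, h, ν, m, Z, a1, a2, a3, a4, a5⟩ := hμ
  have M : MCore Γ pr h ν m Z μ := ⟨a1, a2, a3, a4, a5, pμ⟩
  obtain ⟨v, hv⟩ := C.surj p
  exact C.not_expDecay M (v := ⟨v, hv⟩) (C.symm.mass_pos M hv) (C.mass_pos M hv) hα hα1

end Pool.Agent.R192
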