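import Pool.Agent.R192.Glue2
import Pool.Agent.R192.Main

set_option autoImplicit false

open Set Filter Topology MeasureTheory
open scoped NNReal ENNReal

noncomputable section

namespace Pool.Agent.R192

open Real

theorem IsGluing.locGeod {M₁ M₂ X : Type*} [MetricSpace M₁] [MetricSpace M₂] [MetricSpace X]
    {L : ℝ} {σ₁ : ℝ → M₁} {σ₂ : ℝ → M₂} {j₁ : M₁ → X} {j₂ : M₂ → X}
    (G : IsGluing L σ₁ σ₂ j₁ j₂) {u₁ u₂ : ℝ} (hu₂ : 0 < u₂)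
    (a1 : ∀ s t, |s - t| < u₁ → dist (σ₁ s) (σ₁ t) = |s - t|)
    (a2 : ∀ s t, dist (σ₁ s) (σ₁ t) ≤ |s - t|)
    (a3 : ∀ s ∈ Icc 0 L, ∀ t ∈ Icc 0 L, dist (σ₂ s) (σ₂ t) = |s - t| ∨ u₂ ≤ dist (σ₂ s) (σ₂ t))
    (hinj : InjOn σ₂ (Icc 0 L)) {s t : ℝ} (h1 : |s - t| < u₁) (h2 : |s - t| < u₂) :
    dist (j₁ (σ₁ s)) (j₁ (σ₁ t)) = |s - t| := by
  rw [G.locIso hu₂ a2 a3 hinj (by rw [a1 s t h1]; exact h2), a1 s t h1]

/-- the local picture of a gluing -/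
theorem exists_core2 {n₁ n₂ : ℕ} {H₁ H₂ Γ₁ Γ₂ M₁ M₂ : Type*} [MetricSpace H₁] [MetricSpace H₂]
    [Group Γ₁] [Group Γ₂] [MulAction Γ₁ H₁] [MulAction Γ₂ H₂] [IsIsometricSMul Γ₁ H₁]
    [IsIsometricSMul Γ₂ H₂] [MetricSpace M₁] [MetricSpace M₂] [CompactSpace M₁] [CompactSpace M₂]
    {q₁ : H₁ → M₁} {q₂ : H₂ → M₂}
    (hH₁ : IsHyperbolicSpace n₁ H₁) (hH₂ : IsHyperbolicSpace n₂ H₂)
    (Q₁ : IsQuotientCover Γ₁ q₁) (Q₂ : IsQuotientCover Γ₂ q₂) {L : ℝ} (hL : 0 < L)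
    {σ₁ : ℝ → M₁} {σ₂ : ℝ → M₂} (hσ₁ : LocGeod σ₁) (hσ₂ : LocGeod σ₂)
    (inj₁ : InjOn σ₁ (Icc 0 L)) (inj₂ : InjOn σ₂ (Icc 0 L))
    {X Y Γ : Type*} [MetricSpace X] [CompactSpace X] [MetricSpace Y] [Group Γ] [MulAction Γ Y]
    [IsIsometricSMul Γ Y] {pr : Y → X} (hY : IsCatNegOne Y) (Q : IsQuotientCover Γ pr)
    {j₁ : M₁ → X} {j₂ : M₂ → X} (G : IsGluing L σ₁ σ₂ j₁ j₂) :
    ∃ (p : X) (w ℓ : ℝ) (Fm Fp : X → ℝ), Core Γ pr p w ℓ Fm Fp := by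
  obtain ⟨u₁, hu₁, A₁, B₁, D₁, S₁⟩ := side2 hH₁ Q₁ hL hσ₁ inj₁
  obtain ⟨u₂, hu₂, A₂, B₂, D₂, S₂⟩ := side2 hH₂ Q₂ hL hσ₂ inj₂
  obtain ⟨ρ, hρ, hun⟩ := Q.uniform
  set w := min (min u₁ u₂) (min (1 / 6) (ρ / 160)) with hw
  have hw0 : 0 < w := by positivity
  have w1 : w ≤ u₁ := (min_le_left _ _).trans (min_le_left _ _)
  have w2 : w ≤ u₂ := (min_le_left _ _).trans (min_le_right _ _)
  have w3 : w ≤ 1 / 6 := (min_le_right _ _).trans (min_le_left _ _)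
  have w4 : w ≤ ρ / 160 := (min_le_right _ _).trans (min_le_right _ _)
  have C₁ := S₁ w hw0 w1
  have C₂ := S₂ w hw0 w2
  have loc : ∀ z x y : Y, dist z x < 40 * w → dist z y < 40 * w →
      dist (pr x) (pr y) = dist x y := fun z x y hx hy =>
    Q.loc_of (hun z) (by linarith) (by linarith)
  have m0 : (0:ℝ) ∈ Icc 0 L := ⟨le_rfl, hL.le⟩
  have hj : j₁ (σ₁ 0) = j₂ (σ₂ 0) := (G.glue _ _).2 ⟨0, m0, rfl, rfl⟩
  set P := j₁ (σ₁ 0) with hP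
  have g₁ : ∀ s t, |s - t| < 10 * u₁ → |s - t| < 10 * u₂ →
      dist (j₁ (σ₁ s)) (j₁ (σ₁ t)) = |s - t| := fun s t h1 h2 =>
    G.locGeod (by positivity) A₁ B₁ D₂ inj₂ h1 h2
  have g₂ : ∀ s t, |s - t| < 10 * u₁ → |s - t| < 10 * u₂ →
      dist (j₂ (σ₂ s)) (j₂ (σ₂ t)) = |s - t| := fun s t h1 h2 =>
    G.symm.locGeod (by positivity) A₂ B₂ D₁ inj₁ h2 h1
  have h4 : |-(4 * w) - 0| = 4 * w := by rw [sub_zero, abs_neg, abs_of_pos (by positivity)]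
  have d₁ : dist (j₁ (σ₁ (-(4 * w)))) P = 4 * w := by
    rw [hP, g₁ _ _ (by rw [h4]; linarith) (by rw [h4]; linarith), h4]
  have d₂ : dist (j₂ (σ₂ (-(4 * w)))) P = 4 * w := by
    rw [hj, g₂ _ _ (by rw [h4]; linarith) (by rw [h4]; linarith), h4]
  have e₁ : dist (σ₁ (-(4 * w))) (σ₁ 0) = 4 * w := by
    rw [A₁ _ _ (by rw [h4]; linarith), h4]
  have e₂ : dist (σ₂ (-(4 * w))) (σ₂ 0) = 4 * w := by
    rw [A₂ _ _ (by rw [h4]; linarith), h4]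
  have f₁ : ∀ s ∈ Icc 0 L, 4 * w ≤ dist (σ₁ (-(4 * w))) (σ₁ s) := fun s hs => by
    exact e₁.ge.trans (C₁ _ (by rw [dist_self]; exact hw0) s hs)
  have f₂ : ∀ s ∈ Icc 0 L, 4 * w ≤ dist (σ₂ (-(4 * w))) (σ₂ s) := fun s hs => by
    exact e₂.ge.trans (C₂ _ (by rw [dist_self]; exact hw0) s hs)
  -- the supports
  have supp₁ : ∀ x, bump (j₁ (σ₁ (-(4 * w)))) w x ≠ 0 →
      ∃ y, j₁ y = x ∧ dist y (σ₁ (-(4 * w))) < w := by
    intro x hx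
    have h1 := bump_ne hw0 hx
    obtain ⟨y, h2, h3⟩ := G.near_pt f₁ (h1.trans (by linarith))
    exact ⟨y, h2, by rw [h3]; exact h1⟩
  have supp₂ : ∀ x, bump (j₂ (σ₂ (-(4 * w)))) w x ≠ 0 →
      ∃ y, j₂ y = x ∧ dist y (σ₂ (-(4 * w))) < w := by
    intro x hx
    have h1 := bump_ne hw0 hx
    obtain ⟨y, h2, h3⟩ := G.symm.near_pt f₂ (h1.trans (by linarith))
    exact ⟨y, h2, by rw [h3]; exact h1⟩
  have ann : ∀ {x z : X}, dist x z < w → dist z P = 4 * w → 3 * w < dist x P ∧ dist x P < 5 * w := by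
    intro x z h1 h2
    have t1 := dist_triangle x z P
    have t2 := dist_triangle z x P
    rw [dist_comm z x] at t2
    constructor <;> linarith
  have lg : ∀ {c : ℝ → X}, (∀ s t, |s - t| < 10 * u₁ → |s - t| < 10 * u₂ →
      dist (c s) (c t) = |s - t|) → LocGeod (fun t => c (-t)) := by
    intro c hc t
    refine ⟨min (5 * u₁) (5 * u₂), by positivity, fun s s' h1 h2 => ?_⟩
    have h3 := abs_sub_le s t s'
    rw [abs_sub_comm t s'] at h3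
    have h4 : min (5 * u₁) (5 * u₂) ≤ 5 * u₁ := min_le_left _ _
    have h5 : min (5 * u₁) (5 * u₂) ≤ 5 * u₂ := min_le_right _ _
    have h6 : |(-s) - (-s')| = |s - s'| := by rw [neg_sub_neg, abs_sub_comm]
    rw [hc (-s) (-s') (by rw [h6]; linarith) (by rw [h6]; linarith), h6]
  refine ⟨P, w, 1 / w, bump (j₁ (σ₁ (-(4 * w)))) w, bump (j₂ (σ₂ (-(4 * w)))) w, ?_⟩
  exact {
    cat := hY
    w_pos := hw0
    w_le := by linarith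
    loc := loc
    surj := Q.surjective
    dist_eq := Q.dist_eq
    lift := fun c hc x hx => Q.lift_locGeod hY (by positivity) loc c hc x hx
    ell_nonneg := by positivity
    Fm_nonneg := bump_nonneg
    Fp_nonneg := bump_nonneg
    Fm_le := bump_le hw0
    Fp_le := bump_le hw0
    Fm_lip := bump_lip hw0
    Fp_lip := bump_lip hw0
    Fm_supp := fun x hx => ann (bump_ne hw0 hx) d₁
    Fp_supp := fun x hx => ann (bump_ne hw0 hx) d₂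
    add := by
      intro x y hx hy
      obtain ⟨x', rfl, hx'⟩ := supp₁ x hx
      obtain ⟨y', rfl, hy'⟩ := supp₂ y hy
      apply le_antisymm (dist_triangle _ _ _)
      refine le_trans ?_ (G.dist_ge hL.le (C₁ x' hx') (C₂ y' hy'))
      have e1 : dist (j₁ x') P ≤ dist x' (σ₁ 0) := G.lip₁ _ _
      have e2 : dist P (j₂ y') ≤ dist y' (σ₂ 0) := by rw [hj, dist_comm]; exact G.lip₂ _ _
      linarith
    extm := ⟨fun t => j₁ (σ₁ (-t)), lg (c := fun t => j₁ (σ₁ t)) g₁, by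
      show j₁ (σ₁ (-0)) = P
      rw [neg_zero], by
      show 0 < bump _ w (j₁ (σ₁ (-(4 * w))))
      rw [bump_self]; exact one_pos⟩
    extp := ⟨fun t => j₂ (σ₂ (-t)), lg (c := fun t => j₂ (σ₂ t)) g₂, by
      show j₂ (σ₂ (-0)) = P
      rw [neg_zero, ← hj], by
      show 0 < bump _ w (j₂ (σ₂ (-(4 * w))))
      rw [bump_self]; exact one_pos⟩ }

theorem IsGluing.compact {M₁ M₂ X : Type*} [MetricSpace M₁] [MetricSpace M₂] [MetricSpace X]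
    [CompactSpace M₁] [CompactSpace M₂] {L : ℝ} {σ₁ : ℝ → M₁} {σ₂ : ℝ → M₂} {j₁ : M₁ → X}
    {j₂ : M₂ → X} (G : IsGluing L σ₁ σ₂ j₁ j₂) : CompactSpace X := by
  have c₁ : Continuous j₁ := (LipschitzWith.of_dist_le_mul (K := 1)
    fun a b => by simpa using G.lip₁ a b).continuous
  have c₂ : Continuous j₂ := (LipschitzWith.of_dist_le_mul (K := 1)
    fun a b => by simpa using G.lip₂ a b).continuous
  refine ⟨?_⟩
  have : (univ : Set X) = range j₁ ∪ range j₂ := by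
    ext x
    simp only [mem_univ, mem_union, mem_range, true_iff]
    exact G.surj x
  rw [this]
  exact (isCompact_range c₁).union (isCompact_range c₂)

/-- the geodesic flow of a gluing is not exponentially mixing -/
theorem main_gluing {M₁ M₂ X : Type*} [MetricSpace M₁] [MetricSpace M₂] {n₁ n₂ : ℕ}
    (hM₁ : IsCompactHyperbolicManifold n₁ M₁) (hM₂ : IsCompactHyperbolicManifold n₂ M₂)
    {L : ℝ} (hL : 0 < L) {σ₁ : ℝ → M₁} {σ₂ : ℝ → M₂} (hσ₁ : LocGeod σ₁) (hσ₂ : LocGeod σ₂)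
    (inj₁ : InjOn σ₁ (Icc 0 L)) (inj₂ : InjOn σ₂ (Icc 0 L))
    [MetricSpace X] [MeasurableSpace X] [BorelSpace X] {j₁ : M₁ → X} {j₂ : M₂ → X}
    (hX : IsGluing L σ₁ σ₂ j₁ j₂)
    {Y Γ : Type*} [MetricSpace Y] [ProperSpace Y] [MeasurableSpace Y] [BorelSpace Y] [Group Γ]
    [MulAction Γ Y] [IsIsometricSMul Γ Y] {pr : Y → X} (hY : IsCatNegOne Y)
    (hQ : IsQuotientCover Γ pr) {μ : Measure (GX X)} (hμ : IsBowenMargulis Γ pr μ)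
    {α : ℝ} (hα : 0 < α) (hα1 : α ≤ 1) : ¬ ExpDecay α μ := by
  obtain ⟨k₁, H₁, Γ₁, i₁, i₂, i₃, i₄, q₁, hH₁, Q₁⟩ := hM₁
  obtain ⟨k₂, H₂, Γ₂, i₅, i₆, i₇, i₈, q₂, hH₂, Q₂⟩ := hM₂
  have hcomp : CompactSpace X := hX.compact
  obtain ⟨p, w, ℓ, Fm, Fp, C⟩ := exists_core2 hH₁ hH₂ Q₁ Q₂ hL hσ₁ hσ₂ inj₁ inj₂ hY hQ hX
  obtain ⟨pμ, h, ν, m, Z, a1, a2, a3, a4, a5⟩ := hμ
  have M : MCore Γ pr h ν m Z μ := ⟨a1, a2, a3, a4, a5, pμ⟩
  obtain ⟨v, hv⟩ := C.surj p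
  exact C.not_expDecay M (v := ⟨v, hv⟩) (C.symm.mass_pos M hv) (C.mass_pos M hv) hα hα1

end Pool.Agent.R192
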