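import Pool.Agent.R192.Lines

set_option autoImplicit false

open Set Filter Topology MeasureTheory
open scoped NNReal ENNReal

noncomputable section

namespace Pool.Agent.R192

open Real

/-! ### measurability of functionals of paths -/

section

variable {A X : Type*} [MeasurableSpace A] [MetricSpace X] [MeasurableSpace X] [BorelSpace X]

/-- if `g a u` is measurable in `a` and continuous in `u` -/
theorem measurable_wt {w : ℝ} {F : X → ℝ} (hF : Continuous F) {g : A → ℝ → X}
    (h1 : ∀ u, Measurable fun a => g a u) (h2 : ∀ a, Continuous (g a)) :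
    Measurable fun a => wt w F (g a) := by
  have hu : Measurable (Function.uncurry fun (u : ℝ) (a : A) => F (g a u)) :=
    measurable_uncurry_of_continuous_of_measurable (fun a => hF.comp (h2 a))
      (fun u => hF.measurable.comp (h1 u))
  have hu' : StronglyMeasurable (Function.uncurry fun (a : A) (u : ℝ) => F (g a u)) :=
    (hu.comp measurable_swap).stronglyMeasurable
  unfold wt
  simp only [intervalIntegral]
  exact (hu'.integral_prod_right (ν := volume.restrict (Ioc 0 (6 * w)))).measurable.sub
    (hu'.integral_prod_right (ν := volume.restrict (Ioc (6 * w) 0))).measurable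

theorem measurable_tm [SecondCountableTopology X] {w : ℝ} {p : X} {g : A → ℝ → X}
    (h1 : ∀ u, Measurable fun a => g a u) (h2 : ∀ a, Continuous (g a)) :
    Measurable fun a => tm w p (g a) := by
  have hu : Measurable (Function.uncurry fun (u : ℝ) (a : A) => u - dist (g a u) p) :=
    measurable_uncurry_of_continuous_of_measurable
      (fun a => continuous_id.sub ((h2 a).dist continuous_const))
      (fun u => measurable_const.sub ((h1 u).dist measurable_const))
  have hu' : StronglyMeasurable (Function.uncurry fun (a : A) (u : ℝ) => u - dist (g a u) p) :=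
    (hu.comp measurable_swap).stronglyMeasurable
  unfold tm
  simp only [intervalIntegral]
  exact ((hu'.integral_prod_right (ν := volume.restrict (Ioc (3 * w) (4 * w)))).measurable.sub
    (hu'.integral_prod_right (ν := volume.restrict (Ioc (4 * w) (3 * w)))).measurable).div_const _

theorem continuous_tent (ε : ℝ) : Continuous (tent ε) := by
  unfold tent
  fun_prop

theorem measurable_obs [SecondCountableTopology X] {w : ℝ} {p : X} {Fm Fp : X → ℝ}
    (hm : Continuous Fm) (hp : Continuous Fp) {ε : ℝ} {g : A → ℝ → X}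
    (h1 : ∀ u, Measurable fun a => g a u) (h2 : ∀ a, Continuous (g a)) :
    Measurable fun a => obs w p Fm Fp ε (g a) := by
  unfold obs
  exact (((continuous_tent ε).measurable.comp (measurable_tm h1 h2)).mul
    (measurable_wt hm (g := fun a u => g a (-u)) (fun u => h1 (-u))
      (fun a => (h2 a).comp continuous_neg))).mul (measurable_wt hp h1 h2)

end

section

variable {Y : Type*} [MetricSpace Y] [MeasurableSpace Y]

theorem measurable_ray_eval (t : ℝ≥0) : Measurable fun r : Ray Y => r.1 t :=
  (measurable_pi_apply t).comp measurable_subtype_coe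

theorem measurable_line_eval (t : ℝ) : Measurable fun l : Line Y => l.1 t :=
  (measurable_pi_apply t).comp measurable_subtype_coe

theorem measurable_gx_eval (t : ℝ) : Measurable fun l : GX Y => l.1 t :=
  (measurable_pi_apply t).comp measurable_subtype_coe

theorem measurable_flow (t : ℝ) : Measurable (flow t : GX Y → GX Y) :=
  Measurable.subtype_mk (measurable_pi_lambda _ fun s => measurable_gx_eval (s + t))

end

namespace Core

variable {Γ Y X : Type*} [Group Γ] [MetricSpace Y] [MetricSpace X] [MulAction Γ Y]
  [IsIsometricSMul Γ Y] {pr : Y → X} {p : X} {w ℓ : ℝ} {Fm Fp : X → ℝ}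

/-- the weight of a ray -/
def rw' {Y X : Type*} [MetricSpace Y] (pr : Y → X) (w : ℝ) (F : X → ℝ) (r : Ray Y) : ℝ≥0∞ :=
  ENNReal.ofReal (wt w F (fun u => pr (r.1 u.toNNReal)))

variable (C : Core Γ pr p w ℓ Fm Fp)

include C

theorem measurable_rw [MeasurableSpace Y] [BorelSpace Y] {F : X → ℝ} (hF : Continuous F) :
    Measurable (rw' pr w F) := by
  apply ENNReal.measurable_ofReal.comp
  exact measurable_wt (X := Y) (F := F ∘ pr) (g := fun (r : Ray Y) (u : ℝ) => r.1 u.toNNReal)
    (hF.comp C.pi_cont) (fun u => measurable_ray_eval _)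
    (fun r => r.2.continuous.comp continuous_real_toNNReal)

theorem measurable_obs_line [MeasurableSpace Y] [BorelSpace Y] [MeasurableSpace X] [BorelSpace X]
    [SecondCountableTopology X] (ε t : ℝ) :
    Measurable fun l : Line Y => obs w p Fm Fp ε (fun s => pr (l.1 (s + t))) :=
  measurable_obs C.Fm_cont C.Fp_cont
    (fun u => C.pi_cont.measurable.comp (measurable_line_eval (u + t)))
    (fun l => C.pi_cont.comp (l.2.continuous.comp (continuous_id.add continuous_const)))

/-- exactly one lift near `v` -/
theorem fiber_sum {v : Y} (hv : pr v = p) {ε : ℝ} (hε : 0 < ε) (hεw : ε ≤ w) (Ψ : GX X → ℝ≥0∞)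
    (c : GX X) :
    ∑' l : {l : Line Y // ∀ t, pr (l.1 t) = c.1 t},
      ((if dist v (l.1.1 0) < 20 * w then 1 else 0) *
        ENNReal.ofReal (obs w p Fm Fp ε (fun t => pr (l.1.1 t))) * Ψ (C.down l.1)) =
    ENNReal.ofReal (obs w p Fm Fp ε c.1) * Ψ c := by
  have hw := C.w_pos
  have e1 : ∀ l : {l : Line Y // ∀ t, pr (l.1 t) = c.1 t}, (fun t => pr (l.1.1 t)) = c.1 :=
    fun l => funext l.2
  have e2 : ∀ l : {l : Line Y // ∀ t, pr (l.1 t) = c.1 t}, C.down l.1 = c :=
    fun l => Subtype.ext (funext l.2)
  simp only [e1, e2]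
  by_cases h0 : obs w p Fm Fp ε c.1 = 0
  · simp [h0]
  · -- a lift through a point near `v`
    obtain ⟨x₀, hx₀⟩ := C.surj (c.1 0)
    obtain ⟨l₀, hl₀, hl₀'⟩ := C.lift c.1 c.2 x₀ hx₀
    have h1 : obs w p Fm Fp ε (fun t => pr (l₀.1 t)) ≠ 0 := by
      rwa [show (fun t => pr (l₀.1 t)) = c.1 from funext hl₀']
    obtain ⟨T, hT, hpT⟩ := C.obs_ne l₀ hε h1
    have hd : dist p (c.1 0) < w := by
      rw [← hpT, ← hl₀' 0]
      refine (C.pi_lip _ _).trans_lt ?_
      rw [line_dist, sub_zero]; linarith
    obtain ⟨y, hy, hy'⟩ := C.exists_near v (c.1 0)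
    rw [hv] at hy'
    obtain ⟨l₁, hl₁, hl₁'⟩ := C.lift c.1 c.2 y hy
    rw [tsum_eq_single (⟨l₁, hl₁'⟩ : {l : Line Y // ∀ t, pr (l.1 t) = c.1 t})]
    · rw [if_pos, one_mul]
      show dist v (l₁.1 0) < 20 * w
      rw [hl₁, hy']; linarith
    · rintro ⟨l, hl⟩ hne
      rw [if_neg, zero_mul, zero_mul]
      intro hlt
      apply hne
      apply Subtype.ext
      show l = l₁
      apply C.lift_unique (fun t => by rw [hl, hl₁'])
      rw [hl₁]
      apply C.fiber_eq (by rw [hl, hy])
      have := dist_triangle (l.1 0) v y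
      rw [dist_comm _ v, hy'] at this
      have : dist v (l.1 0) < 20 * w := hlt
      linarith

/-- the pointwise identity behind the Hopf parametrisation formula -/
theorem pointwise [CompleteSpace Y] {v : Y} (hv : pr v = p) {ε : ℝ} (hε : 0 < ε) (hεw : ε ≤ w)
    (h : ℝ) (Ψ : GX X → ℝ≥0∞) (G : Ray Y × ℝ → ℝ≥0∞)
    (hG : ∀ (l : Line Y) (T : ℝ), |T| < ε → l.1 T = v → Ψ (C.down l) = G (fwd (shiftL T l), T))
    (l : Line Y) :
    (rw' pr w Fm (rayFrom v (bwd l)) * rw' pr w Fp (rayFrom v (fwd l)) *
      (ENNReal.ofReal (tent ε (-(busemann (fwd l) v (l.1 0)))) *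
        G (rayFrom v (fwd l), -(busemann (fwd l) v (l.1 0))))) *
      ENNReal.ofReal (Real.exp (-h * (busemann (bwd l) v (l.1 0) + busemann (fwd l) v (l.1 0)))) =
    (if dist v (l.1 0) < 20 * w then 1 else 0) *
        ENNReal.ofReal (obs w p Fm Fp ε (fun t => pr (l.1 t))) * Ψ (C.down l) := by
  have hw := C.w_pos
  by_cases hl : ∃ T, l.1 T = v
  · obtain ⟨T, hT⟩ := hl
    have b1 := busemann_fwd l T
    have b2 := busemann_bwd l T
    have r1 := C.cat.rayFrom_fwd l T
    have r2 := C.cat.rayFrom_bwd l T
    rw [hT] at b1 b2 r1 r2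
    rw [b1, b2, r1, r2, neg_neg, add_neg_cancel, mul_zero, Real.exp_zero, ENNReal.ofReal_one,
      mul_one]
    by_cases hTε : |T| < ε
    · have hTw : |T| ≤ w := by linarith
      rw [if_pos, C.obs_at l hTw (by rw [hT]; exact hv), ← hG l T hTε hT, one_mul]
      · have f1 : rw' pr w Fm (bwd (shiftL T l)) =
            ENNReal.ofReal (wt w Fm fun u => pr (l.1 (T - u))) := by
          unfold rw'
          congr 1
          apply wt_congr hw.le
          intro u hu _
          show Fm (pr (l.1 (-(u.toNNReal:ℝ) + T))) = _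
          rw [Real.coe_toNNReal _ hu, show -u + T = T - u by ring]
        have f2 : rw' pr w Fp (fwd (shiftL T l)) =
            ENNReal.ofReal (wt w Fp fun u => pr (l.1 (T + u))) := by
          unfold rw'
          congr 1
          apply wt_congr hw.le
          intro u hu _
          show Fp (pr (l.1 ((u.toNNReal:ℝ) + T))) = _
          rw [Real.coe_toNNReal _ hu, show u + T = T + u by ring]
        rw [f1, f2, ENNReal.ofReal_mul (mul_nonneg (tent_nonneg _ _) (wt_nonneg hw.le C.Fm_nonneg _)),
          ENNReal.ofReal_mul (tent_nonneg _ _)]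
        ring
      · rw [← hT, line_dist, sub_zero]; linarith
    · have t0 : tent ε T = 0 := by
        by_contra hcon
        exact hTε (tent_ne hε hcon)
      rw [t0, ENNReal.ofReal_zero, zero_mul, mul_zero]
      symm
      by_cases hd : dist v (l.1 0) < 20 * w
      · have : obs w p Fm Fp ε (fun t => pr (l.1 t)) = 0 := by
          by_contra hcon
          obtain ⟨T', h1, h2⟩ := C.obs_ne l hε hcon
          have h3 : l.1 T' = v := by
            apply C.fiber_eq (by rw [h2, hv])
            have := dist_triangle (l.1 T') (l.1 0) v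
            rw [line_dist, sub_zero, dist_comm (l.1 0) v] at this
            linarith
          have h4 : T' = T := by
            apply l.2.injective
            rw [h3, hT]
          exact hTε (h4 ▸ h1)
        rw [this]; simp
      · rw [if_neg hd]; simp
  · have z1 : rw' pr w Fm (rayFrom v (bwd l)) * rw' pr w Fp (rayFrom v (fwd l)) = 0 := by
      by_contra hcon
      apply hl
      apply C.line_through hv l
      · intro h0; apply hcon; unfold rw'; rw [h0]; simp
      · intro h0; apply hcon; unfold rw'; rw [h0]; simp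
    rw [z1, zero_mul, zero_mul]
    symm
    by_cases hd : dist v (l.1 0) < 20 * w
    · have : obs w p Fm Fp ε (fun t => pr (l.1 t)) = 0 := by
        by_contra hcon
        obtain ⟨T', h1, h2⟩ := C.obs_ne l hε hcon
        apply hl
        refine ⟨T', ?_⟩
        apply C.fiber_eq (by rw [h2, hv])
        have := dist_triangle (l.1 T') (l.1 0) v
        rw [line_dist, sub_zero, dist_comm (l.1 0) v] at this
        linarith
      rw [this]; simp
    · rw [if_neg hd]; simp

end Core

end Pool.Agent.R192
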