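import Pool.Agent.R192.Meas

set_option autoImplicit false

open Set Filter Topology MeasureTheory
open scoped NNReal ENNReal

noncomputable section

namespace Pool.Agent.R192

open Real

/-- the measure theoretic data -/
structure MCore (Γ : Type*) {Y X : Type*} [Group Γ] [MetricSpace Y] [MetricSpace X]
    [MulAction Γ Y] [IsIsometricSMul Γ Y] [MeasurableSpace Y] [MeasurableSpace X] (pr : Y → X)
    (h : ℝ) (ν : Y → Measure (Ray Y)) (m : Measure (Line Y)) (Z : ℝ≥0∞) (μ : Measure (GX X)) :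
    Prop where
  dens : IsConformalDensity Γ h ν
  bms : IsBMSMeasure h ν m
  Z0 : Z ≠ 0
  Zt : Z ≠ ⊤
  quot : ∀ F : Line Y → ℝ≥0∞, Measurable F →
    ∫⁻ c, F c ∂m = Z * ∫⁻ c, ∑' l : {l : Line Y // ∀ t, pr (l.1 t) = c.1 t}, F l.1 ∂μ
  prob : IsProbabilityMeasure μ

namespace Core

variable {Γ Y X : Type*} [Group Γ] [MetricSpace Y] [MetricSpace X] [MulAction Γ Y]
  [IsIsometricSMul Γ Y] {pr : Y → X} {p : X} {w ℓ : ℝ} {Fm Fp : X → ℝ}
  [MeasurableSpace Y] [BorelSpace Y] [MeasurableSpace X] [BorelSpace X] [ProperSpace Y]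
  [SecondCountableTopology X]

variable (C : Core Γ pr p w ℓ Fm Fp) {h : ℝ} {ν : Y → Measure (Ray Y)} {m : Measure (Line Y)}
  {Z : ℝ≥0∞} {μ : Measure (GX X)} (M : MCore Γ pr h ν m Z μ)

include C M

/-- the basic integral formula -/
theorem unfold {v : Y} (hv : pr v = p) {ε : ℝ} (hε : 0 < ε) (hεw : ε ≤ w)
    (Ψ : GX X → ℝ≥0∞) (hΨ : Measurable fun l : Line Y => Ψ (C.down l))
    (G : Ray Y × ℝ → ℝ≥0∞) (hGm : Measurable G)
    (hG : ∀ (l : Line Y) (T : ℝ), |T| < ε → l.1 T = v → Ψ (C.down l) = G (fwd (shiftL T l), T)) :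
    Z * ∫⁻ c, ENNReal.ofReal (obs w p Fm Fp ε c.1) * Ψ c ∂μ =
      (∫⁻ r, rw' pr w Fm r ∂ν v) * ∫⁻ r, rw' pr w Fp r *
        ∫⁻ s, ENNReal.ofReal (tent ε s) * G (r, s) ∂volume ∂ν v := by
  classical
  have hw := C.w_pos
  have hm1 : Measurable fun l : Line Y => (if dist v (l.1 0) < 20 * w then (1:ℝ≥0∞) else 0) :=
    Measurable.ite (measurableSet_lt (measurable_const.dist (measurable_line_eval 0))
      measurable_const) measurable_const measurable_const
  have hm2 : Measurable fun l : Line Y =>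
      ENNReal.ofReal (obs w p Fm Fp ε (fun t => pr (l.1 t))) := by
    have := C.measurable_obs_line ε 0
    simp only [add_zero] at this
    exact ENNReal.measurable_ofReal.comp this
  have q := M.quot (fun l => (if dist v (l.1 0) < 20 * w then 1 else 0) *
        ENNReal.ofReal (obs w p Fm Fp ε (fun t => pr (l.1 t))) * Ψ (C.down l))
        ((hm1.mul hm2).mul hΨ)
  simp only [C.fiber_sum hv hε hεw Ψ] at q
  rw [← q]
  have hA : Measurable (rw' pr w Fm : Ray Y → ℝ≥0∞) := C.measurable_rw C.Fm_cont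
  have hB : Measurable (rw' pr w Fp : Ray Y → ℝ≥0∞) := C.measurable_rw C.Fp_cont
  have hE : Measurable fun s : ℝ => ENNReal.ofReal (tent ε s) :=
    ENNReal.measurable_ofReal.comp (continuous_tent ε).measurable
  have hEG : Measurable fun x : Ray Y × ℝ => ENNReal.ofReal (tent ε x.2) * G x :=
    (hE.comp measurable_snd).mul hGm
  have hneg : Measurable fun x : Ray Y × ℝ => (x.1, -x.2) :=
    measurable_fst.prodMk measurable_snd.neg
  set K : Ray Y × Ray Y × ℝ → ℝ≥0∞ := fun x =>
    rw' pr w Fm x.1 * rw' pr w Fp x.2.1 * (ENNReal.ofReal (tent ε (-x.2.2)) * G (x.2.1, -x.2.2))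
    with hK
  have hKm : Measurable K :=
    ((hA.comp measurable_fst).mul (hB.comp (measurable_fst.comp measurable_snd))).mul
      ((hEG.comp hneg).comp measurable_snd)
  have b := M.bms v K hKm
  simp only [hK, C.pointwise hv hε hεw h Ψ G hG] at b
  rw [b]
  have st := M.dens.start v
  have hinv : ∀ r' : Ray Y, ∫⁻ s : ℝ, ENNReal.ofReal (tent ε (-s)) * G (r', -s) =
      ∫⁻ s : ℝ, ENNReal.ofReal (tent ε s) * G (r', s) := fun r' =>
    lintegral_neg_eq_self (μ := volume) fun s : ℝ => ENNReal.ofReal (tent ε s) * G (r', s)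
  have e1 : ∀ᵐ r ∂ν v, (∫⁻ r', ∫⁻ s : ℝ, (if Asymp r r' then 0 else
      rw' pr w Fm r * rw' pr w Fp r' * (ENNReal.ofReal (tent ε (-s)) * G (r', -s))) ∂volume ∂ν v) =
      rw' pr w Fm r * ∫⁻ r', rw' pr w Fp r' *
        ∫⁻ s, ENNReal.ofReal (tent ε s) * G (r', s) ∂volume ∂ν v := by
    filter_upwards [st] with r hr
    have e2 : ∀ᵐ r' ∂ν v, (∫⁻ s : ℝ, (if Asymp r r' then 0 else
      rw' pr w Fm r * rw' pr w Fp r' * (ENNReal.ofReal (tent ε (-s)) * G (r', -s))) ∂volume) =
      rw' pr w Fm r * (rw' pr w Fp r' * ∫⁻ s, ENNReal.ofReal (tent ε s) * G (r', s) ∂volume) := by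
      filter_upwards [st] with r' hr'
      by_cases has : Asymp r r'
      · simp only [has, if_true]
        rw [lintegral_const, zero_mul]
        symm
        rw [← mul_assoc]
        have : rw' pr w Fm r * rw' pr w Fp r' = 0 := by
          by_contra hcon
          obtain ⟨D, hD⟩ := has
          have hg := C.ray_glue hv hr hr'
            (fun h0 => by apply hcon; unfold rw'; rw [h0]; simp)
            (fun h0 => by apply hcon; unfold rw'; rw [h0]; simp)
          have h1 := hD (D.toNNReal + 1)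
          rw [hg] at h1
          push_cast at h1
          have := Real.le_coe_toNNReal D
          have := (D.toNNReal).coe_nonneg
          linarith
        rw [this, zero_mul]
      · simp only [has, if_false]
        rw [lintegral_const_mul, mul_assoc, hinv]
        exact (hEG.comp hneg).comp measurable_prodMk_left
    rw [lintegral_congr_ae e2, lintegral_const_mul]
    exact hB.mul hEG.lintegral_prod_right'
  rw [lintegral_congr_ae e1, lintegral_mul_const _ hA]

end Core

end Pool.Agent.R192
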